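import Mathlib.Tactic.LinearCombination
import Mathlib.Tactic.Monotonicity.Lemmas
import Mathlib.Analysis.Normed.Ring.Lemmas
import Pool.Agent.MP_7ebdba_gt.ss.Core

/-! The tree of 9-gons and the circular order on `F 2`. -/

namespace Pool.Agent.MP_7ebdba_gt.ch

open Meander7

/-- vertices of the base polygon; the side from `vx 8 = zeta` to `vx 0 = 1` is the gap. -/
def vx (k : Fin 9) : F 2 := wd (([1, 2, -1, -2, 3, 4, -3, -4] : List ℤ).take k)

/-- pairing of the sides. -/
def pr : Fin 9 → Fin 9 := ![2, 3, 0, 1, 6, 7, 4, 5, 8]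

/-- the polygon across side `k` of the base polygon (`k ≠ 8`). -/
def tg (k : Fin 9) : F 2 := vx (k + 1) * (vx (pr k))⁻¹

theorem vx_zero : vx 0 = 1 := by decide +kernel

theorem vx_eight : vx 8 = zeta := by decide +kernel

theorem pr_pr (k : Fin 9) : pr (pr k) = k := by revert k; decide

theorem pr_ne {k : Fin 9} (h : k ≠ 8) : pr k ≠ k := by revert k; decide

theorem pr_ne_eight {k : Fin 9} (h : k ≠ 8) : pr k ≠ 8 := by revert k; decide

theorem tg_vx (k : Fin 9) : tg k * vx (pr k) = vx (k + 1) := by simp [tg]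

theorem tg_vx' {k : Fin 9} (h : k ≠ 8) : tg k * vx (pr k + 1) = vx k := by
  revert k; decide +kernel

theorem tg_pr {k : Fin 9} (h : k ≠ 8) : tg (pr k) = (tg k)⁻¹ := by revert k; decide +kernel

def dualI : F 2 →* F 2 := hom4 [1, 2, -1] [1, -2, -1, 2, -1]
  [1, -2, -1, 2, 3, 4, -3, -2, 1, 2, -1] [1, -2, -1, 2, 3, -4, -3, 4, -3, -2, 1, 2, -1]

def dualH : F 2 →* F 2 := hom4 [1, -2, -1] [1, 2, 1, -2, -1]
  [1, 2, -1, -2, 3, -4, -3, 2, 1, -2, -1] [1, 2, -1, -2, 3, 4, 3, -4, -3, 2, 1, -2, -1]

theorem dualH_dualI (g : F 2) : dualH (dualI g) = g :=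
  DFunLike.congr_fun (FreeGroup.ext_hom (dualH.comp dualI) (MonoidHom.id _) (by decide +kernel)) g

/-- side attached to a letter of the dual basis. -/
def lix (x : (Fin 2 × Bool) × Bool) : Fin 9 :=
  (if x.1.1 = 0 then 0 else 4) + (if x.1.2 then 1 else 0) + (if x.2 then 0 else 2)

/-- letter attached to a side. -/
def xil (k : Fin 9) : (Fin 2 × Bool) × Bool :=
  ((if k.val < 4 then 0 else 1, decide (k.val % 2 = 1)), decide (k.val % 4 < 2))

theorem dualI_tg {k : Fin 9} (h : k ≠ 8) : dualI (tg k) = FreeGroup.mk [xil k] := by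
  revert k; decide +kernel

/-- the side of the base polygon behind which the polygon `g` lies; `8` for `g = 1`. -/
def dir (g : F 2) : Fin 9 :=
  match (dualI g).toWord with
  | [] => 8
  | x :: _ => lix x

/-- distance in the tree of polygons. -/
def len (g : F 2) : ℕ := (dualI g).toWord.length

theorem lix_ne (x : (Fin 2 × Bool) × Bool) : lix x ≠ 8 := by revert x; decide

theorem dir_one : dir 1 = 8 := by simp [dir]

theorem dir_eq_eight {g : F 2} : dir g = 8 ↔ g = 1 := by
  refine ⟨fun h => ?_, fun h => h ▸ dir_one⟩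
  unfold dir at h
  rcases hw : (dualI g).toWord with _ | ⟨x, l⟩
  · rw [← dualH_dualI g, FreeGroup.toWord_eq_nil_iff.1 hw, map_one]
  · rw [hw] at h
    exact absurd h (lix_ne x)

theorem toWord_tg {k : Fin 9} (h : k ≠ 8) (g : F 2) :
    (dualI (tg k * g)).toWord = FreeGroup.reduce (xil k :: (dualI g).toWord) := by
  rw [map_mul, dualI_tg h, FreeGroup.toWord_mul, FreeGroup.toWord_mk, FreeGroup.reduce_singleton,
    List.singleton_append]

theorem lix_xil {k : Fin 9} (h : k ≠ 8) : lix (xil k) = k := by revert k; decide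

theorem cancel_iff {k : Fin 9} (h : k ≠ 8) (x : (Fin 2 × Bool) × Bool) :
    ((xil k).1 = x.1 ∧ (xil k).2 = !x.2) ↔ lix x = pr k := by
  revert k x; decide

theorem dir_mul {k : Fin 9} (h : k ≠ 8) {g : F 2} (hg : dir g ≠ pr k) :
    dir (tg k * g) = k ∧ len (tg k * g) = len g + 1 := by
  have e : (dualI (tg k * g)).toWord = xil k :: (dualI g).toWord := by
    rw [toWord_tg h, FreeGroup.reduce.cons, FreeGroup.reduce_toWord]
    unfold dir at hg
    rcases hw : (dualI g).toWord with _ | ⟨x, l⟩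
    · rfl
    · rw [hw] at hg
      exact if_neg fun c => hg ((cancel_iff h x).1 c)
  unfold dir len
  rw [e]
  exact ⟨lix_xil h, rfl⟩

theorem dir_cancel {k : Fin 9} (h : k ≠ 8) {g : F 2} (hg : dir g = pr k) :
    dir (tg k * g) ≠ k ∧ len (tg k * g) + 1 = len g := by
  unfold dir at hg
  rcases hw : (dualI g).toWord with _ | ⟨x, l⟩
  · rw [hw] at hg
    exact absurd hg.symm (pr_ne_eight h)
  rw [hw] at hg
  have c := (cancel_iff h x).2 hg
  have e : (dualI (tg k * g)).toWord = l := by
    rw [toWord_tg h, FreeGroup.reduce.cons, FreeGroup.reduce_toWord, hw]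
    exact if_pos c
  have hr : FreeGroup.IsReduced (x :: l) := hw ▸ FreeGroup.isReduced_toWord
  unfold dir len
  rw [e, hw]
  refine ⟨?_, rfl⟩
  rcases l with _ | ⟨y, l⟩
  · exact h.symm
  · have h1 := (FreeGroup.isReduced_cons_cons.1 hr).1
    have key : ∀ (k : Fin 9) (x y : (Fin 2 × Bool) × Bool), lix x = pr k → (x.1 = y.1 → x.2 = y.2) →
        lix y ≠ k := by decide
    exact key k x y hg h1

theorem dir_mul_iff {k : Fin 9} (h : k ≠ 8) (g : F 2) : dir (tg k * g) = k ↔ dir g ≠ pr k :=
  ⟨fun e c => (dir_cancel h c).1 e, fun c => (dir_mul h c).1⟩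

/-- one step towards the polygon `g`. -/
theorem dir_step {g : F 2} (h : dir g ≠ 8) :
    dir ((tg (dir g))⁻¹ * g) ≠ pr (dir g) ∧ len ((tg (dir g))⁻¹ * g) + 1 = len g := by
  rw [← tg_pr h]
  exact dir_cancel (pr_ne_eight h) (pr_pr _).symm

/-- one step in another direction. -/
theorem dir_away {k : Fin 9} (h : k ≠ 8) {g : F 2} (hg : dir g ≠ k) :
    dir ((tg k)⁻¹ * g) = pr k ∧ len ((tg k)⁻¹ * g) = len g + 1 := by
  rw [← tg_pr h]
  exact dir_mul (pr_ne_eight h) (by rwa [pr_pr])

theorem len_induction {p : F 2 → Prop} (h1 : p 1)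
    (hs : ∀ (k : Fin 9) (g : F 2), k ≠ 8 → dir g ≠ pr k → p g → p (tg k * g)) (g : F 2) : p g := by
  induction hn : len g using Nat.strong_induction_on generalizing g with
  | _ n ih =>
  by_cases h : dir g = 8
  · exact dir_eq_eight.1 h ▸ h1
  · have := dir_step h
    have e := hs (dir g) _ h this.1 (ih _ (by omega) _ rfl)
    rwa [mul_inv_cancel_left] at e

/-- three different polygons are seen in three different directions from their median. -/
theorem exists_median {g h k : F 2} (h1 : g ≠ h) (h2 : h ≠ k) (h3 : k ≠ g) :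
    ∃ m : F 2, dir (m⁻¹ * g) ≠ dir (m⁻¹ * h) ∧ dir (m⁻¹ * h) ≠ dir (m⁻¹ * k) ∧
      dir (m⁻¹ * k) ≠ dir (m⁻¹ * g) := by
  induction hn : len g + len h + len k using Nat.strong_induction_on generalizing g h k with
  | _ n ih =>
  have key : ∀ d : Fin 9, len ((tg d)⁻¹ * g) + len ((tg d)⁻¹ * h) + len ((tg d)⁻¹ * k) < n →
      ∃ m : F 2, dir (m⁻¹ * g) ≠ dir (m⁻¹ * h) ∧ dir (m⁻¹ * h) ≠ dir (m⁻¹ * k) ∧
        dir (m⁻¹ * k) ≠ dir (m⁻¹ * g) := fun d hd => by
    obtain ⟨m, hm⟩ := ih _ hd (fun e => h1 (mul_left_cancel e)) (fun e => h2 (mul_left_cancel e))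
      (fun e => h3 (mul_left_cancel e)) rfl
    refine ⟨tg d * m, ?_⟩
    simpa only [mul_inv_rev, mul_assoc] using hm
  have le : ∀ (d : Fin 9) (x : F 2), d ≠ 8 → len ((tg d)⁻¹ * x) ≤ len x + 1 := fun d x hd => by
    by_cases e : dir x = d
    · subst e
      have := (dir_step hd).2
      omega
    · exact (dir_away hd e).2.le
  have two : ∀ x y : F 2, x ≠ y → dir x = dir y → dir x ≠ 8 ∧
      len ((tg (dir x))⁻¹ * x) + 1 = len x ∧ len ((tg (dir x))⁻¹ * y) + 1 = len y :=
    fun x y hxy e => by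
      have hd : dir x ≠ 8 := fun c =>
        hxy ((dir_eq_eight.1 c).trans (dir_eq_eight.1 (e ▸ c)).symm)
      exact ⟨hd, (dir_step hd).2, by rw [e] at hd ⊢; exact (dir_step hd).2⟩
  by_cases e1 : dir g = dir h
  · obtain ⟨a, b, c⟩ := two g h h1 e1
    have := le _ k a
    exact key (dir g) (by omega)
  by_cases e2 : dir h = dir k
  · obtain ⟨a, b, c⟩ := two h k h2 e2
    have := le _ g a
    exact key (dir h) (by omega)
  by_cases e3 : dir k = dir g
  · obtain ⟨a, b, c⟩ := two k g h3 e3
    have := le _ h a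
    exact key (dir k) (by omega)
  exact ⟨1, by simpa using e1, by simpa using e2, by simpa using e3⟩

/-- positive cyclic order of three indices. -/
def cyc3 (i j k : Fin 9) : Prop := (i < j ∧ j < k) ∨ (j < k ∧ k < i) ∨ (k < i ∧ i < j)

instance (i j k : Fin 9) : Decidable (cyc3 i j k) := by unfold cyc3; infer_instance

/-- invariant circular preorder that is positive on the base polygon. -/
structure PreGood (o : F 2 → F 2 → F 2 → Prop) : Prop where
  cyc : ∀ {a b c}, o a b c → o b c a
  asymm : ∀ {a b c}, o a b c → ¬ o c b a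
  trans : ∀ {a b c d}, o a b c → o a c d → o a b d
  inv : ∀ m {a b c}, o a b c → o (m * a) (m * b) (m * c)
  poly : ∀ i j k, cyc3 i j k → o (vx i) (vx j) (vx k)

theorem PreGood.arc {o : F 2 → F 2 → F 2 → Prop} (h : PreGood o) (g : F 2) :
    g = vx (dir g + 1) ∨ o (vx (dir g)) g (vx (dir g + 1)) := by
  induction g using len_induction with
  | h1 => exact Or.inl (by rw [dir_one]; exact vx_zero.symm)
  | hs k g hk hg ih =>
    rw [(dir_mul hk hg).1, ← tg_vx k]
    conv_rhs => rw [← tg_vx' hk]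
    generalize dir g = e at hg ih
    generalize pr k = d at hg
    have want : g = vx d ∨ o (vx (d + 1)) g (vx d) := by
      rcases ih with ih | ih
      · by_cases c : e + 1 = d
        · exact Or.inl (c ▸ ih)
        · have c3 : cyc3 (d + 1) (e + 1) d := by clear ih; revert e d; decide
          exact Or.inr (ih ▸ h.poly _ _ _ c3)
      · right
        have s1 : o (vx e) g (vx d) := by
          by_cases c : e + 1 = d
          · exact c ▸ ih
          · exact h.trans ih (h.poly _ _ _ (by clear ih; revert e d; decide))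
        by_cases c : e = d + 1
        · exact c ▸ s1
        · exact h.cyc (h.trans (h.poly d (d + 1) e (by clear ih s1; revert e d; decide))
            (h.cyc (h.cyc s1)))
    rcases want with w | w
    · exact Or.inl (by rw [w])
    · exact Or.inr (h.inv _ w)

/-- determinant of two integer vectors. -/
def det (x y : ℤ × ℤ) : ℤ := x.1 * y.2 - x.2 * y.1

/-- a matrix of determinant one acting on integer vectors. -/
def mat (a b c d : ℤ) (h : a * d - b * c = 1) : Equiv.Perm (ℤ × ℤ) where
  toFun x := (a * x.1 + b * x.2, c * x.1 + d * x.2)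
  invFun x := (d * x.1 - b * x.2, a * x.2 - c * x.1)
  left_inv x := by
    ext
    · linear_combination x.1 * h
    · linear_combination x.2 * h
  right_inv x := by
    ext
    · linear_combination x.1 * h
    · linear_combination x.2 * h

theorem det_mat (a b c d : ℤ) (h : a * d - b * c = 1) (x y : ℤ × ℤ) :
    det (mat a b c d h x) (mat a b c d h y) = det x y := by
  simp only [det, mat, Equiv.coe_fn_mk]
  linear_combination (x.1 * y.2 - x.2 * y.1) * h

/-- a Schottky representation. -/
def rep0 : F 2 →* Equiv.Perm (ℤ × ℤ) :=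
  FreeGroup.lift fun x =>
    if x.1 = 0 then (if x.2 then mat 5 (-33) 2 (-13) rfl else mat 1 (-5) 2 (-9) rfl)
    else (if x.2 then mat 21 (-305) 2 (-29) rfl else mat 17 (-213) 2 (-25) rfl)

theorem det_rep0 (g : F 2) (x y : ℤ × ℤ) : det (rep0 g x) (rep0 g y) = det x y := by
  induction g using FreeGroup.induction_on generalizing x y with
  | C1 => simp
  | of s =>
    rw [rep0, FreeGroup.lift_apply_of]
    split_ifs <;> exact det_mat ..
  | inv_of s ih =>
    rw [← ih, map_inv]
    simp
  | mul a b iha ihb => rw [map_mul, Equiv.Perm.mul_apply, Equiv.Perm.mul_apply, iha, ihb]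

/-- the point of the circle attached to a group element. -/
def pt (g : F 2) : ℤ × ℤ := rep0 (dualI g) (1, 0)

theorem det_pt (m g h : F 2) : det (pt (m * g)) (pt (m * h)) = det (pt g) (pt h) := by
  simp only [pt, map_mul, Equiv.Perm.mul_apply, det_rep0]

/-- the circular order. -/
def co (g h k : F 2) : Prop := 0 < det (pt g) (pt h) * det (pt h) (pt k) * det (pt k) (pt g)

instance (g h k : F 2) : Decidable (co g h k) := by unfold co; infer_instance

theorem co_cyc {a b c : F 2} (h : co a b c) : co b c a := by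
  unfold co at *
  linarith

theorem co_asymm {a b c : F 2} (h : co a b c) : ¬ co c b a := by
  unfold co det at *
  intro h'
  nlinarith

theorem co_trans {a b c d : F 2} (h1 : co a b c) (h2 : co a c d) : co a b d := by
  unfold co at *
  have hac : det (pt a) (pt c) ≠ 0 := fun e => by simp [e] at h2
  have hab : det (pt a) (pt b) ≠ 0 := fun e => by simp [e] at h1
  have key : det (pt a) (pt b) * det (pt b) (pt d) * det (pt d) (pt a) * det (pt a) (pt c) ^ 2 =
      det (pt a) (pt b) ^ 2 * (det (pt a) (pt c) * det (pt c) (pt d) * det (pt d) (pt a)) +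
      det (pt d) (pt a) ^ 2 * (det (pt a) (pt b) * det (pt b) (pt c) * det (pt c) (pt a)) := by
    unfold det
    ring
  have p1 : 0 < det (pt a) (pt c) ^ 2 := by positivity
  have p2 : 0 < det (pt a) (pt b) ^ 2 := by positivity
  have p3 := mul_pos p2 h2
  have p4 := mul_nonneg (sq_nonneg (det (pt d) (pt a))) h1.le
  exact (mul_pos_iff_of_pos_right p1).1 (by rw [key]; linarith)

theorem co_inv (m : F 2) (a b c : F 2) : co (m * a) (m * b) (m * c) ↔ co a b c := by
  simp only [co, det_pt]

theorem co_pre : PreGood co :=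
  ⟨co_cyc, co_asymm, co_trans, fun m _ _ _ h => (co_inv m _ _ _).2 h, by decide +kernel⟩

theorem co_phi_pre : PreGood fun a b c => co (phi a) (phi b) (phi c) :=
  ⟨co_cyc, co_asymm, co_trans, fun m _ _ _ h => by
    simp only [map_mul]
    exact (co_inv _ _ _ _).2 h, by decide +kernel⟩

theorem det_ne {g h : F 2} (hne : g ≠ h) : det (pt g) (pt h) ≠ 0 := by
  have e : det (pt g) (pt h) = det (pt 1) (pt (g⁻¹ * h)) := by
    rw [← det_pt g 1 (g⁻¹ * h), mul_one, mul_inv_cancel_left]
  rw [e]
  have hw : dir (g⁻¹ * h) ≠ 8 := fun c => hne (inv_mul_eq_one.1 (dir_eq_eight.1 c))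
  have k1 : ∀ d : Fin 9, d ≠ 8 → det (pt 1) (pt (vx (d + 1))) ≠ 0 := by decide +kernel
  have k2 : ∀ d : Fin 9, d ≠ 8 →
      0 ≤ (pt (vx d)).2 * (pt (vx (d + 1))).2 * det (pt (vx (d + 1))) (pt (vx d)) := by
    decide +kernel
  rcases co_pre.arc (g⁻¹ * h) with a | a
  · rw [a]
    exact k1 _ hw
  · intro c
    have p1 : pt 1 = (1, 0) := by simp [pt]
    have k3 := k2 _ hw
    unfold co at a
    generalize det (pt (vx (dir (g⁻¹ * h) + 1))) (pt (vx (dir (g⁻¹ * h)))) = D at a k3
    rw [p1] at c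
    unfold det at a c
    simp only [one_mul, zero_mul, sub_zero] at c
    rw [c] at a
    nlinarith [mul_nonneg (sq_nonneg (pt (g⁻¹ * h)).1) k3]

theorem co_circ : Circ co := by
  refine ⟨co_cyc, co_asymm, co_trans, fun {a b c} h1 h2 h3 => ?_⟩
  have := mul_ne_zero (mul_ne_zero (det_ne h1) (det_ne h2)) (det_ne h3)
  rcases lt_or_gt_of_ne this with h | h
  · right
    unfold co det at *
    nlinarith
  · exact Or.inl h

/-- position of the gap of `g` among the vertices of the base polygon. -/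
def rk (g : F 2) : ℕ := if dir g = 8 then 0 else (dir g).val + 1

theorem PreGood.cut_vx {o : F 2 → F 2 → F 2 → Prop} (h : PreGood o) {i j : Fin 9} (hij : i < j) :
    Circ.cut o 1 (vx i) (vx j) := by
  by_cases e : i = 0
  · left
    have : ∀ j : Fin 9, 0 < j → vx j ≠ 1 := by decide +kernel
    exact ⟨e ▸ vx_zero, this j (e ▸ hij)⟩
  · right
    rw [← vx_zero]
    exact h.poly _ _ _ (Or.inl ⟨Fin.pos_iff_ne_zero.2 e, hij⟩)

theorem PreGood.le_vx {o : F 2 → F 2 → F 2 → Prop} (h : PreGood o) (hc : Circ o) (g : F 2)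
    (k : Fin 9) : letI := hc.lin 1
    g ≤ vx k ↔ rk g ≤ k := by
  let _ := hc.lin 1
  have mono : ∀ {i j : Fin 9}, i < j → vx i < vx j := fun hij => h.cut_vx hij
  have mono' : ∀ {i j : Fin 9}, i ≤ j → vx i ≤ vx j := fun hij => by
    rcases hij.lt_or_eq with e | e
    · exact (mono e).le
    · rw [e]
  unfold rk
  by_cases hd : dir g = 8
  · rw [if_pos hd, dir_eq_eight.1 hd, ← vx_zero]
    exact iff_of_true (mono' (Fin.zero_le _)) (Nat.zero_le _)
  rw [if_neg hd]
  have h1 : ∀ d : Fin 9, d ≠ 8 → d < d + 1 ∧ (d + 1).val = d.val + 1 := by decide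
  have h2 := mono (h1 _ hd).1
  have h3 : vx (dir g) < g ∧ g ≤ vx (dir g + 1) := by
    rcases h.arc g with a | a
    · exact ⟨by rw [← a] at h2; exact h2, a.le⟩
    · rcases (hc.o_iff 1 _ _ _).1 a with b | b | b
      · exact ⟨b.1, b.2.le⟩
      · exact absurd h2 (not_lt.2 b.2.le)
      · exact absurd h2 (not_lt.2 b.1.le)
  constructor
  · intro hk
    by_contra c
    have : k ≤ dir g := by
      rw [Fin.le_def]
      omega
    exact absurd (h3.1.trans_le hk) (not_lt.2 (mono' this))
  · intro hk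
    refine h3.2.trans (mono' ?_)
    rw [Fin.le_def, (h1 _ hd).2]
    exact hk

theorem rk_le (g : F 2) : rk g ≤ 8 := by
  unfold rk
  split_ifs with h
  · omega
  · have := (dir g).2
    have : (dir g).val ≠ 8 := fun c => h (Fin.ext c)
    omega

theorem PreGood.lt_of_rk {o : F 2 → F 2 → F 2 → Prop} (h : PreGood o) (hc : Circ o) {g k : F 2}
    (hr : rk g < rk k) : letI := hc.lin 1
    g < k := by
  let _ := hc.lin 1
  have := rk_le k
  have h1 := (h.le_vx hc g ⟨rk g, by omega⟩).2 le_rfl
  have h2 : ¬ k ≤ vx ⟨rk g, by omega⟩ := fun c => absurd ((h.le_vx hc k _).1 c) (not_le.2 hr)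
  exact h1.trans_lt (not_le.1 h2)

theorem PreGood.triple {o : F 2 → F 2 → F 2 → Prop} (h : PreGood o) (hc : Circ o) {a b c : F 2}
    (h3 : cyc3 (dir a) (dir b) (dir c)) : o a b c := by
  let _ := hc.lin 1
  have key : (rk a < rk b ∧ rk b < rk c) ∨ (rk b < rk c ∧ rk c < rk a) ∨
      (rk c < rk a ∧ rk a < rk b) := by
    unfold rk
    generalize dir a = i at h3
    generalize dir b = j at h3
    generalize dir c = k at h3
    revert i j k
    decide
  refine (hc.o_iff 1 a b c).2 ?_
  rcases key with k | k | k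
  · exact Or.inl ⟨h.lt_of_rk hc k.1, h.lt_of_rk hc k.2⟩
  · exact Or.inr (Or.inl ⟨h.lt_of_rk hc k.1, h.lt_of_rk hc k.2⟩)
  · exact Or.inr (Or.inr ⟨h.lt_of_rk hc k.1, h.lt_of_rk hc k.2⟩)

theorem co_unique {o : F 2 → F 2 → F 2 → Prop} (h : PreGood o) (hc : Circ o) {a b c : F 2}
    (e : co a b c) : o a b c := by
  obtain ⟨m, h1, h2, h3⟩ := exists_median (co_circ.ne12 e) (co_circ.ne23 e) (co_circ.ne13 e).symm
  have key : ∀ i j k : Fin 9, i ≠ j → j ≠ k → k ≠ i → cyc3 i j k ∨ cyc3 k j i := by decide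
  rcases key _ _ _ h1 h2 h3 with k | k
  · have := h.inv m (h.triple hc k)
    simpa only [mul_inv_cancel_left] using this
  · exact absurd ((co_inv _ _ _ _).1 (co_pre.triple co_circ k)) (co_asymm e)

theorem co_phi {a b c : F 2} (e : co a b c) : co (phi a) (phi b) (phi c) :=
  co_unique co_phi_pre ⟨co_cyc, co_asymm, co_trans, fun h1 h2 h3 =>
    co_circ.total (phi.injective.ne h1) (phi.injective.ne h2) (phi.injective.ne h3)⟩ e

/-- the group with the linear order obtained by cutting the circle at `1`. -/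
def X : Type := F 2

noncomputable instance : LinearOrder X := co_circ.lin 1

/-- points of the circle: `P g i` is the `i`-th point in the gap of the polygon `g`.  With `n`
points per gap, `P g n` plays the role of the vertex `g`. -/
def W : Type := X ×ₗ ℕ

noncomputable instance : LinearOrder W := inferInstanceAs (LinearOrder (X ×ₗ ℕ))

/-- the point with index `i` in the gap of `g`. -/
def P (g : F 2) (i : ℕ) : W := toLex ((g : X), i)

/-- the gap of a point. -/
def W.g (w : W) : F 2 := (ofLex w).1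

/-- the index of a point. -/
def W.i (w : W) : ℕ := (ofLex w).2

@[simp] theorem P_g (g : F 2) (i : ℕ) : (P g i).g = g := rfl

@[simp] theorem P_i (g : F 2) (i : ℕ) : (P g i).i = i := rfl

theorem P_eta (w : W) : P w.g w.i = w := rfl

theorem P_inj {g h : F 2} {i j : ℕ} : P g i = P h j ↔ g = h ∧ i = j :=
  ⟨fun e => ⟨congrArg W.g e, congrArg W.i e⟩, fun e => by rw [e.1, e.2]⟩

instance : MulAction (F 2) W where
  smul m w := P (m * w.g) w.i
  one_smul w := by
    change P (1 * w.g) w.i = w
    rw [one_mul, P_eta]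
  mul_smul a b w := by
    change P (a * b * w.g) w.i = P (a * (b * w.g)) w.i
    rw [mul_assoc]

@[simp] theorem smul_P (m g : F 2) (i : ℕ) : m • P g i = P (m * g) i := rfl

/-- the linear order on the group. -/
def lt1 (g h : F 2) : Prop := @LT.lt X _ g h

theorem P_lt {g h : F 2} {i j : ℕ} : P g i < P h j ↔ lt1 g h ∨ (g = h ∧ i < j) :=
  Prod.Lex.toLex_lt_toLex

theorem lt1_one {g : F 2} (h : g ≠ 1) : lt1 1 g := Or.inl ⟨rfl, h⟩

theorem lt_vertex {g : F 2} {i n : ℕ} (hi : i < n) (k : Fin 9) :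
    P g i < P (vx k) n ↔ rk g ≤ k := by
  rw [P_lt, ← co_pre.le_vx co_circ g k]
  constructor
  · rintro (h | h)
    · exact @le_of_lt X _ _ _ h
    · exact @le_of_eq X _ _ _ h.1
  · intro h
    rcases @lt_or_eq_of_le X _ _ _ h with e | e
    · exact Or.inl e
    · exact Or.inr ⟨e, hi⟩

theorem vertex_lt {g : F 2} {i n : ℕ} (hi : i < n) (k : Fin 9) :
    P (vx k) n < P g i ↔ k.val < rk g := by
  rw [← not_le (a := rk g), ← lt_vertex hi k, not_lt, le_iff_lt_or_eq]
  exact ⟨Or.inl, fun h => h.resolve_right fun e => absurd (P_inj.1 e).2 hi.ne'⟩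

theorem lt_of_rk {g h : F 2} (e : rk g < rk h) (i j : ℕ) : P g i < P h j :=
  P_lt.2 (Or.inl (co_pre.lt_of_rk co_circ e))

/-- positive cyclic order in a linear order. -/
def ow {α : Type*} [LinearOrder α] (p q r : α) : Prop :=
  (p < q ∧ q < r) ∨ (q < r ∧ r < p) ∨ (r < p ∧ p < q)

theorem cross_iff_ow {α : Type*} [LinearOrder α] {x y u v : α} :
    Cross x y u v ↔ (ow x u y ∧ ow y v x) ∨ (ow x v y ∧ ow y u x) := by
  unfold Cross Meander7.Btw ow
  constructor
  · grind (splits := 40)
  · grind (splits := 40)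

theorem ow_P {g h k : F 2} {i j l : ℕ} : ow (P g i) (P h j) (P k l) ↔
    co g h k ∨ (g = h ∧ h ≠ k ∧ i < j) ∨ (h = k ∧ k ≠ g ∧ j < l) ∨ (k = g ∧ g ≠ h ∧ l < i) ∨
      (g = h ∧ h = k ∧ ow i j l) := by
  have e : co g h k ↔ @ow X _ g h k := co_circ.o_iff 1 g h k
  rw [e]
  unfold ow
  simp only [P_lt, lt1]
  revert g h k
  change ∀ {g h k : X}, _
  intro g h k _
  constructor
  · grind (splits := 40)
  · grind (splits := 40)

theorem cross_map {f : F 2 → F 2} (hf : Function.Injective f)
    (hco : ∀ {a b c}, co a b c → co (f a) (f b) (f c)) {a b c d : F 2} {i j k l : ℕ}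
    (h : Cross (P a i) (P b j) (P c k) (P d l)) :
    Cross (P (f a) i) (P (f b) j) (P (f c) k) (P (f d) l) := by
  have key : ∀ {a b c : F 2} {i j k : ℕ}, ow (P a i) (P b j) (P c k) →
      ow (P (f a) i) (P (f b) j) (P (f c) k) := fun {a b c i j k} e => by
    rw [ow_P] at e ⊢
    simp only [ne_eq, hf.eq_iff]
    exact e.imp_left hco
  rw [cross_iff_ow] at h ⊢
  exact h.imp (fun e => ⟨key e.1, key e.2⟩) fun e => ⟨key e.1, key e.2⟩

theorem pres : Pres (F 2) W := fun m _ _ _ _ h =>
  cross_map (f := fun g => m * g) (mul_right_injective m) (fun e => (co_inv m _ _ _).2 e) h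

theorem cross_smul (m : F 2) {x y u v : W} :
    Cross (m • x) (m • y) (m • u) (m • v) ↔ Cross x y u v :=
  ⟨fun h => by simpa using pres m⁻¹ _ _ _ _ h, pres m _ _ _ _⟩

theorem cross_phi {a b c d : F 2} {i j k l : ℕ} (h : Cross (P a i) (P b j) (P c k) (P d l)) :
    Cross (P (phi a) i) (P (phi b) j) (P (phi c) k) (P (phi d) l) :=
  cross_map phi.injective co_phi h

theorem cross_phi_iff {a b c d : F 2} {i j k l : ℕ} :
    Cross (P (phi a) i) (P (phi b) j) (P (phi c) k) (P (phi d) l) ↔
      Cross (P a i) (P b j) (P c k) (P d l) := by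
  refine ⟨fun h => ?_, cross_phi⟩
  have := cross_map (f := phi.symm) phi.symm.injective (fun {a b c} e => by
    rcases co_circ.total (phi.symm.injective.ne (co_circ.ne12 e))
      (phi.symm.injective.ne (co_circ.ne23 e)) (phi.symm.injective.ne (co_circ.ne13 e).symm)
      with h | h
    · exact h
    · have := co_phi h
      simp only [MulEquiv.apply_symm_apply] at this
      exact absurd this (co_asymm e)) h
  simpa using this

/-- a chord between gaps crosses side `k` of the polygon `h` (the gap if `k = 8`) iff exactly one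
end lies behind it. -/
theorem cross_side {g g' : F 2} {i j n : ℕ} (hi : i < n) (hj : j < n) (h : F 2) (k : Fin 9) :
    Cross (P (h * vx k) n) (P (h * vx (k + 1)) n) (P g i) (P g' j) ↔
      ¬ (dir (h⁻¹ * g) = k ↔ dir (h⁻¹ * g') = k) := by
  rw [← cross_smul h⁻¹]
  simp only [smul_P, inv_mul_cancel_left]
  generalize h⁻¹ * g = a
  generalize h⁻¹ * g' = b
  unfold Cross Meander7.Btw
  simp only [ne_eq, P_inj, hi.ne, hj.ne, and_false, not_false_eq_true, true_and, lt_vertex hi,
    lt_vertex hj, vertex_lt hi, vertex_lt hj]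
  unfold rk
  generalize dir a = d
  generalize dir b = e
  revert d e k
  decide

theorem btw_gap {h g : F 2} {a b c : ℕ} :
    Meander7.Btw (P h a) (P h b) (P g c) ↔ g = h ∧ Meander7.Btw a b c := by
  unfold Meander7.Btw
  simp only [P_lt, lt1]
  revert g h
  change ∀ {g h : X}, _
  intro g h
  grind (splits := 40)

theorem btw_congr {p q : W} {h : F 2} (hp : p.g ≠ h) (hq : q.g ≠ h) (a b : ℕ) :
    Meander7.Btw p q (P h a) ↔ Meander7.Btw p q (P h b) := by
  rw [← P_eta p, ← P_eta q]
  generalize p.g = g at hp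
  generalize q.g = k at hq
  unfold Meander7.Btw
  simp only [P_lt, lt1]
  revert g h k
  change ∀ {h : X} (g : X) (_ : g ≠ h) (k : X) (_ : k ≠ h), _
  intro h g hp k hq
  grind (splits := 40)

theorem dir_tg {k : Fin 9} (h : k ≠ 8) : dir (tg k) = k := by
  have := (dir_mul h (g := 1) (by rw [dir_one]; exact (pr_ne_eight h).symm)).1
  rwa [mul_one] at this

theorem dir_mul_right {k : Fin 9} (hk : k ≠ 8) {x : F 2} (h1 : x ≠ 1) (h2 : x * tg k ≠ 1) :
    dir (x * tg k) = dir x := by
  induction x using len_induction with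
  | h1 => exact absurd rfl h1
  | hs d g hd hg ih =>
    rw [(dir_mul hd hg).1, mul_assoc]
    refine (dir_mul hd ?_).1
    by_cases e1 : g = 1
    · rw [e1, one_mul, dir_tg hk]
      rintro rfl
      exact h2 (by rw [e1, mul_one, tg_pr hd, mul_inv_cancel])
    by_cases e2 : g * tg k = 1
    · rw [e2, dir_one]
      exact (pr_ne_eight hd).symm
    · rw [ih e1 e2]
      exact hg

/-- the four generators are sides of the base polygon. -/
theorem of_eq_side (s : Fin 2 × Bool) :
    ∃ l : Fin 9, l ≠ 8 ∧ FreeGroup.of s = (vx l)⁻¹ * vx (l + 1) := by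
  revert s
  decide +kernel

theorem not_cross_self {α : Type*} [LinearOrder α] (x u v : α) : ¬ Cross x x u v := by
  unfold Cross Meander7.Btw
  grind

theorem smul_W_inj {g k : F 2} {x : W} (h : g • x = k • x) : g = k :=
  mul_right_cancel (congrArg W.g h : g * x.g = k * x.g)

theorem fin_gap (a c : F 2) : {g : F 2 | g * a = c}.Finite :=
  (Set.finite_singleton (c * a⁻¹)).subset fun _ hg => eq_mul_inv_of_mul_eq hg

theorem fin_eq (y u : W) : {g : F 2 | u = g • y}.Finite :=
  (fin_gap y.g u.g).subset fun _ hg => (congrArg W.g hg).symm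

/-- finitely many translates of the first chord cross the second. -/
def LF (x y u v : W) : Prop := {g : F 2 | Cross (g • x) (g • y) u v}.Finite

theorem LF.trans1 {x y z u v : W} (h1 : LF x y u v) (h2 : LF y z u v) : LF x z u v := by
  refine (((h1.union h2).union (fin_eq y u)).union (fin_eq y v)).subset fun g hg => ?_
  by_cases e1 : u = g • y
  · exact Or.inl (Or.inr e1)
  by_cases e2 : v = g • y
  · exact Or.inr e2
  exact Or.inl (Or.inl (cross_trans hg e1 e2))

theorem LF.trans2 {x y u v w : W} (h1 : LF x y u v) (h2 : LF x y v w) : LF x y u w := by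
  refine (((h1.union h2).union (fin_eq x v)).union (fin_eq y v)).subset fun g hg => ?_
  by_cases e1 : v = g • x
  · exact Or.inl (Or.inr e1)
  by_cases e2 : v = g • y
  · exact Or.inr e2
  exact Or.inl (Or.inl ((cross_trans (Cross.symm hg) (Ne.symm e1) (Ne.symm e2)).imp
    Cross.symm Cross.symm))

theorem cross_gap {h : F 2} {a b : ℕ} {u v : W} (e : Cross (P h a) (P h b) u v) :
    u.g = h ∨ v.g = h := by
  by_contra c
  rw [not_or] at c
  refine e.2.2.2.2 (iff_of_false (fun q => c.1 ?_) fun q => c.2 ?_)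
  · exact (btw_gap.1 (P_eta u ▸ q)).1
  · exact (btw_gap.1 (P_eta v ▸ q)).1

theorem lf_gap1 (a : F 2) (i j : ℕ) (u v : W) : LF (P a i) (P a j) u v :=
  ((fin_gap a u.g).union (fin_gap a v.g)).subset fun _ hg =>
    (cross_gap hg).imp Eq.symm Eq.symm

theorem lf_gap2 (x y : W) (c : F 2) (i j : ℕ) : LF x y (P c i) (P c j) :=
  ((fin_gap x.g c).union (fin_gap y.g c)).subset fun _ hg => cross_gap (Cross.symm hg)

theorem lf_base (a : F 2) {k : Fin 9} (hk : k ≠ 8) (w : F 2) :
    ∀ c, LF (P a 0) (P (a * tg k) 0) (P c 1) (P (c * w) 1) := by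
  induction w using FreeGroup.induction_on with
  | C1 =>
    intro c
    rw [mul_one]
    exact lf_gap2 ..
  | of s =>
    intro c
    obtain ⟨l, -, e⟩ := of_eq_side s
    refine ((fin_gap a (c * (vx l)⁻¹)).union (fin_gap (a * tg k) (c * (vx l)⁻¹))).subset
      fun g hg => ?_
    have h1 := (cross_side (g := g * a) (g' := g * (a * tg k)) one_pos one_pos
      (c * (vx l)⁻¹) l).1 (by
        rw [inv_mul_cancel_right, mul_assoc c, ← e]
        exact Cross.symm hg)
    by_contra hn
    simp only [Set.mem_union, Set.mem_ofPred_eq, not_or] at hn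
    have := dir_mul_right hk (x := (c * (vx l)⁻¹)⁻¹ * (g * a))
      (fun q => hn.1 (inv_mul_eq_one.1 q).symm)
      (fun q => hn.2 (by rw [mul_assoc, mul_assoc] at q; exact (inv_mul_eq_one.1 q).symm))
    rw [mul_assoc, mul_assoc] at this
    exact h1 (by rw [this])
  | inv_of s ih =>
    intro c
    have := ih (c * (FreeGroup.of s)⁻¹)
    rw [inv_mul_cancel_right] at this
    exact this.subset fun g hg => Cross.swap hg
  | mul x y ihx ihy =>
    intro c
    rw [← mul_assoc]
    exact (ihx c).trans2 (ihy _)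

theorem locFin (x y u v : W) : {g : F 2 | Cross (g • x) (g • y) u v}.Finite := by
  have h1 : ∀ w a : F 2, LF (P a 0) (P (a * w) 0) u v := by
    intro w
    induction w using len_induction with
    | h1 =>
      intro a
      rw [mul_one]
      exact lf_gap1 ..
    | hs k g hk _ ih =>
      intro a
      rw [← mul_assoc]
      refine LF.trans1 ?_ (ih _)
      have := lf_base a hk (u.g⁻¹ * v.g) u.g
      rw [mul_inv_cancel_left] at this
      exact ((lf_gap2 _ _ u.g u.i 1).trans2 this).trans2 (lf_gap2 _ _ v.g 1 v.i)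
  have := h1 (x.g⁻¹ * y.g) x.g
  rw [mul_inv_cancel_left] at this
  exact ((lf_gap1 x.g x.i 0 u v).trans1 this).trans1 (lf_gap1 y.g 0 y.i u v)

end Pool.Agent.MP_7ebdba_gt.ch
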