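import Mathlib.GroupTheory.CoprodI
import Pool.Agent.MP_7ebdba_gt.ch.Ord

/-! Statements of the topological half, and the crossing count of gap chords with vertex chords. -/

namespace Pool.Agent.MP_7ebdba_gt.ch

open Meander7

/-- A group acting on the edges `E` and vertices `V` of a tree; `s e v` is the side of `v`. -/
structure Walls (G : Type) [Group G] where
  E : Type
  V : Type
  aE : G →* Equiv.Perm E
  aV : G →* Equiv.Perm V
  s : E → V → Bool
  eqv : ∀ g e v, s (aE g e) (aV g v) = s e v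
  fin : ∀ v w, {e | s e v ≠ s e w}.Finite
  nest : ∀ e e', e ≠ e' → ∃ b b', ∀ v, ¬ (s e v = b ∧ s e' v = b')
  dist : ∀ e e', e ≠ e' → (∃ v, s e v ≠ s e' v) ∧ ∃ v, s e v = s e' v

/-- restriction of the action along a homomorphism. -/
def Walls.comap {G H : Type} [Group G] [Group H] (w : Walls G) (f : H →* G) : Walls H :=
  { w with aE := w.aE.comp f, aV := w.aV.comp f, eqv := fun g => w.eqv (f g) }

/-- the path `v, z v, z z v` does not backtrack. -/
def Walls.NoBack {G : Type} [Group G] (w : Walls G) (z : G) (v : w.V) : Prop :=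
  ∀ x, ¬ (w.s x (w.aV z v) ≠ w.s x v ∧ w.s x (w.aV (z * z) v) ≠ w.s x (w.aV z v))

/-- `e 0, ..., e (n-1)` are the walls met on the way from `z v` to `v`, in this order. -/
structure Based {G : Type} [Group G] (w : Walls G) (z : G) (v : w.V) (n : ℕ) (e : Fin n → w.E) :
    Prop where
  inj : Function.Injective e
  rng : ∀ x, (∃ i, e i = x) ↔ w.s x (w.aV z v) ≠ w.s x v
  mono : ∀ i j, i < j → ∀ y, w.s (e i) y = w.s (e i) (w.aV z v) →
    w.s (e j) y = w.s (e j) (w.aV z v)
  nob : ∀ i j, e i ≠ w.aE z (e j)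

/-- no translate of the second chord crosses the first. -/
def NC2 (u : F 2) (i j : ℕ) (u' : F 2) (i' j' : ℕ) : Prop :=
  ∀ h : F 2, ¬ Cross (P 1 i) (P u j) (P h i') (P (h * u') j')

/-- an essential simple arc. -/
structure Chord (u : F 2) (i j : ℕ) : Prop where
  ne : i ≠ j
  n1 : u ≠ 1
  nz : u ≠ zeta
  nz' : u ≠ zeta⁻¹
  nc : NC2 u i j u i j

/-- an equivariant non-crossing matching that preserves the labels. -/
structure Match (w : Walls (F 2)) (n : ℕ) (e : Fin n → w.E) (a : Fin n → F 2)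
    (σ : Fin n → Fin n) : Prop where
  inv : ∀ i, σ (σ i) = i
  inv' : ∀ i, a i * a (σ i) = 1
  lab : ∀ i, w.aE (a i) (e (σ i)) = e i
  ne : ∀ i, a i ≠ 1
  nc : ∀ i j, NC2 (a i) i (σ i) (a j) j (σ j)

/-- does the chord between the gaps `a`, `b` cross the chord between the vertices `h`, `h'`. -/
noncomputable def X0 (a b h h' : F 2) : ZMod 2 := Meander7.ind (Cross (P a 0) (P b 0) (P h 1) (P h' 1))

/-- the same, summed over the translates of the gap chord by a subgroup. -/
noncomputable def kap (U : Subgroup (F 2)) (a b h h' : F 2) : ZMod 2 :=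
  ∑ᶠ m : U, X0 (m * a) (m * b) h h'

/-- the preimage of the cyclic group generated by the image of `u`. -/
def Ug (u : F 2) : Subgroup (F 2) := (Subgroup.zpowers (mk 2 u)).comap (mk 2)

def TreeStmt : Prop :=
  ∀ (M : Bool → Type) [∀ i, Group (M i)] [∀ i, Nontrivial (M i)],
    ∃ w : Walls (Monoid.CoprodI M), (∀ g x, w.aE g x = x → g = 1) ∧
      (∀ v, ∃ g x, w.s x (w.aV g v) ≠ w.s x v) ∧ ∀ z, ∃ v, w.NoBack z v

def PinchStmt : Prop :=
  ∀ (T' : Tri 3) (j : Fin 3) (T : Tri 4), Iso (stab T' j) T →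
    ∃ (M : Bool → Type) (_ : ∀ i, Group (M i)) (_ : ∀ i, Nontrivial (M i))
      (η : S 4 →* Monoid.CoprodI M), Function.Surjective η ∧ ∀ i, η.ker ≤ T i

def EnumStmt : Prop :=
  ∀ (G : Type) [Group G] (w : Walls G) (z : G) (v : w.V), w.NoBack z v → ∃ n e, Based w z v n e

def TrackStmt : Prop :=
  ∀ (w : Walls (F 2)) (v : w.V) (n : ℕ) (e : Fin n → w.E), Based w zeta v n e →
    (∀ g x, w.aE g x = x → g = 1) →
    (n = 0 → ∀ g x, w.s x (w.aV g v) = w.s x v) ∧ ∃ a σ, Match w n e a σ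

def SigmaStmt : Prop :=
  ∀ (u : F 2) (i j : ℕ), Chord u i j → ∃ s : S 2 → ZMod 2,
    (∀ h, s (mk 2 h) = kap (Ug u) 1 u 1 h) ∧ AI (mk 2 u) s ∧
    ∀ u' i' j', NC2 u i j u' i' j' → ∀ h, h ∉ Subgroup.zpowers (mk 2 u) →
      h * mk 2 u' ∉ Subgroup.zpowers (mk 2 u) → s (h * mk 2 u') = s h

def PdStmt : Prop :=
  ∀ (u : F 2) (s : S 2 → ZMod 2), (∀ h, s (mk 2 h) = kap (Ug u) 1 u 1 h) →
    ∀ s1, AI0 (mk 2 u) s1 → ∃ c e : ZMod 2, FinMod (mk 2 u) {x | s1 x ≠ c + e * s x}

def NtStmt : Prop := ∀ (u : F 2) (i j : ℕ), Chord u i j → mk 2 u ≠ 1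

/-- an alternating product of nontrivial elements is nontrivial. -/
def AltStmt : Prop :=
  ∀ l : List (F2 × F2), l ≠ [] → (∀ p ∈ l, p.1 ≠ 1 ∧ p.2 ≠ 1) →
    (l.map fun p => (Monoid.Coprod.inl p.1 * Monoid.Coprod.inr p.2 : Monoid.Coprod F2 F2)).prod ≠ 1

def AsmStmt : Prop :=
  TreeStmt → PinchStmt → EnumStmt → TrackStmt → SigmaStmt → PdStmt → NtStmt → AltStmt → ChainStmt

/-! ### The crossing count -/

theorem cross_norm {a b h h' : F 2} {i j n : ℕ} (hi : i < n) (hj : j < n) :
    Cross (P a i) (P b j) (P h n) (P h' n) ↔ Cross (P a 0) (P b 0) (P h 1) (P h' 1) := by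
  unfold Cross Meander7.Btw
  simp only [P_lt, lt1, ne_eq, P_inj, hi, hj, hi.ne', hj.ne', not_lt.2 hi.le, not_lt.2 hj.le,
    and_true, and_false, or_false, not_false_eq_true, true_and, zero_lt_one, not_lt_zero,
    one_ne_zero]

theorem ind_xor (p q : Prop) : Meander7.ind (¬ (p ↔ q)) = Meander7.ind p + Meander7.ind q := by
  by_cases hp : p <;> by_cases hq : q
  · rw [ind_pos hp, ind_pos hq, ind_neg (by tauto)]
    decide
  · rw [ind_pos hp, ind_neg hq, ind_pos (by tauto), add_zero]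
  · rw [ind_neg hp, ind_pos hq, ind_pos (by tauto), zero_add]
  · rw [ind_neg hp, ind_neg hq, ind_neg (by tauto), add_zero]

theorem ind_cross {α : Type*} [LinearOrder α] {x y u v : α} (h1 : u ≠ x) (h2 : u ≠ y) (h3 : v ≠ x)
    (h4 : v ≠ y) : Meander7.ind (Cross x y u v) = Meander7.ind (Meander7.Btw x y u) + Meander7.ind (Meander7.Btw x y v) := by
  rw [← ind_xor]
  exact ind_congr ⟨fun h => h.2.2.2.2, fun h => ⟨h1, h2, h3, h4, h⟩⟩

theorem ind_cross_add {α : Type*} [LinearOrder α] {x y u v w : α} (h1 : u ≠ x) (h2 : u ≠ y)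
    (h3 : v ≠ x) (h4 : v ≠ y) (h5 : w ≠ x) (h6 : w ≠ y) :
    Meander7.ind (Cross x y u w) = Meander7.ind (Cross x y u v) + Meander7.ind (Cross x y v w) := by
  rw [ind_cross h1 h2 h5 h6, ind_cross h1 h2 h3 h4, ind_cross h3 h4 h5 h6, add_assoc,
    ← add_assoc (Meander7.ind (Meander7.Btw x y v)), CharTwo.add_self_eq_zero, zero_add]

theorem P01 (a b : F 2) : P a 1 ≠ P b 0 := fun e => one_ne_zero (P_inj.1 e).2

theorem X0_symm (a b h h' : F 2) :
    X0 a b h h' = Meander7.ind (Cross (P h 1) (P h' 1) (P a 0) (P b 0)) :=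
  ind_congr ⟨Cross.symm, Cross.symm⟩

theorem X0_add_right (a b h h' h'' : F 2) : X0 a b h h'' = X0 a b h h' + X0 a b h' h'' :=
  ind_cross_add (P01 _ _) (P01 _ _) (P01 _ _) (P01 _ _) (P01 _ _) (P01 _ _)

theorem X0_add_left (a b c h h' : F 2) : X0 a c h h' = X0 a b h h' + X0 b c h h' := by
  simp only [X0_symm]
  exact ind_cross_add (P01 _ _).symm (P01 _ _).symm (P01 _ _).symm (P01 _ _).symm (P01 _ _).symm
    (P01 _ _).symm

theorem X0_self_left (a h h' : F 2) : X0 a a h h' = 0 := ind_neg (not_cross_self _ _ _)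

theorem X0_self_right (a b h : F 2) : X0 a b h h = 0 := by
  rw [X0_symm]
  exact ind_neg (not_cross_self _ _ _)

theorem X0_comm_left (a b h h' : F 2) : X0 a b h h' = X0 b a h h' :=
  ind_congr ⟨Cross.flip, Cross.flip⟩

theorem X0_comm_right (a b h h' : F 2) : X0 a b h h' = X0 a b h' h :=
  ind_congr ⟨Cross.swap, Cross.swap⟩

theorem X0_mul (m a b h h' : F 2) : X0 (m * a) (m * b) (m * h) (m * h') = X0 a b h h' :=
  ind_congr (cross_smul m (x := P a 0) (y := P b 0) (u := P h 1) (v := P h' 1))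

theorem X0_side (a b h : F 2) (k : Fin 9) :
    X0 a b (h * vx k) (h * vx (k + 1)) = Meander7.ind (dir (h⁻¹ * a) = k) + Meander7.ind (dir (h⁻¹ * b) = k) := by
  rw [X0_symm, ← ind_xor]
  exact ind_congr (cross_side one_pos one_pos h k)

/-- the vertices `h * zeta` and `h` are separated by the gap of `h` only. -/
theorem X0_zeta_right (a b h : F 2) : X0 a b h (h * zeta) = Meander7.ind (a = h) + Meander7.ind (b = h) := by
  have := X0_side a b h 8
  rw [vx_eight, show (8 : Fin 9) + 1 = 0 from rfl, vx_zero, mul_one] at this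
  rw [X0_comm_right, this]
  simp only [dir_eq_eight, inv_mul_eq_one, eq_comm (a := h)]

/-- the gaps `a * zeta` and `a` are separated by the vertex `a * zeta` only. -/
theorem X0_zeta_left (a h h' : F 2) :
    X0 a (a * zeta) h h' = Meander7.ind (h = a * zeta) + Meander7.ind (h' = a * zeta) := by
  have key : ∀ x : F 2, Meander7.Btw (P 1 0) (P zeta 0) (P x 1) ↔ ¬ x = zeta := by
    intro x
    have h1 : @LE.le X _ x zeta := vx_eight ▸ (co_pre.le_vx co_circ x 8).2 (rk_le x)
    have h2 : x = 1 ∨ lt1 1 x := (eq_or_ne x 1).imp_right lt1_one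
    have h3 : lt1 1 zeta := lt1_one (by decide +kernel)
    unfold Meander7.Btw
    simp only [P_lt, lt1] at h2 h3 ⊢
    generalize zeta = z at *
    generalize (1 : F 2) = o at *
    revert x z o
    change ∀ (x z : X) (_ : x ≤ z) (o : X), _
    intro x z h1 o h2 h3
    grind
  rw [← X0_mul a⁻¹, inv_mul_cancel, inv_mul_cancel_left, X0,
    ind_cross (P01 _ _) (P01 _ _) (P01 _ _) (P01 _ _), ind_congr (key _), ind_congr (key _),
    ← ind_xor, ← ind_xor]
  simp only [inv_mul_eq_iff_eq_mul]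
  exact ind_congr (by tauto)

theorem X0_fin (a b h h' : F 2) : {m : F 2 | X0 (m * a) (m * b) h h' ≠ 0}.Finite :=
  (locFin (P a 0) (P b 0) (P h 1) (P h' 1)).subset fun _ hm => by
    by_contra c
    exact hm (ind_neg c)

theorem kap_fin (U : Subgroup (F 2)) (a b h h' : F 2) :
    Function.HasFiniteSupport fun m : U => X0 (m * a) (m * b) h h' :=
  (X0_fin a b h h').preimage Subtype.val_injective.injOn

theorem kap_add_right (U : Subgroup (F 2)) (a b h h' h'' : F 2) :
    kap U a b h h'' = kap U a b h h' + kap U a b h' h'' := by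
  unfold kap
  rw [← finsum_add_distrib (kap_fin U a b h h') (kap_fin U a b h' h'')]
  exact finsum_congr fun m => X0_add_right ..

theorem kap_add_left (U : Subgroup (F 2)) (a b c h h' : F 2) :
    kap U a c h h' = kap U a b h h' + kap U b c h h' := by
  unfold kap
  rw [← finsum_add_distrib (kap_fin U a b h h') (kap_fin U b c h h')]
  exact finsum_congr fun m => X0_add_left ..

theorem kap_self_left (U : Subgroup (F 2)) (a h h' : F 2) : kap U a a h h' = 0 := by
  simp [kap, X0_self_left]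

theorem kap_self_right (U : Subgroup (F 2)) (a b h : F 2) : kap U a b h h = 0 := by
  simp [kap, X0_self_right]

theorem kap_comm_left (U : Subgroup (F 2)) (a b h h' : F 2) : kap U a b h h' = kap U b a h h' :=
  finsum_congr fun _ => X0_comm_left ..

theorem kap_comm_right (U : Subgroup (F 2)) (a b h h' : F 2) : kap U a b h h' = kap U a b h' h :=
  finsum_congr fun _ => X0_comm_right ..

theorem kap_mul_left (U : Subgroup (F 2)) {m : F 2} (hm : m ∈ U) (a b h h' : F 2) :
    kap U (m * a) (m * b) h h' = kap U a b h h' := by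
  unfold kap
  rw [← finsum_comp_equiv (Equiv.mulRight (⟨m, hm⟩ : U))
    (f := fun k : U => X0 (k * a) (k * b) h h')]
  exact finsum_congr fun k => by simp [mul_assoc]

theorem kap_mul_right (U : Subgroup (F 2)) {m : F 2} (hm : m ∈ U) (a b h h' : F 2) :
    kap U a b (m * h) (m * h') = kap U a b h h' := by
  unfold kap
  rw [← finsum_comp_equiv (Equiv.mulLeft (⟨m, hm⟩ : U))]
  exact finsum_congr fun k => by
    rw [← X0_mul m (k * a) (k * b) h h']
    simp [mul_assoc]

theorem finsum_ind (U : Subgroup (F 2)) (c : F 2) :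
    ∑ᶠ m : U, Meander7.ind ((m : F 2) = c) = Meander7.ind (c ∈ U) := by
  by_cases h : c ∈ U
  · rw [finsum_eq_single _ (⟨c, h⟩ : U) fun m hm => ind_neg fun e => hm (Subtype.ext e),
      ind_pos rfl, ind_pos h]
  · rw [ind_neg h]
    exact finsum_eq_zero_of_forall_eq_zero fun m => ind_neg fun e => h (e ▸ m.2)

theorem ind_fin (U : Subgroup (F 2)) (c : F 2) :
    Function.HasFiniteSupport fun m : U => Meander7.ind ((m : F 2) = c) :=
  ((Set.finite_singleton c).preimage Subtype.val_injective.injOn).subset fun m hm => by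
    by_contra e
    exact hm (ind_neg e)

theorem kap_zeta_right (U : Subgroup (F 2)) (a b h : F 2) :
    kap U a b h (h * zeta) = Meander7.ind (h * a⁻¹ ∈ U) + Meander7.ind (h * b⁻¹ ∈ U) := by
  unfold kap
  simp only [X0_zeta_right, ← eq_mul_inv_iff_mul_eq]
  rw [finsum_add_distrib (ind_fin U _) (ind_fin U _), finsum_ind, finsum_ind]

theorem kap_zeta_left (U : Subgroup (F 2)) (a h h' : F 2) :
    kap U a (a * zeta) h h' = Meander7.ind (h * (a * zeta)⁻¹ ∈ U) + Meander7.ind (h' * (a * zeta)⁻¹ ∈ U) := by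
  unfold kap
  have e : ∀ (m x : F 2), x = m * a * zeta ↔ m = x * (a * zeta)⁻¹ := fun m x => by
    rw [eq_mul_inv_iff_mul_eq, mul_assoc, eq_comm]
  simp only [← mul_assoc, X0_zeta_left, e]
  rw [finsum_add_distrib (ind_fin U _) (ind_fin U _), finsum_ind, finsum_ind]

end Pool.Agent.MP_7ebdba_gt.ch
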