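import Mathlib.GroupTheory.FreeGroup.CyclicallyReduced
import Pool.Agent.MP_7ebdba_gt.ch.Spec

/-! Assembly of the topological half from its parts. -/

namespace Pool.Agent.MP_7ebdba_gt.ch

open Meander7

namespace Asm

theorem nc2_symm {u u' : F 2} {i j i' j' : ℕ} (h : NC2 u i j u' i' j') : NC2 u' i' j' u i j := by
  intro g e
  have := (cross_smul g⁻¹).2 e.symm
  simp only [smul_P, inv_mul_cancel, inv_mul_cancel_left, mul_one] at this
  exact h g⁻¹ this

theorem nc2_phi {u u' : F 2} {i j i' j' : ℕ} (h : NC2 u i j u' i' j') :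
    NC2 (phi u) i j (phi u') i' j' := by
  intro g e
  refine h (phi.symm g) (cross_phi_iff.1 ?_)
  simpa only [map_one, map_mul, MulEquiv.apply_symm_apply] using e

theorem chord_phi {u : F 2} {i j : ℕ} (h : Chord u i j) : Chord (phi u) i j where
  ne := h.ne
  n1 := fun e => h.n1 (phi.injective (e.trans (map_one phi).symm))
  nz := fun e => h.nz (phi.injective (e.trans phi_zeta.symm))
  nz' := fun e => h.nz' (phi.injective (by rw [e, map_inv, phi_zeta]))
  nc := nc2_phi h.nc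

theorem adj (hS : SigmaStmt) (hP : PdStmt) {u u' : F 2} {i j i' j' : ℕ} (h : Chord u i j)
    (h' : NC2 u i j u' i' j') : Adj (mk 2 u) (mk 2 u') := by
  obtain ⟨s, h1, h2, h3⟩ := hS u i j h
  refine ⟨s, ⟨h2, hP u s h1⟩, fun x hx => h3 u i j h.nc x hx fun e => hx ?_, h3 u' i' j' h'⟩
  exact (Subgroup.mul_mem_cancel_right _ (Subgroup.mem_zpowers _)).1 e

theorem adj2 (hS : SigmaStmt) (hP : PdStmt) {u u' : F 2} {i j i' j' : ℕ} (h : Chord u i j)
    (k : Chord u' i' j') (h' : NC2 u i j u' i' j') : Adj2 (mk 2 u) (mk 2 u') :=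
  ⟨adj hS hP h h', adj hS hP k (nc2_symm h')⟩

/-- the data of an equivariant non-crossing matching, without labels. -/
structure Mt (n : ℕ) (a : Fin n → F 2) (σ : Fin n → Fin n) : Prop where
  inv : ∀ i, σ (σ i) = i
  inv' : ∀ i, a i * a (σ i) = 1
  chd : ∀ i, Chord (a i) i (σ i)
  nc : ∀ i j, NC2 (a i) i (σ i) (a j) j (σ j)

theorem Mt.phi {n : ℕ} {a : Fin n → F 2} {σ : Fin n → Fin n} (h : Mt n a σ) :
    Mt n (fun i => phi (a i)) σ :=
  ⟨h.inv, fun i => by rw [← map_mul, h.inv', map_one], fun i => chord_phi (h.chd i),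
    fun i j => nc2_phi (h.nc i j)⟩

theorem mt_of_match {w : Walls (F 2)} {v : w.V} {n : ℕ} {e : Fin n → w.E}
    (hb : Based w zeta v n e) (fr : ∀ g x, w.aE g x = x → g = 1) {a : Fin n → F 2}
    {σ : Fin n → Fin n} (h : Match w n e a σ) : Mt n a σ := by
  refine ⟨h.inv, h.inv', fun i => ⟨fun c => ?_, h.ne i, fun c => ?_, fun c => ?_, h.nc i i⟩, h.nc⟩
  · have := h.lab i
    rw [← Fin.ext c] at this
    exact h.ne i (fr _ _ this)
  · exact hb.nob i (σ i) (by rw [← c, h.lab])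
  · refine hb.nob (σ i) i ?_
    rw [← h.lab i, c, ← Equiv.Perm.mul_apply, ← map_mul, mul_inv_cancel, map_one,
      Equiv.Perm.one_apply]

/-- the points with index below `n`. -/
def Pn (n : ℕ) : SubMulAction (F 2) W := ⟨{w | w.i < n}, fun _ _ hw => hw⟩

/-- a point with index below `n`. -/
def pp {n : ℕ} (g : F 2) (i : Fin n) : Pn n := ⟨P g i, i.2⟩

theorem pp_surj {n : ℕ} (w : Pn n) : ∃ g i, w = pp g i := ⟨w.1.g, ⟨w.1.i, w.2⟩, rfl⟩

theorem smul_pp {n : ℕ} (m g : F 2) (i : Fin n) : m • pp g i = pp (m * g) i := rfl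

/-- the matching as a map of points. -/
def mv {n : ℕ} (a : Fin n → F 2) (σ : Fin n → Fin n) (w : Pn n) : Pn n :=
  pp (w.1.g * a ⟨w.1.i, w.2⟩) (σ ⟨w.1.i, w.2⟩)

theorem mv_pp {n : ℕ} (a : Fin n → F 2) (σ : Fin n → Fin n) (g : F 2) (i : Fin n) :
    mv a σ (pp g i) = pp (g * a i) (σ i) := rfl

theorem cross_pp {n : ℕ} {a b c d : F 2} {i j k l : Fin n} :
    Cross (pp a i) (pp b j) (pp c k) (pp d l) ↔ Cross (P a i) (P b j) (P c k) (P d l) :=
  cross_coe

section
variable {n : ℕ} {a : Fin n → F 2} {σ : Fin n → Fin n}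

theorem Mt.mv_mv (h : Mt n a σ) (x : Pn n) : mv a σ (mv a σ x) = x := by
  obtain ⟨g, i, rfl⟩ := pp_surj x
  rw [mv_pp, mv_pp, mul_assoc, h.inv', h.inv, mul_one]

theorem Mt.mv_ne (h : Mt n a σ) (x : Pn n) : mv a σ x ≠ x := by
  obtain ⟨g, i, rfl⟩ := pp_surj x
  intro e
  exact (h.chd i).ne (congrArg (fun w : Pn n => w.1.i) e).symm

theorem mv_smul (a : Fin n → F 2) (σ : Fin n → Fin n) (m : F 2) (x : Pn n) :
    mv a σ (m • x) = m • mv a σ x := by
  obtain ⟨g, i, rfl⟩ := pp_surj x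
  rw [smul_pp, mv_pp, mv_pp, smul_pp, mul_assoc]

theorem Mt.mv_nc (h : Mt n a σ) (x u : Pn n) : ¬ Cross x (mv a σ x) u (mv a σ u) := by
  obtain ⟨g, i, rfl⟩ := pp_surj x
  obtain ⟨k, j, rfl⟩ := pp_surj u
  rw [mv_pp, mv_pp, cross_pp, ← cross_smul g⁻¹]
  simp only [smul_P, inv_mul_cancel, ← mul_assoc]
  simpa only [one_mul] using h.nc i j (g⁻¹ * k)

end

/-- the alternating product along the loop that starts at `i`. -/
def alt {H : Type} [Group H] {n : ℕ} (a b : Fin n → H) (σ τ : Fin n → Fin n) (i : Fin n)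
    (N : ℕ) : H :=
  ((List.range N).map fun k => a ((τ ∘ σ)^[k] i) * b (σ ((τ ∘ σ)^[k] i))).prod

theorem alt_succ {H : Type} [Group H] {n : ℕ} (a b : Fin n → H) (σ τ : Fin n → Fin n) (i : Fin n)
    (N : ℕ) : alt a b σ τ i (N + 1) =
      alt a b σ τ i N * (a ((τ ∘ σ)^[N] i) * b (σ ((τ ∘ σ)^[N] i))) := by
  simp [alt, List.range_succ]

theorem map_alt {H K : Type} [Group H] [Group K] (f : H →* K) {n : ℕ} (a b : Fin n → H)
    (σ τ : Fin n → Fin n) (i : Fin n) (N : ℕ) :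
    f (alt a b σ τ i N) = alt (fun k => f (a k)) (fun k => f (b k)) σ τ i N := by
  induction N with
  | zero => simp [alt]
  | succ N ih => rw [alt_succ, alt_succ, map_mul, map_mul, ih]

theorem iter_mv {n : ℕ} (a b : Fin n → F 2) (σ τ : Fin n → Fin n) (g : F 2) (i : Fin n) (N : ℕ) :
    (mv b τ ∘ mv a σ)^[N] (pp g i) = pp (g * alt a b σ τ i N) ((τ ∘ σ)^[N] i) := by
  induction N with
  | zero => simp [alt]
  | succ N ih =>
    rw [Function.iterate_succ_apply', ih, Function.iterate_succ_apply', alt_succ]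
    simp only [Function.comp, mv_pp, mul_assoc]

theorem mea {n : ℕ} {a b : Fin n → F 2} {σ τ : Fin n → Fin n} (ha : Mt n a σ) (hb : Mt n b τ)
    (i0 : Fin n) (per : ∀ i, ∃ N, 0 < N ∧ (τ ∘ σ)^[N] i = i ∧ alt a b σ τ i N = 1) :
    ∃ i j, NC2 (b j) j (τ j) (a i) i (σ i) := by
  obtain ⟨x, y, -, -, h⟩ := meander (P := F 2) (B := mv b τ) (T := mv a σ)
    (fun g m hm e => (pow_eq_one_iff_left hm.ne').1 e)
    (fun g x e => smul_W_inj (x := x.1) ((congrArg Subtype.val e).trans (one_smul _ _).symm))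
    (fun g x y u v e => cross_coe.2 (pres g _ _ _ _ (cross_coe.1 e)))
    (fun x y u v => (locFin x.1 y.1 u.1 v.1).subset fun g hg => cross_coe.1 hg)
    hb.mv_mv ha.mv_mv hb.mv_ne ha.mv_ne (mv_smul b τ) (mv_smul a σ) hb.mv_nc ha.mv_nc
    (fun x => by
      obtain ⟨g, i, rfl⟩ := pp_surj x
      obtain ⟨N, h0, h1, h2⟩ := per i
      exact ⟨N, h0, by rw [iter_mv, h1, h2, mul_one]⟩) (pp 1 i0)
  obtain ⟨g, j, rfl⟩ := pp_surj x
  obtain ⟨k, i, rfl⟩ := pp_surj y
  refine ⟨i, j, fun m e => h (k * m⁻¹ * g⁻¹) ?_⟩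
  rw [mv_pp, mv_pp, smul_pp, smul_pp, cross_pp]
  have := (cross_smul (k * m⁻¹)).2 e
  simpa only [smul_P, mul_assoc, inv_mul_cancel, inv_mul_cancel_left, mul_one] using this

theorem exists_period {n : ℕ} {σ τ : Fin n → Fin n} (hσ : ∀ i, σ (σ i) = i) (hτ : ∀ i, τ (τ i) = i)
    (i : Fin n) : ∃ N, 0 < N ∧ (τ ∘ σ)^[N] i = i := by
  have hi : Function.Injective (τ ∘ σ) :=
    (Function.Involutive.injective hτ).comp (Function.Involutive.injective hσ)
  exact Function.mem_periodicPts.1 (hi.mem_periodicPts i)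

theorem alt_lab {H E : Type} [Group H] (ρ : H →* Equiv.Perm E) {n : ℕ} {e : Fin n → E}
    {a b : Fin n → H} {σ τ : Fin n → Fin n} (ha : ∀ i, ρ (a i) (e (σ i)) = e i)
    (hb : ∀ i, ρ (b i) (e (τ i)) = e i) (i : Fin n) (N : ℕ) :
    ρ (alt a b σ τ i N) (e ((τ ∘ σ)^[N] i)) = e i := by
  induction N with
  | zero => simp [alt]
  | succ N ih =>
    rw [alt_succ, Function.iterate_succ_apply', map_mul, map_mul, Equiv.Perm.mul_apply,
      Equiv.Perm.mul_apply, Function.comp_apply, hb, ha, ih]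

theorem of_eq_iot (x : Fin 4 × Bool) : ∃ c y, FreeGroup.of x = iotF c (FreeGroup.of y) := by
  revert x
  decide +kernel

theorem top_of_iot (H : Subgroup (S 4)) (h : ∀ c g, iot c g ∈ H) (x : S 4) : x ∈ H := by
  obtain ⟨y, rfl⟩ := mk_surjective 4 x
  induction y using FreeGroup.induction_on with
  | C1 => rw [map_one]; exact H.one_mem
  | of s =>
    obtain ⟨c, y, e⟩ := of_eq_iot s
    rw [e]
    exact h c _
  | inv_of s ih => rw [map_inv]; exact H.inv_mem ih
  | mul x y ihx ihy => rw [map_mul]; exact H.mul_mem ihx ihy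

/-- the elements that keep all the sides of a vertex. -/
def fixS {G : Type} [Group G] (w : Walls G) (v : w.V) : Subgroup G where
  carrier := {g | ∀ x, w.s x (w.aV g v) = w.s x v}
  one_mem' := fun x => by rw [map_one, Equiv.Perm.one_apply]
  mul_mem' := fun {g k} hg hk x => by
    obtain ⟨y, rfl⟩ := (w.aE g).surjective x
    rw [map_mul, Equiv.Perm.mul_apply, w.eqv, hk, ← hg (w.aE g y), w.eqv]
  inv_mem' := fun {g} hg x => by
    rw [← w.eqv g x (w.aV g⁻¹ v), ← Equiv.Perm.mul_apply, ← map_mul, mul_inv_cancel, map_one,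
      Equiv.Perm.one_apply, ← hg (w.aE g x), w.eqv]

theorem fold_refl (c : Bool) (g : F 2) : fold (MulEquiv.refl _) rfl (iot c g) = g := by
  cases c
  · exact glue_false _ _ _ g
  · exact glue_true _ _ _ g

theorem iot_zeta' (c : Bool) : iot c zeta = iot false zeta := by
  cases c
  · rfl
  · exact iot_zeta

end Asm

open Asm in
theorem asm : AsmStmt := by
  intro hTree hPinch hEnum hTrack hS hP hN hAlt r T' j hiso
  obtain ⟨M, _, _, η, hη, hker⟩ := hPinch T' j _ hiso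
  obtain ⟨w, fr, mov, nb⟩ := hTree M
  obtain ⟨v, hv⟩ := nb (η (iot false zeta))
  obtain ⟨n, e, hB⟩ := hEnum _ w _ v hv
  have hk0 : ∀ s, η s = 1 → dbl r s = 1 := fun s hs => hker 0 hs
  have hk1 : ∀ s, η s = 1 → fold (MulEquiv.refl _) rfl s = 1 := fun s hs => hker 1 hs
  have hk2 : ∀ s, η s = 1 → fold phi phi_zeta s = 1 := fun s hs => hker 2 hs
  have frc : ∀ (c : Bool) g x, (w.comap (η.comp (iot c))).aE g x = x → g = 1 := fun c g x h =>
    (fold_refl c g).symm.trans (hk1 _ (fr _ x h))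
  have hBc : ∀ c : Bool, Based (w.comap (η.comp (iot c))) zeta v n e := fun c => by
    have e1 : (w.comap (η.comp (iot c))).aV zeta = w.aV (η (iot false zeta)) :=
      congrArg (fun s => w.aV (η s)) (iot_zeta' c)
    have e2 : (w.comap (η.comp (iot c))).aE zeta = w.aE (η (iot false zeta)) :=
      congrArg (fun s => w.aE (η s)) (iot_zeta' c)
    exact ⟨hB.inj, e1 ▸ hB.rng, e1 ▸ hB.mono, e2 ▸ hB.nob⟩
  have hT := fun c : Bool => hTrack _ v n e (hBc c) (frc c)
  have hn : 0 < n := Nat.pos_of_ne_zero fun h0 => by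
    obtain ⟨g, x, hx⟩ := mov v
    obtain ⟨s, rfl⟩ := hη g
    exact hx (top_of_iot ((fixS w v).comap η) (fun c g => (hT c).1 h0 g) s x)
  obtain ⟨a, σ, ha⟩ := (hT false).2
  obtain ⟨b, τ, hb⟩ := (hT true).2
  have ma := mt_of_match (hBc false) (frc false) ha
  have mb := mt_of_match (hBc true) (frc true) hb
  have per : ∀ i, ∃ N, 0 < N ∧ (τ ∘ σ)^[N] i = i ∧
      η (alt (fun k => iot false (a k)) (fun k => iot true (b k)) σ τ i N) = 1 := fun i => by
    obtain ⟨N, h0, h1⟩ := exists_period ma.inv mb.inv i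
    refine ⟨N, h0, h1, fr _ (e i) ?_⟩
    have := alt_lab (w.aE.comp η) (e := e) (a := fun k => iot false (a k))
      (b := fun k => iot true (b k)) ha.lab hb.lab i N
    rwa [h1] at this
  obtain ⟨i1, j1, h1⟩ := mea ma mb ⟨0, hn⟩ fun i => by
    obtain ⟨N, h0, h1, h2⟩ := per i
    refine ⟨N, h0, h1, ?_⟩
    have := hk1 _ h2
    simpa only [map_alt, fold_refl] using this
  obtain ⟨i2, j2, h2⟩ := mea ma mb.phi ⟨0, hn⟩ fun i => by
    obtain ⟨N, h0, h1, h2⟩ := per i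
    refine ⟨N, h0, h1, ?_⟩
    have := hk2 _ h2
    rw [map_alt] at this
    simpa only [fold, glue_false, glue_true, MonoidHom.id_apply, MulEquiv.coe_toMonoidHom]
      using this
  have hx : ∃ k, r (mk 2 (a k)) = 1 ∨ r (mk 2 (b k)) = 1 := by
    by_contra hc
    simp only [not_exists, not_or] at hc
    obtain ⟨N, h0, -, h2⟩ := per ⟨0, hn⟩
    have := hk0 _ h2
    rw [map_alt] at this
    refine hAlt ((List.range N).map fun k => (r (mk 2 (a ((τ ∘ σ)^[k] ⟨0, hn⟩))),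
      r (mk 2 (b (σ ((τ ∘ σ)^[k] ⟨0, hn⟩)))))) (by simpa using h0.ne') (fun p hp => ?_) ?_
    · obtain ⟨k, -, rfl⟩ := List.mem_map.1 hp
      exact ⟨(hc _).1, (hc _).2⟩
    · rw [List.map_map]
      simpa only [alt, dbl, glue_false, glue_true, MonoidHom.comp_apply, Function.comp_def]
        using this
  have aa := fun k l => adj2 hS hP (ma.chd k) (ma.chd l) (ma.nc k l)
  have bb := fun k l => adj2 hS hP (mb.chd k) (mb.chd l) (mb.nc k l)
  have na := fun k => hN _ _ _ (ma.chd k)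
  have nb := fun k => hN _ _ _ (mb.chd k)
  have c1 := adj2 hS hP (mb.chd j1) (ma.chd i1) h1
  have c2 := adj2 hS hP (ma.chd i2) (mb.phi.chd j2) (nc2_symm h2)
  obtain ⟨k, hk | hk⟩ := hx
  · exact ⟨_, _, _, _, _, nb j2, nb j1, na i1, na i2, na k, hk, bb j2 j1, c1, aa i1 i2, c2,
      Or.inr ⟨aa k i1, aa k i2⟩⟩
  · exact ⟨_, _, _, _, _, nb j2, nb j1, na i1, na i2, nb k, hk, bb j2 j1, c1, aa i1 i2, c2,
      Or.inl ⟨bb k j2, bb k j1⟩⟩

end Pool.Agent.MP_7ebdba_gt.ch
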