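import Mathlib.Algebra.BigOperators.Finprod
import Mathlib.Algebra.Notation.Lemmas
import Mathlib.Algebra.Field.ZMod
import Mathlib.Order.CompletePartialOrder

/-! Nested translates of a half space: virtual vertices, gates, and extension of characters. -/

namespace Pool.Agent.MP_7ebdba_gt.ch.Gate

variable {G : Type} [Group G]

/-- side `b` of the wall `k`. -/
def Sd (s : G → ZMod 2) (k : G) (b : ZMod 2) : Set G := {z | s (k⁻¹ * z) = b}

/-- the sides of the point `h`. -/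
def pt (s : G → ZMod 2) (h : G) : G → ZMod 2 := fun k => s (k⁻¹ * h)

/-- translation of a choice of sides. -/
def sh (a : G) (x : G → ZMod 2) : G → ZMod 2 := fun k => x (a⁻¹ * k)

/-- two choices of sides differ at finitely many walls. -/
def Near (x y : G → ZMod 2) : Prop := {k | x k ≠ y k}.Finite

/-- parity of the number of walls in `U` where two choices differ. -/
noncomputable def Dd (U : Subgroup G) (x y : G → ZMod 2) : ZMod 2 := ∑ᶠ m : U, (x m + y m)

/-- hypotheses on the side function. -/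
structure Sys (s : G → ZMod 2) : Prop where
  fin : ∀ p q, Near (pt s p) (pt s q)
  nest : ∀ j k, j ≠ k → ∃ b c, Sd s j b ⊆ Sd s k c
  free : ∀ j k b c, Sd s j b = Sd s k c → j = k
  two : ∀ b, ∃ x y, x ≠ y ∧ s x = b ∧ s y = b
  par : ∀ p q, Dd ⊤ (pt s p) (pt s q) = 0

/-- side `c` of the wall `k` contains the wall `j`. -/
def Big (s : G → ZMod 2) (j k : G) (c : ZMod 2) : Prop := ∃ b, Sd s j b ⊆ Sd s k c

/-- `x` is the virtual vertex next to the wall `j` on the side `e`. -/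
def IsV (s : G → ZMod 2) (j : G) (e : ZMod 2) (x : G → ZMod 2) : Prop :=
  x j = e ∧ ∀ k, k ≠ j → Big s j k (x k)

/-- the chosen sides meet pairwise. -/
def Cons (s : G → ZMod 2) (x : G → ZMod 2) : Prop :=
  ∀ j k, ∃ z, z ∈ Sd s j (x j) ∧ z ∈ Sd s k (x k)

theorem z2a : ∀ a b c : ZMod 2, a ≠ c → b ≠ c → a = b := by decide
theorem z2b : ∀ a b c : ZMod 2, a + c = a + b + (b + c) := by decide
theorem z2c : ∀ a b : ZMod 2, a + b = 0 ↔ a = b := by decide
theorem z2d : ∀ a : ZMod 2, a + 1 ≠ a := by decide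

theorem sh_pt (s : G → ZMod 2) (a h : G) : sh a (pt s h) = pt s (a * h) :=
  funext fun k => by simp [sh, pt, mul_assoc]

theorem sh_sh (a b : G) (x : G → ZMod 2) : sh a (sh b x) = sh (a * b) x :=
  funext fun k => by simp [sh, mul_assoc]

theorem sh_one (x : G → ZMod 2) : sh (1 : G) x = x := funext fun k => by simp [sh]

omit [Group G] in
theorem Near.symm {x y : G → ZMod 2} (h : Near x y) : Near y x :=
  h.subset fun _ hk => Ne.symm hk

omit [Group G] in
theorem Near.trans {x y z : G → ZMod 2} (h : Near x y) (h' : Near y z) : Near x z :=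
  (h.union h').subset fun k hk => by
    by_contra c
    simp only [Set.mem_union, Set.mem_ofPred_eq, not_or, not_not] at c
    exact hk (c.1.trans c.2)

theorem Near.supp (U : Subgroup G) {x y : G → ZMod 2} (h : Near x y) :
    Function.HasFiniteSupport fun m : U => x m + y m :=
  (h.preimage Subtype.val_injective.injOn).subset fun _ hm e => hm ((z2c _ _).2 e)

theorem Dd_add (U : Subgroup G) {x y z : G → ZMod 2} (h : Near x y) (h' : Near y z) :
    Dd U x z = Dd U x y + Dd U y z := by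
  unfold Dd
  rw [← finsum_add_distrib (h.supp U) (h'.supp U)]
  exact finsum_congr fun m => z2b _ _ _

theorem Dd_sh (a : G) (x y : G → ZMod 2) : Dd ⊤ (sh a x) (sh a y) = Dd ⊤ x y :=
  finsum_comp_equiv (Equiv.mulLeft (⟨a⁻¹, trivial⟩ : (⊤ : Subgroup G)))
    (f := fun m : (⊤ : Subgroup G) => x m + y m)

theorem Dd_single (U : Subgroup G) {x y : G → ZMod 2} (h : ∀ k, k ≠ 1 → x k = y k) :
    Dd U x y = x 1 + y 1 :=
  finsum_eq_single (fun m : U => x m + y m) 1 fun m hm =>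
    (z2c _ _).2 (h m fun e => hm (Subtype.ext e))

variable {s : G → ZMod 2}

theorem sd_eq {k z : G} {b c : ZMod 2} (h : z ∈ Sd s k b) (h' : z ∈ Sd s k c) : b = c :=
  (h.symm.trans h' : b = c)

theorem IsV.sh {j : G} {e : ZMod 2} {x : G → ZMod 2} (h : IsV s j e x) (a : G) :
    IsV s (a * j) e (sh a x) := by
  refine ⟨by simpa [Gate.sh] using h.1, fun k hk => ?_⟩
  obtain ⟨b, hb⟩ := h.2 (a⁻¹ * k) fun e => hk (by rw [← e]; simp)
  refine ⟨b, fun z hz => ?_⟩
  have := @hb (a⁻¹ * z) (by simpa [Sd, mul_assoc] using hz)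
  simpa [Sd, Gate.sh, mul_assoc] using this

theorem cons_pt (h : G) : Cons s (pt s h) := fun _ _ => ⟨h, rfl, rfl⟩

namespace Sys

theorem ne (hs : Sys s) (k : G) (b : ZMod 2) : ∃ z, z ∈ Sd s k b := by
  obtain ⟨x, -, -, hx, -⟩ := hs.two b
  exact ⟨k * x, by simpa [Sd] using hx⟩

theorem opp (hs : Sys s) {j k l : G} {b b' c c' : ZMod 2} (h : Sd s j b ⊆ Sd s k c)
    (h' : Sd s j b' ⊆ Sd s l c') (hd : ∀ z, z ∈ Sd s k c → z ∉ Sd s l c') : j = k := by
  have hb : b' ≠ b := by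
    rintro rfl
    obtain ⟨z, hz⟩ := hs.ne j b'
    exact hd z (h hz) (h' hz)
  refine hs.free j k b c (h.antisymm fun z hz => ?_)
  by_contra hn
  exact hd z hz (h' (z2a _ _ _ hn hb))

theorem big_unique (hs : Sys s) {j k : G} {c c' : ZMod 2} (hjk : k ≠ j) (h : Big s j k c)
    (h' : Big s j k c') : c = c' := by
  obtain ⟨b, h⟩ := h
  obtain ⟨b', h'⟩ := h'
  by_contra hc
  exact hjk (hs.opp h h' fun z h1 h2 => hc (sd_eq h1 h2)).symm

theorem off (hs : Sys s) {j : G} {e e' : ZMod 2} {x y : G → ZMod 2} (h : IsV s j e x)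
    (h' : IsV s j e' y) (k : G) (hk : k ≠ j) : x k = y k :=
  hs.big_unique hk (h.2 k hk) (h'.2 k hk)

theorem unique (hs : Sys s) {j : G} {e : ZMod 2} {x y : G → ZMod 2} (h : IsV s j e x)
    (h' : IsV s j e y) : x = y := funext fun k => by
  by_cases hk : k = j
  · rw [hk, h.1, h'.1]
  · exact hs.off h h' k hk

theorem exV (hs : Sys s) (e : ZMod 2) : ∃ x, IsV s 1 e x := by
  classical
  have : ∀ k : G, ∃ c, k ≠ 1 → Big s 1 k c := fun k => by
    by_cases hk : k = 1
    · exact ⟨0, fun h => absurd hk h⟩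
    · obtain ⟨b, c, h⟩ := hs.nest 1 k (Ne.symm hk)
      exact ⟨c, fun _ => ⟨b, h⟩⟩
  choose β hβ using this
  exact ⟨fun k => if k = 1 then e else β k, if_pos rfl, fun k hk => by
    simpa only [if_neg hk] using hβ k hk⟩

theorem cons (hs : Sys s) {j : G} {e : ZMod 2} {x : G → ZMod 2} (h : IsV s j e x) : Cons s x := by
  have key : ∀ k l, k ≠ j → ∃ z, z ∈ Sd s k (x k) ∧ z ∈ Sd s l (x l) := fun k l hk => by
    by_contra hn
    obtain ⟨b, hb⟩ := h.2 k hk
    have : ∃ b', Sd s j b' ⊆ Sd s l (x l) := by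
      by_cases hl : l = j
      · exact ⟨x l, by rw [hl]⟩
      · exact h.2 l hl
    obtain ⟨b', hb'⟩ := this
    exact hk (hs.opp hb hb' fun z h1 h2 => hn ⟨z, h1, h2⟩).symm
  intro k l
  by_cases hk : k = j
  · by_cases hl : l = j
    · obtain ⟨z, hz⟩ := hs.ne j (x j)
      exact ⟨z, hk ▸ hz, hl ▸ hz⟩
    · obtain ⟨z, h1, h2⟩ := key l k hl
      exact ⟨z, h2, h1⟩
  · exact key k l hk

theorem near (hs : Sys s) {j : G} {e : ZMod 2} {x : G → ZMod 2} (h : IsV s j e x) (p : G) :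
    Near (pt s p) x := by
  choose z hz using hs.ne j
  refine ((Set.finite_singleton j).union
    (Set.finite_iUnion fun b : ZMod 2 => hs.fin p (z b))).subset fun k hk => ?_
  by_cases e : k = j
  · exact Or.inl e
  · obtain ⟨b, hb⟩ := h.2 k e
    exact Or.inr (Set.mem_iUnion.2 ⟨b, fun q => hk (q.trans (hb (hz b)))⟩)

theorem step (hs : Sys s) {v x : G → ZMod 2} (hv : Cons s v) (hx : Cons s x) (hn : Near x v)
    (hne : x ≠ v) : ∃ a, x a ≠ v a ∧ IsV s a (v a) v := by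
  obtain ⟨a, ha, hm⟩ := Set.Finite.exists_maximalFor (fun k => Sd s k (x k)) _ hn
    (Function.ne_iff.1 hne)
  refine ⟨a, ha, rfl, fun k hk => ?_⟩
  obtain ⟨b, c, h⟩ := hs.nest a k (Ne.symm hk)
  by_cases hc : c = v k
  · exact ⟨b, hc ▸ h⟩
  obtain ⟨z, h1, h2⟩ := hv a k
  have hb : b = x a := z2a _ _ _ (fun e => hc (sd_eq (h (e ▸ h1)) h2)) ha
  subst hb
  obtain ⟨z', h1', h2'⟩ := hx a k
  obtain rfl : c = x k := sd_eq (h h1') h2'
  exact absurd (hs.free _ _ _ _ (h.antisymm (hm hc h))).symm hk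

theorem parity (hs : Sys s) {a : G} {e e' : ZMod 2} {v : G → ZMod 2} (h : IsV s a e v)
    (h' : IsV s 1 e' v) : e = e' := by
  obtain ⟨w, hw⟩ := hs.exV e
  have e1 : sh a w = v := hs.unique (by simpa using hw.sh a) h
  have e2 : Dd ⊤ (pt s 1) v = Dd ⊤ (pt s 1) w := by
    rw [Dd_add ⊤ (hs.fin 1 a) (hs.near h a), hs.par, zero_add, ← e1, ← Dd_sh a (pt s 1), sh_pt,
      mul_one]
  rw [Dd_add ⊤ (hs.near hw 1) ((hs.near hw 1).symm.trans (hs.near h 1)),
    Dd_single ⊤ (hs.off hw h'), hw.1, h'.1, add_eq_left] at e2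
  exact (z2c _ _).1 e2

end Sys

/-- the stabiliser of a choice of sides. -/
def stab (v : G → ZMod 2) : Subgroup G where
  carrier := {a | sh a v = v}
  one_mem' := sh_one v
  mul_mem' := fun {a b} ha hb => by
    change sh (a * b) v = v
    rw [← sh_sh, hb, ha]
  inv_mem' := fun {a} ha => by
    change sh a⁻¹ v = v
    conv_lhs => rw [← ha, sh_sh, inv_mul_cancel, sh_one]

theorem Sys.mem_stab (hs : Sys s) {e : ZMod 2} {v : G → ZMod 2} (hv : IsV s 1 e v) {a : G} :
    a ∈ stab v ↔ IsV s a e v :=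
  ⟨fun h => by simpa only [mul_one, show sh a v = v from h] using hv.sh a,
    fun h => hs.unique (by simpa using hv.sh a) h⟩

theorem Sys.gate (hs : Sys s) {e : ZMod 2} {v x : G → ZMod 2} (hv : IsV s 1 e v) (hx : Cons s x)
    (hn : Near x v) (hne : x ≠ v) : ∃! a : stab v, x a ≠ e := by
  obtain ⟨a, h1, h2⟩ := hs.step (hs.cons hv) hx hn hne
  have h3 := hs.parity h2 hv
  rw [h3] at h1 h2
  refine ⟨⟨a, (hs.mem_stab hv).2 h2⟩, h1, fun a' h1' => Subtype.ext ?_⟩
  have h2' := (hs.mem_stab hv).1 a'.2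
  by_contra hne'
  obtain ⟨b, hb⟩ := h2.2 a' hne'
  obtain ⟨b', hb'⟩ := h2'.2 a (Ne.symm hne')
  rw [h2'.1] at hb
  rw [h2.1] at hb'
  obtain ⟨z, z1, z2⟩ := hx a a'
  obtain rfl : b = e := by
    by_contra c
    exact h1' (sd_eq z2 (hb (z2a _ _ _ c h1 ▸ z1)))
  obtain rfl : b' = b := by
    by_contra c
    exact h1 (sd_eq z1 (hb' (z2a _ _ _ c h1' ▸ z2)))
  exact hne' (hs.free _ _ _ _ (hb'.antisymm hb))

theorem Sys.stab_ne (hs : Sys s) {e : ZMod 2} {v : G → ZMod 2} (hv : IsV s 1 e v) :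
    stab v ≠ ⊥ := by
  intro hb
  have key : ∀ h, s h = e → pt s h = v := fun h hh => by
    by_contra c
    obtain ⟨a, ha, -⟩ := hs.gate hv (cons_pt h) (hs.near hv h) c
    have : (a : G) = 1 := Subgroup.mem_bot.1 (hb ▸ a.2)
    rw [this] at ha
    exact ha (by simpa [pt] using hh)
  obtain ⟨x, y, hxy, hx, hy⟩ := hs.two e
  have : y * x⁻¹ ∈ stab v := by
    change sh _ v = v
    conv_lhs => rw [← key x hx, sh_pt, inv_mul_cancel_right, key y hy]
  rw [hb, Subgroup.mem_bot, mul_inv_eq_one] at this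
  exact hxy this.symm

/-- extension of a character along an equivariant retraction. -/
theorem extend (A : Subgroup G) (γ : G → A) (h1 : ∀ (a : A) k, γ (a * k) = a * γ k) (h2 : γ 1 = 1)
    (h3 : ∀ p, {k | γ k = 1 ∧ γ (k * p) ≠ 1}.Finite) (h4 : ∀ (a : A) k, k ∉ A → γ (k * a) = γ k)
    (l0 : A →* Multiplicative ℤ) : ∃ l : G →* Multiplicative ℤ, ∀ a : A, l a = l0 a := by
  have hρ : ∀ p (r : {k // γ k = 1}), γ (((γ (r * p))⁻¹ : A) * (r * p)) = 1 := fun p r => by
    rw [h1, inv_mul_cancel]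
  let ρ : G → {k // γ k = 1} → {k // γ k = 1} := fun p r => ⟨_, hρ p r⟩
  have hi : ∀ p q r, p * q = 1 → ρ q (ρ p r) = r := fun p q r e => Subtype.ext (by
    change (((γ (((γ (r * p))⁻¹ : A) * (r * p) * q))⁻¹ : A) : G) *
      (((γ (r * p))⁻¹ : A) * (r * p) * q) = r
    rw [mul_assoc, mul_assoc, e, mul_one, h1, r.2]
    simp)
  let L : G → ℤ := fun p => ∑ᶠ r : {k // γ k = 1}, (l0 (γ (r * p))).toAdd
  have hf : ∀ p, Function.HasFiniteSupport fun r : {k // γ k = 1} => (l0 (γ (r * p))).toAdd :=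
    fun p => ((h3 p).preimage Subtype.val_injective.injOn).subset fun r hr =>
      ⟨r.2, fun e => hr (by simp only [e, map_one, toAdd_one])⟩
  have hL : ∀ p q, L (p * q) = L p + L q := fun p q => by
    let ε : {k // γ k = 1} ≃ {k // γ k = 1} := ⟨ρ p, ρ p⁻¹, fun r => hi _ _ r (mul_inv_cancel p),
      fun r => hi _ _ r (inv_mul_cancel p)⟩
    have e1 : L q = ∑ᶠ r, (l0 (γ (ε r * q))).toAdd :=
      (finsum_comp_equiv ε (f := fun r => (l0 (γ (r * q))).toAdd)).symm
    rw [e1, ← finsum_add_distrib (hf p) ((hf q).preimage ε.injective.injOn)]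
    refine finsum_congr fun r => ?_
    change _ = _ + (l0 (γ (((γ (r * p))⁻¹ : A) * (r * p) * q))).toAdd
    rw [mul_assoc, h1, mul_assoc]
    simp
  refine ⟨MonoidHom.mk' (fun p => Multiplicative.ofAdd (L p)) fun p q => by
    rw [hL, ofAdd_add], fun a => ?_⟩
  have : L a = (l0 (γ (1 * a))).toAdd :=
    finsum_eq_single (fun r : {k // γ k = 1} => (l0 (γ (r * a))).toAdd) ⟨1, h2⟩ fun r hr => by
      have : (r : G) ∉ A := fun c => hr (Subtype.ext (by
        have := h1 ⟨r, c⟩ 1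
        rw [mul_one, r.2, h2, mul_one] at this
        exact (congrArg Subtype.val this).symm))
      rw [h4 a r this, r.2, map_one, toAdd_one]
  change Multiplicative.ofAdd (L a) = _
  rw [this, one_mul, ← mul_one (a : G), h1, h2, mul_one, ofAdd_toAdd]

theorem Sys.ext (hs : Sys s) {e : ZMod 2} {v : G → ZMod 2} (hv : IsV s 1 e v)
    (l0 : stab v →* Multiplicative ℤ) : ∃ l : G →* Multiplicative ℤ, ∀ a : stab v, l a = l0 a := by
  obtain ⟨u, hu⟩ := hs.exV (e + 1)
  have hk : ∀ k, IsV s k (e + 1) (sh k u) := fun k => by simpa using hu.sh k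
  have := fun k => hs.gate hv (hs.cons (hk k)) ((hs.near (hk k) 1).symm.trans (hs.near hv 1))
    fun c => z2d e (hs.parity (c ▸ hk k) hv)
  choose γ g1 g2 using this
  have key : ∀ k p, γ (k * p) ≠ γ k → sh p u (k⁻¹ * γ k) ≠ u (k⁻¹ * γ k) := fun k p h c =>
    h (g2 _ _ (by
      have := g1 k
      simp only [sh] at this c ⊢
      rwa [mul_inv_rev, mul_assoc, c])).symm
  refine extend _ γ (fun a k => (g2 _ _ ?_).symm) (g2 _ _ ?_).symm (fun p => ?_)
    (fun a k hka => ?_) l0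
  · simpa [sh, mul_assoc] using g1 k
  · simp [sh, hu.1]
  · have hn : Near (sh p u) u := (hs.near (hk p) 1).symm.trans (hs.near hu 1)
    refine (hn.preimage inv_injective.injOn).subset fun k hk => ?_
    have := key k p (by rw [hk.1]; exact hk.2)
    rwa [hk.1, OneMemClass.coe_one, mul_one] at this
  · by_contra c
    have ht : k⁻¹ * γ k ∉ stab v := fun q => hka (by
      simpa using (stab v).mul_mem (γ k).2 ((stab v).inv_mem q))
    refine key k a c ?_
    have e1 := hs.off hu hv (k⁻¹ * γ k) fun q => ht (q ▸ (stab v).one_mem)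
    have e2 := hs.off hu hv ((a : G)⁻¹ * (k⁻¹ * γ k)) fun q =>
      ht (inv_mul_eq_one.1 q ▸ a.2)
    exact e2.trans ((congrFun a.2 _).trans e1.symm)

theorem Sys.main (hs : Sys s) (N : Subgroup G) [N.Normal]
    (hN : ∀ l : G →* Multiplicative ℤ, N ≤ l.ker)
    (hA : ∀ A : Subgroup G, A ≠ ⊥ → ∃ (l0 : A →* Multiplicative ℤ) (a : A), l0 a ≠ 1)
    (c : ZMod 2) (E : Set G) (hE : E.Finite)
    (hc : ∀ p, Dd N (pt s 1) (pt s p) ≠ c → ∃ t ∈ E, p * t ∈ N) : False := by
  obtain ⟨e, v, hv, hne⟩ : ∃ e v, IsV s 1 e v ∧ Dd N (pt s 1) v ≠ c := by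
    obtain ⟨v, hv⟩ := hs.exV 0
    obtain ⟨w, hw⟩ := hs.exV 1
    by_cases h : Dd N (pt s 1) v = c
    · refine ⟨1, w, hw, ?_⟩
      rw [Dd_add N (hs.near hv 1) ((hs.near hv 1).symm.trans (hs.near hw 1)),
        Dd_single N (hs.off hv hw), hv.1, hw.1, h, zero_add]
      exact z2d c
    · exact ⟨0, v, hv, h⟩
  have key : ∀ a ∈ stab v, ∃ t ∈ E ∪ {k | pt s 1 k ≠ v k}, a * t ∈ N := fun a ha => by
    by_contra hn
    push Not at hn
    apply hne
    have e1 : Dd N (pt s 1) (pt s a) = c := by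
      by_contra q
      obtain ⟨t, ht, q⟩ := hc a q
      exact hn t (Or.inl ht) q
    have e2 : Dd N (pt s a) v = 0 := finsum_eq_zero_of_forall_eq_zero fun m => (z2c _ _).2 (by
      by_contra q
      refine hn (a⁻¹ * m) (Or.inr fun q' => q ?_) (by simp)
      rw [← congrFun ha m]
      exact (congrFun ((sh_pt s a 1).trans (by rw [mul_one])) m).symm.trans q')
    rw [Dd_add N (hs.fin 1 a) (hs.near hv a), e1, e2, add_zero]
  obtain ⟨l0, a, ha⟩ := hA _ (hs.stab_ne hv)
  obtain ⟨l, hl⟩ := hs.ext hv l0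
  have hfin : IsOfFinOrder (QuotientGroup.mk' N a) := by
    rw [← finite_powers]
    refine ((hE.union (hs.near hv 1)).image fun t => (QuotientGroup.mk' N t)⁻¹).subset ?_
    rintro _ ⟨m, rfl⟩
    obtain ⟨t, ht, q⟩ := key _ ((stab v).pow_mem a.2 m)
    refine ⟨t, ht, ?_⟩
    have := (QuotientGroup.eq_one_iff _).2 q
    rw [QuotientGroup.mk_mul, mul_eq_one_iff_eq_inv] at this
    exact this.symm.trans (map_pow (QuotientGroup.mk' N) _ _)
  obtain ⟨m, hm, q⟩ := isOfFinOrder_iff_pow_eq_one.1 hfin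
  rw [← map_pow] at q
  have := MonoidHom.mem_ker.1 (hN l ((QuotientGroup.eq_one_iff _).1 q))
  rw [map_pow, hl] at this
  exact ha ((pow_eq_one_iff_left hm.ne').1 this)

end Pool.Agent.MP_7ebdba_gt.ch.Gate
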