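import Mathlib.GroupTheory.FreeGroup.CyclicallyReduced
import Mathlib.GroupTheory.FreeGroup.NielsenSchreier
import Pool.Agent.MP_7ebdba_gt.ch.Spec
import Pool.Agent.MP_7ebdba_gt.ch.Gate

/-! An essential simple arc gives a nontrivial element of the closed surface group. -/

namespace Pool.Agent.MP_7ebdba_gt.ch

open Meander7 Gate

theorem kap_ker {w : F 2} (hw : mk 2 w = 1) : ∃ l : List (F 2), ∀ U : Subgroup (F 2),
    (mk 2).ker ≤ U → ∀ h h', kap U 1 w h h' =
      (l.map fun t => Meander7.ind (h * t ∈ U) + Meander7.ind (h' * t ∈ U)).sum := by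
  have hw' : w ∈ Subgroup.closure (Group.conjugatesOfSet {rel 2}) := mk_eq_one.1 hw
  clear hw
  have mem : ∀ {x}, x ∈ Subgroup.closure (Group.conjugatesOfSet {rel 2}) → x ∈ (mk 2).ker :=
    fun hx => mk_eq_one.2 hx
  induction hw' using Subgroup.closure_induction with
  | mem x hx =>
    have hx' := mem (Subgroup.subset_closure hx)
    obtain ⟨r, rfl, hr⟩ := Group.mem_conjugatesOfSet_iff.1 hx
    obtain ⟨q, rfl⟩ := isConj_iff.1 hr
    refine ⟨[(q * zeta)⁻¹], fun U hU h h' => ?_⟩
    have e := kap_mul_left U (hU hx') q 1 h h'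
    rw [inv_mul_cancel_right, mul_one] at e
    rw [kap_add_left U 1 q, kap_add_left U q (q * zeta), e, kap_zeta_left, kap_comm_left U q 1,
      add_comm, add_assoc, CharTwo.add_self_eq_zero, add_zero]
    simp
  | one => exact ⟨[], fun U _ h h' => kap_self_left ..⟩
  | mul x y hx _ h1 h2 =>
    obtain ⟨l, h1⟩ := h1
    obtain ⟨l', h2⟩ := h2
    refine ⟨l ++ l', fun U hU h h' => ?_⟩
    have e := kap_mul_left U (hU (mem hx)) 1 y h h'
    rw [mul_one] at e
    rw [kap_add_left U 1 x, e, h1 U hU, h2 U hU, List.map_append, List.sum_append]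
  | inv x hx h1 =>
    obtain ⟨l, h1⟩ := h1
    refine ⟨l, fun U hU h h' => ?_⟩
    have e := kap_mul_left U (hU (mem hx)) 1 x⁻¹ h h'
    rw [mul_one, mul_inv_cancel] at e
    rw [← e, kap_comm_left, h1 U hU]

theorem nest_lin {α : Type*} [LinearOrder α] {x y u v : α} (h1 : u ≠ x) (h2 : u ≠ y) (h3 : v ≠ x)
    (h4 : v ≠ y) (h : ¬ Cross x y u v) :
    (∀ w, Meander7.Btw u v w → Meander7.Btw x y w) ∨
      (∀ w, Meander7.Btw x y w → ¬ Meander7.Btw u v w) ∨
      ∀ w, Meander7.Btw x y w → Meander7.Btw u v w := by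
  by_contra c
  simp only [not_or, not_forall, not_not] at c
  obtain ⟨⟨a, a1, a2⟩, ⟨b, b1, b2⟩, ⟨d, d1, d2⟩⟩ := c
  unfold Cross Meander7.Btw at *
  grind (splits := 40)

theorem ind_eq_one {p : Prop} : Meander7.ind p = 1 ↔ p :=
  ⟨fun h => by
    by_contra c
    rw [ind_neg c] at h
    exact absurd h (by decide), ind_pos⟩

theorem ind_eq_zero {p : Prop} : Meander7.ind p = 0 ↔ ¬ p :=
  ⟨fun h c => by
    rw [ind_pos c] at h
    exact absurd h (by decide), ind_neg⟩

/-- the side function of the chord of `u`. -/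
noncomputable def sd (u : F 2) (h : F 2) : ZMod 2 := X0 1 u 1 h

theorem sd_add (u k p q : F 2) : Gate.pt (sd u) p k + Gate.pt (sd u) q k = X0 (k * 1) (k * u) p q := by
  unfold Gate.pt sd
  rw [X0_comm_right 1 u 1, ← X0_add_right, ← X0_mul k, mul_inv_cancel_left, mul_inv_cancel_left]

theorem sd_Dd (U : Subgroup (F 2)) (u p q : F 2) :
    Dd U (Gate.pt (sd u) p) (Gate.pt (sd u) q) = kap U 1 u p q :=
  finsum_congr fun m => sd_add u m p q

theorem sd_flux (u k z : F 2) : sd u (k⁻¹ * z) + sd u (k⁻¹ * (z * zeta)) =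
    Meander7.ind (k = z) + Meander7.ind (k * u = z) := by
  have := sd_add u k z (z * zeta)
  rwa [X0_zeta_right, mul_one] at this

theorem sd_btw (u k : F 2) (i j : ℕ) : ∃ c : ZMod 2, ∀ z, sd u (k⁻¹ * z) =
    c + Meander7.ind (Meander7.Btw (P k i) (P (k * u) j) (P z (i + j + 1))) := by
  refine ⟨Meander7.ind (Meander7.Btw (P k i) (P (k * u) j) (P k (i + j + 1))), fun z => ?_⟩
  have n1 : ∀ a b : F 2, P a (i + j + 1) ≠ P b i := fun a b e => by
    have := (P_inj.1 e).2
    omega
  have n2 : ∀ a b : F 2, P a (i + j + 1) ≠ P b j := fun a b e => by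
    have := (P_inj.1 e).2
    omega
  rw [← ind_cross (n1 _ _) (n2 _ _) (n1 _ _) (n2 _ _), ind_congr (cross_norm (by omega) (by omega)),
    sd, ← X0_mul k, mul_one, mul_inv_cancel_left, X0]

theorem sys {u : F 2} {i j : ℕ} (hc : Chord u i j) (hu : mk 2 u = 1) : Sys (sd u) where
  fin p q := (X0_fin 1 u p q).subset fun k hk e => hk ((z2c _ _).1 ((sd_add u k p q).trans e))
  nest a b hab := by
    obtain ⟨c, h1⟩ := sd_btw u a i j
    obtain ⟨d, h2⟩ := sd_btw u b i j
    have hn : ¬ Cross (P a i) (P (a * u) j) (P b i) (P (b * u) j) := fun e =>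
      hc.nc (a⁻¹ * b) (by simpa [mul_assoc] using (cross_smul a⁻¹).2 e)
    have z1 : ∀ c t : ZMod 2, c + t = c + 1 → t = 1 := by decide
    have z0 : ∀ c t : ZMod 2, c + t = c → t = 0 := by decide
    rcases nest_lin (fun e => hab (P_inj.1 e).1.symm) (fun e => hc.ne (P_inj.1 e).2)
      (fun e => hc.ne (P_inj.1 e).2.symm)
      (fun e => hab (mul_right_cancel (P_inj.1 e).1).symm) hn with h | h | h
    · refine ⟨c, d, fun z hz => (h2 z).trans ?_⟩
      rw [ind_neg fun q => ind_eq_zero.1 (z0 _ _ ((h1 z).symm.trans hz)) (h _ q), add_zero]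
    · refine ⟨c + 1, d, fun z hz => (h2 z).trans ?_⟩
      rw [ind_neg (h _ (ind_eq_one.1 (z1 _ _ ((h1 z).symm.trans hz)))), add_zero]
    · refine ⟨c + 1, d + 1, fun z hz => (h2 z).trans ?_⟩
      rw [ind_pos (h _ (ind_eq_one.1 (z1 _ _ ((h1 z).symm.trans hz))))]
  free a b c d h := by
    have z : ∀ x y x' y' c d : ZMod 2, (x = c ↔ y = d) → (x' = c ↔ y' = d) → x + x' = y + y' := by
      decide
    have key : ∀ t, Meander7.ind (a = t) + Meander7.ind (a * u = t) =
        Meander7.ind (b = t) + Meander7.ind (b * u = t) := fun t => by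
      rw [← sd_flux, ← sd_flux]
      exact z _ _ _ _ c d (Set.ext_iff.1 h t) (Set.ext_iff.1 h _)
    by_contra hab
    have e1 := key a
    have e2 := key b
    rw [ind_pos rfl, ind_neg fun e => hc.n1 (mul_eq_left.1 e), ind_neg (Ne.symm hab), add_zero,
      zero_add, eq_comm, ind_eq_one] at e1
    rw [ind_pos rfl, ind_neg (p := b * u = b) fun e => hc.n1 (mul_eq_left.1 e), ind_neg hab,
      add_zero, zero_add, ind_eq_one] at e2
    rw [← e1, mul_assoc, mul_eq_left, ← sq, pow_eq_one_iff_left two_ne_zero] at e2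
    exact hc.n1 e2
  two b := by
    have hz : zeta ≠ 1 := by decide +kernel
    have f : ∀ z, sd u z + sd u (z * zeta) = Meander7.ind (1 = z) + Meander7.ind (u = z) :=
      fun z => by simpa using sd_flux u 1 z
    have s1 : sd u 1 = 0 := X0_self_right ..
    have e0 := f zeta⁻¹
    have e1 := f 1
    have e2 := f zeta
    rw [inv_mul_cancel, s1, add_zero, ind_neg fun e => hz (inv_eq_one.1 e.symm), ind_neg hc.nz',
      add_zero] at e0
    rw [s1, zero_add, one_mul, ind_pos rfl, ind_neg hc.n1, add_zero] at e1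
    rw [ind_neg hz.symm, ind_neg hc.nz, add_zero, z2c, e1] at e2
    have : b = 0 ∨ b = 1 := by
      revert b
      decide
    rcases this with rfl | rfl
    · exact ⟨1, zeta⁻¹, fun e => hz (inv_eq_one.1 e.symm), s1, e0⟩
    · exact ⟨zeta, zeta * zeta, fun e => hz (mul_eq_left.1 e.symm), e1, e2.symm⟩
  par p q := by
    obtain ⟨l, hl⟩ := kap_ker hu
    rw [sd_Dd, hl ⊤ le_top]
    refine List.sum_eq_zero fun x hx => ?_
    obtain ⟨t, -, rfl⟩ := List.mem_map.1 hx
    rw [ind_pos (Subgroup.mem_top _), ind_pos (Subgroup.mem_top _)]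
    decide

theorem nt : NtStmt := by
  intro u i j hc hu
  obtain ⟨l, hl⟩ := kap_ker hu
  refine (sys hc hu).main (mk 2).ker (fun f x hx => ?_) (fun A hA => ?_)
    (l.map fun t => Meander7.ind (1 * t ∈ (mk 2).ker) + 0).sum {t | t ∈ l} (List.finite_toSet l)
    fun p hp => ?_
  · have hf : f (rel 2) = 1 := by
      have : ∀ a b : Multiplicative ℤ, a * b * a⁻¹ * b⁻¹ = 1 := fun a b => by
        rw [mul_inv_cancel_comm, mul_inv_cancel]
      simp only [rel, List.ofFn_succ, List.ofFn_zero, List.prod_cons, List.prod_nil, map_mul,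
        map_inv, this, mul_one]
    rw [MonoidHom.mem_ker, ← desc_mk f hf, MonoidHom.mem_ker.1 hx, map_one]
  · by_contra c
    push Not at c
    have : IsEmpty (IsFreeGroup.Generators A) := ⟨fun g => by
      have := c (IsFreeGroup.lift fun _ => Multiplicative.ofAdd 1) (IsFreeGroup.of g)
      rw [IsFreeGroup.lift_of] at this
      exact absurd this (by decide)⟩
    have hs : Subsingleton A := (IsFreeGroup.toFreeGroup A).injective.subsingleton
    exact hA (Subgroup.eq_bot_of_subsingleton A)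
  · by_contra c
    push Not at c
    apply hp
    rw [sd_Dd, hl _ le_rfl]
    exact congrArg List.sum (List.map_congr_left fun t ht => by rw [ind_neg (c t ht)])

end Pool.Agent.MP_7ebdba_gt.ch
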