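import Pool.Agent.MP_7ebdba_gt.ch.Spec

/-! Duality: the crossing count with the translates of one chord generates the almost invariant
functions modulo a cyclic subgroup. -/

namespace Pool.Agent.MP_7ebdba_gt.ch

namespace PD

open Meander7

/-- the class of `h` modulo left multiplication by `U`. -/
def cl (U : Subgroup (F 2)) (h : F 2) : F 2 ⧸ U := QuotientGroup.mk h⁻¹

/-- a representative of a class. -/
noncomputable def rp {U : Subgroup (F 2)} (q : F 2 ⧸ U) : F 2 := q.out⁻¹

theorem cl_eq {U : Subgroup (F 2)} {a b : F 2} : cl U a = cl U b ↔ a * b⁻¹ ∈ U := by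
  simp [cl, QuotientGroup.eq]

theorem cl_rp {U : Subgroup (F 2)} (q : F 2 ⧸ U) : cl U (rp q) = q := by simp [cl, rp]

theorem cl_mul (U : Subgroup (F 2)) (h x : F 2) : cl U (h * x) = x⁻¹ • cl U h := by
  simp [cl, mul_inv_rev]

theorem single_cl (U : Subgroup (F 2)) (a h : F 2) :
    Finsupp.single (cl U a) (1 : ZMod 2) (cl U h) = Meander7.ind (h * a⁻¹ ∈ U) := by
  by_cases e : h * a⁻¹ ∈ U
  · rw [ind_pos e, cl_eq.2 e, Finsupp.single_eq_same]
  · rw [ind_neg e, Finsupp.single_eq_of_ne fun c => e (cl_eq.1 c)]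

theorem mem_Ug {u m : F 2} : m ∈ Ug u ↔ ∃ n : ℤ, mk 2 u ^ n = mk 2 m := Iff.rfl

theorem ker_Ug (u : F 2) {w : F 2} (h : mk 2 w = 1) : w ∈ Ug u := mem_Ug.2 ⟨0, by simp [h]⟩

theorem self_Ug (u : F 2) : u ∈ Ug u := mem_Ug.2 ⟨1, by simp⟩

/-- the cocycles that are trivial up to the class of the chord. -/
def Triv (u : F 2) : Submodule (ZMod 2) (F 2 → F 2 → ZMod 2) where
  carrier := {c | ∃ (e : ZMod 2) (f : (F 2 ⧸ Ug u) →₀ ZMod 2), ∀ h h',
    c h h' = f (cl _ h) + f (cl _ h') + e * kap (Ug u) 1 u h h'}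
  add_mem' := by
    rintro a b ⟨e, f, h1⟩ ⟨e', f', h2⟩
    refine ⟨e + e', f + f', fun h h' => ?_⟩
    simp only [Pi.add_apply, h1, h2, Finsupp.add_apply]
    ring
  zero_mem' := ⟨0, 0, fun h h' => by simp⟩
  smul_mem' := by
    rintro a c ⟨e, f, h1⟩
    refine ⟨a * e, a • f, fun h h' => ?_⟩
    simp only [Pi.smul_apply, h1, Finsupp.smul_apply, smul_eq_mul]
    ring

theorem kap_add (U : Subgroup (F 2)) (a b c : F 2) : kap U a c = kap U a b + kap U b c := by
  funext h h'
  exact kap_add_left U a b c h h'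

theorem kap_comm (U : Subgroup (F 2)) (a b : F 2) : kap U a b = kap U b a := by
  funext h h'
  exact kap_comm_left U a b h h'

theorem kap_self (U : Subgroup (F 2)) (a : F 2) : kap U a a = 0 := by
  funext h h'
  exact kap_self_left U a h h'

theorem kap_mul (U : Subgroup (F 2)) {m : F 2} (hm : m ∈ U) (a b : F 2) :
    kap U (m * a) (m * b) = kap U a b := by
  funext h h'
  exact kap_mul_left U hm a b h h'

theorem kap_shift (U : Subgroup (F 2)) {m : F 2} (hm : m ∈ U) (a : F 2) :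
    kap U 1 (m * a) = kap U 1 m + kap U 1 a := by
  rw [kap_add U 1 m (m * a), ← kap_mul U hm 1 a, mul_one]

theorem triv_zeta (u a : F 2) : kap (Ug u) a (a * zeta) ∈ Triv u :=
  ⟨0, Finsupp.single (cl _ (a * zeta)) 1, fun h h' => by
    rw [kap_zeta_left, single_cl, single_cl, zero_mul, add_zero]⟩

theorem triv_u (u : F 2) : kap (Ug u) 1 u ∈ Triv u := ⟨1, 0, fun h h' => by simp⟩

theorem add_self (c : F 2 → F 2 → ZMod 2) : c + c = 0 := by
  funext h h'
  exact CharTwo.add_self_eq_zero _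

theorem triv_ker (u : F 2) {w : F 2} (hw : mk 2 w = 1) (a : F 2) :
    kap (Ug u) a (a * w) ∈ Triv u := by
  rw [mk_eq_one] at hw
  induction hw using Subgroup.closure_induction generalizing a with
  | mem x hx =>
    obtain ⟨z, hz, hc⟩ := Group.mem_conjugatesOfSet_iff.1 hx
    obtain ⟨c, rfl⟩ := isConj_iff.1 hc
    obtain rfl : z = zeta := hz
    have hm : a * c * zeta * (a * c)⁻¹ ∈ Ug u := ker_Ug u (by simp [mk_rel])
    have e := kap_mul (Ug u) hm (a * c) a
    rw [inv_mul_cancel_right, show a * c * zeta * (a * c)⁻¹ * a = a * (c * zeta * c⁻¹) by group]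
      at e
    rw [kap_add _ a (a * c), kap_add _ (a * c) (a * c * zeta), e, kap_comm _ (a * c) a,
      add_left_comm, add_self, add_zero]
    exact triv_zeta u _
  | one =>
    rw [mul_one, kap_self]
    exact zero_mem _
  | mul x y _ _ ihx ihy =>
    rw [kap_add _ a (a * x), ← mul_assoc]
    exact add_mem (ihx a) (ihy _)
  | inv x _ ih =>
    have := ih (a * x⁻¹)
    rwa [inv_mul_cancel_right, kap_comm] at this

theorem triv_pow (u : F 2) (n : ℤ) : kap (Ug u) 1 (u ^ n) ∈ Triv u := by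
  induction n using Int.induction_on with
  | zero =>
    rw [zpow_zero, kap_self]
    exact zero_mem _
  | succ n ih =>
    rw [zpow_add_one, kap_shift _ (zpow_mem (self_Ug u) _)]
    exact add_mem ih (triv_u u)
  | pred n ih =>
    have e := kap_shift _ (zpow_mem (self_Ug u) (-n - 1)) u
    rw [← zpow_add_one, sub_add_cancel] at e
    rw [e] at ih
    exact (add_mem_cancel_right (triv_u u)).1 ih

theorem triv_U (u : F 2) {m : F 2} (hm : m ∈ Ug u) : kap (Ug u) 1 m ∈ Triv u := by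
  obtain ⟨n, hn⟩ := mem_Ug.1 hm
  have := triv_ker u (w := (u ^ n)⁻¹ * m) (by simp [hn]) (u ^ n)
  rw [mul_inv_cancel_left] at this
  rw [kap_add _ 1 (u ^ n)]
  exact add_mem (triv_pow u n) this

/-- the class of the chord from the gap of `1` to the gap of a representative. -/
noncomputable def Kq (u : F 2) (q : F 2 ⧸ Ug u) : (F 2 → F 2 → ZMod 2) ⧸ Triv u :=
  (Triv u).mkQ (kap (Ug u) 1 (rp q))

theorem Kq_cl (u a : F 2) : Kq u (cl _ a) = (Triv u).mkQ (kap (Ug u) 1 a) := by
  have hm : rp (cl (Ug u) a) * a⁻¹ ∈ Ug u := cl_eq.1 (cl_rp _)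
  have e := kap_shift _ hm a
  rw [inv_mul_cancel_right] at e
  rw [Kq, e, map_add, Submodule.mkQ_apply, (Submodule.Quotient.mk_eq_zero _).2 (triv_U u hm),
    zero_add]

theorem X0_tg (a h : F 2) {k l : Fin 9} (hk : k ≠ 8) (hl : l ≠ 8) (hkl : pr k ≠ l) :
    X0 a (a * tg k) (h * vx l) (h * vx (l + 1)) = Meander7.ind (a = h) * Meander7.ind (k = l) := by
  rw [X0_side, ← mul_assoc]
  by_cases e1 : a = h
  · rw [e1, inv_mul_cancel, one_mul, dir_one, dir_tg hk, ind_neg hl.symm, ind_pos rfl, zero_add,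
      one_mul]
  rw [ind_neg e1, zero_mul]
  by_cases e2 : h⁻¹ * a * tg k = 1
  · rw [e2, dir_one, ind_neg hl.symm, eq_inv_of_mul_eq_one_left e2, ← tg_pr hk,
      dir_tg (pr_ne_eight hk), ind_neg hkl, add_zero]
  · rw [dir_mul_right hk (fun c => e1 (inv_mul_eq_one.1 c).symm) e2]
    exact CharTwo.add_self_eq_zero _

theorem kap_tg (U : Subgroup (F 2)) (a h : F 2) {k l : Fin 9} (hk : k ≠ 8) (hl : l ≠ 8)
    (hkl : pr k ≠ l) : kap U a (a * tg k) (h * vx l) (h * vx (l + 1)) =
      Meander7.ind (h * a⁻¹ ∈ U) * Meander7.ind (k = l) := by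
  unfold kap
  simp only [← mul_assoc, X0_tg _ _ hk hl hkl, ← eq_mul_inv_iff_mul_eq]
  by_cases e : k = l
  · simp only [ind_pos e, mul_one]
    exact finsum_ind U _
  · simp [ind_neg e]

/-- the sides that carry the generators. -/
def gs : Finset (Fin 9) := {0, 1, 4, 5}

theorem of_gs (s : Fin 2 × Bool) : ∃ l ∈ gs, FreeGroup.of s = (vx l)⁻¹ * vx (l + 1) := by
  revert s
  decide +kernel

theorem gs_ne : ∀ k ∈ gs, k ≠ 8 := by decide

theorem gs_pr : ∀ k ∈ gs, ∀ l ∈ gs, pr k ≠ l := by decide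

/-- two additive functions that agree on the generator sides agree. -/
theorem coc_ext {c d : F 2 → F 2 → ZMod 2} (hc : ∀ h h' h'', c h h'' = c h h' + c h' h'')
    (hd : ∀ h h' h'', d h h'' = d h h' + d h' h'')
    (hs : ∀ h, ∀ l ∈ gs, c (h * vx l) (h * vx (l + 1)) = d (h * vx l) (h * vx (l + 1))) :
    c = d := by
  have c0 : ∀ h, c h h = 0 := fun h => (hc h h h).trans (CharTwo.add_self_eq_zero _)
  have d0 : ∀ h, d h h = 0 := fun h => (hd h h h).trans (CharTwo.add_self_eq_zero _)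
  have key : ∀ w h, c h (h * w) = d h (h * w) := by
    intro w
    induction w using FreeGroup.induction_on with
    | C1 =>
      intro h
      rw [mul_one, c0, d0]
    | of s =>
      intro h
      obtain ⟨l, hl, e⟩ := of_gs s
      have := hs (h * (vx l)⁻¹) l hl
      rwa [inv_mul_cancel_right, mul_assoc, ← e] at this
    | inv_of s ih =>
      intro h
      have h1 := ih (h * (FreeGroup.of s)⁻¹)
      rw [inv_mul_cancel_right] at h1
      have h2 := hc h (h * (FreeGroup.of s)⁻¹) h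
      have h3 := hd h (h * (FreeGroup.of s)⁻¹) h
      rw [c0, h1] at h2
      rw [d0] at h3
      exact add_right_cancel (h2.symm.trans h3)
    | mul x y ihx ihy =>
      intro h
      rw [← mul_assoc, hc h (h * x), hd h (h * x), ihx, ihy]
  funext h h'
  simpa using key (h⁻¹ * h') h

theorem ai_shift {g : S 2} {s1 : S 2 → ZMod 2} {w : ZMod 2} (hw : ∀ x, s1 (g * x) = s1 x + w)
    (n : ℤ) (x : S 2) : s1 (g ^ n * x) = s1 x + n * w := by
  induction n using Int.induction_on with
  | zero => simp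
  | succ n ih =>
    rw [add_comm (n : ℤ), zpow_one_add, mul_assoc, hw, ih]
    push_cast
    ring
  | pred n ih =>
    have e := hw (g ^ (-(n : ℤ) - 1) * x)
    rw [← mul_assoc, ← zpow_one_add, add_sub_cancel, ih] at e
    push_cast at e ⊢
    linear_combination -e

/-- the coboundary of an almost invariant function on the sides, as finitely supported functions
on classes. -/
theorem exists_om (u : F 2) {s1 : S 2 → ZMod 2} (h1 : AI0 (mk 2 u) s1) (a b : F 2) :
    ∃ om : (F 2 ⧸ Ug u) →₀ ZMod 2, ∀ h,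
      om (cl _ h) = s1 (mk 2 (h * a)) + s1 (mk 2 (h * b)) := by
  obtain ⟨⟨w, hw⟩, hf⟩ := h1
  have inv : ∀ h, s1 (mk 2 (rp (cl (Ug u) h) * a)) + s1 (mk 2 (rp (cl (Ug u) h) * b)) =
      s1 (mk 2 (h * a)) + s1 (mk 2 (h * b)) := fun h => by
    obtain ⟨n, hn⟩ := mem_Ug.1 (cl_eq.1 (cl_rp (cl (Ug u) h)))
    have e : mk 2 (rp (cl (Ug u) h)) = mk 2 u ^ n * mk 2 h := by simp [hn]
    simp only [map_mul, e, mul_assoc, ai_shift hw]
    generalize (n : ZMod 2) * w = z
    linear_combination CharTwo.add_self_eq_zero z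
  obtain ⟨R, hR⟩ := hf (mk 2 (a⁻¹ * b))
  have fin : (Function.support fun q : F 2 ⧸ Ug u =>
      s1 (mk 2 (rp q * a)) + s1 (mk 2 (rp q * b))).Finite := by
    refine (R.finite_toSet.image fun r =>
      cl (Ug u) (Function.surjInv (mk_surjective 2) r * a⁻¹)).subset fun q hq => ?_
    obtain ⟨n, r, hr, e⟩ := hR (mk 2 (rp q * a)) fun c => hq (by
      rw [← map_mul, mul_assoc, mul_inv_cancel_left] at c
      simp only [c]
      exact CharTwo.add_self_eq_zero _)
    refine ⟨r, hr, ?_⟩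
    rw [← cl_rp q]
    refine (cl_eq.2 (mem_Ug.2 ⟨n, ?_⟩)).symm
    rw [mul_inv_rev, inv_inv, ← mul_assoc, map_mul, e, map_inv,
      Function.surjInv_eq (mk_surjective 2), mul_inv_cancel_right]
  exact ⟨Finsupp.ofSupportFinite _ fin, fun h => inv h⟩

theorem triv_ai (u : F 2) {s1 : S 2 → ZMod 2} (h1 : AI0 (mk 2 u) s1) :
    (fun h h' => s1 (mk 2 h) + s1 (mk 2 h')) ∈ Triv u := by
  choose om hom using fun k : Fin 9 => exists_om u h1 (vx k) (vx (k + 1))
  have e1 : (fun h h' => s1 (mk 2 h) + s1 (mk 2 h')) = ∑ k ∈ gs,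
      Finsupp.linearCombination (ZMod 2)
        (fun q : F 2 ⧸ Ug u => kap (Ug u) (rp q) (rp q * tg k)) (om k) := by
    refine coc_ext (fun h h' h'' => ?_) (fun h h' h'' => ?_) fun h l hl => ?_
    · linear_combination -CharTwo.add_self_eq_zero (s1 (mk 2 h'))
    · simp only [Finsupp.linearCombination_apply, Finsupp.sum, Finset.sum_apply, Pi.smul_apply,
        ← Finset.sum_add_distrib, ← smul_add, ← kap_add_right]
    · simp only [Finsupp.linearCombination_apply, Finsupp.sum, Finset.sum_apply, Pi.smul_apply]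
      rw [Finset.sum_eq_single_of_mem l hl fun k hk hkl => Finset.sum_eq_zero fun q _ => by
        rw [kap_tg _ _ _ (gs_ne k hk) (gs_ne l hl) (gs_pr k hk l hl), ind_neg hkl, mul_zero,
          smul_zero]]
      simp only [kap_tg _ _ _ (gs_ne l hl) (gs_ne l hl) (gs_pr l hl l hl), ind_pos trivial,
        mul_one]
      rw [Finset.sum_eq_single (cl _ h), ind_pos (cl_eq.1 (cl_rp _).symm), smul_eq_mul, mul_one,
        hom]
      · intro q _ hq
        rw [ind_neg fun c => hq ((cl_eq.2 c).trans (cl_rp q)).symm, smul_zero]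
      · intro hq
        rw [Finsupp.notMem_support_iff.1 hq, zero_smul]
  have e2 : ∀ k ∈ gs, (Triv u).mkQ (Finsupp.linearCombination (ZMod 2)
      (fun q : F 2 ⧸ Ug u => kap (Ug u) (rp q) (rp q * tg k)) (om k)) =
      Finsupp.linearCombination (ZMod 2) (Kq u) (om k + om (pr k)) := fun k hk => by
    have e3 : om (pr k) = Finsupp.mapDomain (fun q => (tg k)⁻¹ • q) (om k) := by
      ext q
      obtain ⟨h, rfl⟩ : ∃ h, q = (tg k)⁻¹ • cl (Ug u) h :=
        ⟨rp (tg k • q), by rw [cl_rp, inv_smul_smul]⟩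
      rw [Finsupp.mapDomain_apply (MulAction.injective _), ← cl_mul, hom, hom, mul_assoc, mul_assoc,
        tg_vx, tg_vx' (gs_ne k hk), add_comm]
    rw [map_add, e3, Finsupp.linearCombination_mapDomain, Finsupp.apply_linearCombination]
    simp only [Finsupp.linearCombination_apply, Finsupp.sum, ← Finset.sum_add_distrib, ← smul_add]
    refine Finset.sum_congr rfl fun q _ => congrArg _ ?_
    simp only [Function.comp_apply]
    conv_rhs => rw [← cl_rp q, ← cl_mul, Kq_cl, Kq_cl, ← map_add, kap_comm _ 1 (rp q), ← kap_add]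
  have e4 : ∑ k ∈ gs, (om k + om (pr k)) = 0 := by
    ext q
    rw [← cl_rp q]
    have z : s1 (mk 2 (rp q * vx 8)) = s1 (mk 2 (rp q * vx 0)) := by
      simp [vx_eight, vx_zero, mk_rel]
    have key : ∀ t : Fin 9 → ZMod 2, t 8 = t 0 →
        ∑ k ∈ gs, ((t k + t (k + 1)) + (t (pr k) + t (pr k + 1))) = 0 := by
      decide +kernel
    simpa only [Finsupp.finsetSum_apply, Finsupp.add_apply, hom, Finsupp.zero_apply] using
      key (fun k => s1 (mk 2 (rp q * vx k))) z
  rw [← Submodule.Quotient.mk_eq_zero, ← Submodule.mkQ_apply, e1, map_sum,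
    Finset.sum_congr rfl e2, ← map_sum, e4, map_zero]

end PD

theorem pd : PdStmt := by
  intro u s hs s1 h1
  obtain ⟨e, f, hf⟩ := PD.triv_ai u h1
  classical
  refine ⟨s1 1 + f (PD.cl _ 1), e, f.support.image fun q => mk 2 (PD.rp q), fun x hx => ?_⟩
  obtain ⟨h, rfl⟩ := mk_surjective 2 x
  obtain ⟨n, hn⟩ := PD.mem_Ug.1 (PD.cl_eq.1 (PD.cl_rp (PD.cl (Ug u) h)).symm)
  refine ⟨n, _, Finset.mem_image_of_mem _ (Finsupp.mem_support_iff.2 fun c => hx ?_ :
    PD.cl _ h ∈ f.support), by simp [hn]⟩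
  have := hf 1 h
  simp only [map_one, c] at this
  rw [hs]
  linear_combination this - CharTwo.add_self_eq_zero (s1 1)

end Pool.Agent.MP_7ebdba_gt.ch
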