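import Mathlib.Data.Fintype.Sort
import Pool.Agent.MP_7ebdba_gt.ch.Spec

-- ======== part 0: formerly Pool.Agent.MP_7ebdba_gt.ch.Track
section MrgPart0

-- ======== part 0: formerly Pool.Agent.MP_7ebdba_gt.ch.Tree
section MrgPart0

/-! The tree of a free product of two groups, by reduced words. -/

namespace Pool.Agent.MP_7ebdba_gt.ch

namespace Tre

open Monoid Monoid.CoprodI

variable {M : Bool → Type} [∀ i, Group (M i)]

open Classical in
/-- The reduced word of an element. -/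
noncomputable def wr : CoprodI M ≃ Word M := Word.equiv

/-- The side of the base edge on which the vertex `w * M i` lies. -/
noncomputable def sd (w : CoprodI M) (i : Bool) : Bool := (wr w).fstIdx.getD i

/-- The length of the reduced word. -/
noncomputable def len (w : CoprodI M) : ℕ := (wr w).toList.length

theorem wr_symm (u : Word M) : wr.symm u = u.prod := rfl

theorem wr_prod (u : Word M) : wr u.prod = u := wr.apply_symm_apply u

theorem prod_wr (w : CoprodI M) : (wr w).prod = w := wr.symm_apply_apply w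

theorem wr_one : wr (1 : CoprodI M) = Word.empty := wr_prod Word.empty

theorem sd_one (i : Bool) : sd (1 : CoprodI M) i = i := by
  rw [sd, wr_one]
  rfl

theorem fst_ne {w : CoprodI M} {j : Bool} : (wr w).fstIdx ≠ some j ↔ sd w (!j) ≠ j := by
  rw [sd]
  rcases (wr w).fstIdx with _ | k
  · cases j <;> simp
  · simp

theorem wr_cons {j : Bool} {m : M j} {w : CoprodI M} (hm : m ≠ 1) (hw : sd w (!j) ≠ j) :
    wr (of m * w) = Word.cons m (wr w) (fst_ne.2 hw) hm := by
  rw [← wr_prod (Word.cons m (wr w) (fst_ne.2 hw) hm), Word.prod_cons, prod_wr]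

theorem len_cons {j : Bool} {m : M j} {w : CoprodI M} (hm : m ≠ 1) (hw : sd w (!j) ≠ j) :
    len (of m * w) = len w + 1 := by
  rw [len, wr_cons hm hw]
  rfl

theorem sd_cons' {j : Bool} {m : M j} {w : CoprodI M} (hm : m ≠ 1) (hw : sd w (!j) ≠ j)
    (i : Bool) : sd (of m * w) i = j := by
  rw [sd, wr_cons hm hw, Word.fstIdx_cons]
  rfl

theorem ind {p : CoprodI M → Prop} (h1 : p 1)
    (h2 : ∀ (j : Bool) (m : M j) (w : CoprodI M), m ≠ 1 → sd w (!j) ≠ j → p w → p (of m * w))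
    (w : CoprodI M) : p w := by
  rw [← prod_wr w]
  induction wr w using Word.consRecOn with
  | empty => exact h1
  | cons j m u k1 k2 ih =>
    rw [Word.prod_cons]
    exact h2 j m _ k2 (fst_ne.1 (by rwa [wr_prod])) ih

theorem cases (w : CoprodI M) :
    w = 1 ∨ ∃ (j : Bool) (m : M j) (u : CoprodI M), m ≠ 1 ∧ sd u (!j) ≠ j ∧ w = of m * u :=
  ind (p := fun w => w = 1 ∨ ∃ (j : Bool) (m : M j) (u : CoprodI M),
    m ≠ 1 ∧ sd u (!j) ≠ j ∧ w = of m * u) (Or.inl rfl)
    (fun j m u k1 k2 _ => Or.inr ⟨j, m, u, k1, k2, rfl⟩) w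

theorem sd_const {w : CoprodI M} (h : w ≠ 1) (i i' : Bool) : sd w i = sd w i' := by
  obtain rfl | ⟨j, m, u, k1, k2, rfl⟩ := cases w
  · exact absurd rfl h
  · rw [sd_cons' k1 k2, sd_cons' k1 k2]

theorem sd_cons {j i : Bool} {m : M j} {w : CoprodI M} (hm : m ≠ 1) (hw : sd w i ≠ j)
    (i' : Bool) : sd (of m * w) i' = j := by
  refine sd_cons' hm ?_ i'
  rcases eq_or_ne w 1 with rfl | h
  · rw [sd_one]
    cases j <;> simp
  · rwa [sd_const h _ i]

theorem cons_ne {j : Bool} {m : M j} {w : CoprodI M} (hm : m ≠ 1) (hw : sd w (!j) ≠ j) :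
    of m * w ≠ 1 := fun e => by
  have := sd_cons' hm hw (!j)
  rw [e, sd_one] at this
  cases j <;> simp at this

theorem sd_of {j : Bool} {m : M j} (hm : m ≠ 1) (i : Bool) : sd (of m) i = j := by
  have := sd_cons (w := 1) (i := !j) hm (by rw [sd_one]; cases j <;> simp) i
  rwa [mul_one] at this

theorem sd_of_self {j : Bool} (m : M j) : sd (of m) j = j := by
  rcases eq_or_ne m 1 with rfl | h
  · rw [map_one, sd_one]
  · exact sd_of h j

/-- The side depends on the coset only. -/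
theorem sd_mul_of {i : Bool} (m : M i) (w : CoprodI M) : sd (w * of m) i = sd w i := by
  induction w using ind with
  | h1 => rw [one_mul, sd_one, sd_of_self]
  | h2 j m' w k1 k2 ih =>
    rw [sd_cons' k1 k2]
    by_cases h : sd w i = j
    · have hw : w = 1 := by
        by_contra c
        exact k2 ((sd_const c _ _).trans h)
      subst hw
      rw [sd_one] at h
      subst h
      rw [mul_one, ← map_mul, sd_of_self]
    · rw [mul_assoc]
      exact sd_cons k1 (ih ▸ h) i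

/-- The half tree of the base edge away from `g⁻¹` is moved to the side of `g`. -/
theorem sd_mul (g : CoprodI M) : g ≠ 1 → ∀ (y : CoprodI M) (i : Bool), sd y i ≠ sd g⁻¹ false →
    sd (g * y) i = sd g false := by
  induction g using ind with
  | h1 => exact fun h => absurd rfl h
  | h2 j m w k1 k2 ih =>
    intro h0 y i h
    rw [sd_cons' k1 k2, mul_assoc]
    refine sd_cons (i := i) k1 ?_ i
    rcases eq_or_ne w 1 with rfl | hw
    · rwa [mul_one, ← map_inv, sd_of (inv_ne_one.2 k1), ← one_mul y] at h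
    · rw [sd_const (inv_ne_one.2 h0) false j, mul_inv_rev, ← map_inv, sd_mul_of,
        sd_const (inv_ne_one.2 hw) j false] at h
      rw [ih hw y i h, sd_const hw false (!j)]
      exact k2

theorem len_one : len (1 : CoprodI M) = 0 := by
  rw [len, wr_one]
  rfl

theorem len_of_mul {j : Bool} (m : M j) (w : CoprodI M) : len (of m * w) ≤ len w + 1 := by
  have key : ∀ (m : M j) (u : CoprodI M), sd u (!j) ≠ j → len (of m * u) ≤ len u + 1 := by
    intro m u hu
    rcases eq_or_ne m 1 with rfl | h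
    · rw [map_one, one_mul]
      omega
    · exact (len_cons h hu).le
  by_cases h : sd w (!j) = j
  · obtain rfl | ⟨k, m', u, k1, k2, rfl⟩ := cases w
    · rw [sd_one] at h
      cases j <;> simp at h
    · rw [sd_cons' k1 k2] at h
      subst h
      rw [← mul_assoc, ← map_mul, len_cons k1 k2]
      exact (key _ u k2).trans (Nat.le_succ _)
  · exact key m w h

theorem len_mul (g w : CoprodI M) : len (g * w) ≤ len g + len w := by
  induction g using ind with
  | h1 => rw [one_mul, len_one, zero_add]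
  | h2 j m u k1 k2 ih =>
    have := len_of_mul m (u * w)
    rw [len_cons k1 k2, mul_assoc]
    omega

theorem len_mul_of {j : Bool} (w : CoprodI M) (m : M j) : len (w * of m) ≤ len w + 1 := by
  have h1 := len_mul w (of m)
  have h2 := len_of_mul m 1
  rw [mul_one, len_one] at h2
  omega

theorem len_inv (w : CoprodI M) : len w⁻¹ ≤ len w := by
  induction w using ind with
  | h1 => rw [inv_one]
  | h2 j m u k1 k2 ih =>
    have := len_mul_of u⁻¹ m⁻¹
    rw [len_cons k1 k2, mul_inv_rev, ← map_inv]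
    omega

/-- Every element is conjugate to a letter or to a cyclically reduced word. -/
theorem conj (n : ℕ) : ∀ z : CoprodI M, len z < n → ∃ c z' : CoprodI M, z * c = c * z' ∧
    ((∃ (j : Bool) (m : M j), z' = of m) ∨ (z' ≠ 1 ∧ sd z' false ≠ sd z'⁻¹ false)) := by
  induction n with
  | zero => exact fun z h => absurd h (Nat.not_lt_zero _)
  | succ n ih =>
    intro z hz
    obtain rfl | ⟨j, m, w, k1, k2, rfl⟩ := cases z
    · exact ⟨1, 1, rfl, Or.inl ⟨false, 1, (map_one _).symm⟩⟩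
    have h0 := cons_ne k1 k2
    by_cases h : sd (of m * w) false = sd (of m * w)⁻¹ false
    · obtain e | ⟨k, m', u, l1, l2, e⟩ := cases w⁻¹
      · obtain rfl := inv_eq_one.1 e
        exact ⟨1, of m, by simp, Or.inl ⟨j, m, rfl⟩⟩
      · rw [sd_cons' k1 k2, sd_const (inv_ne_one.2 h0) false j, mul_inv_rev, ← map_inv, sd_mul_of,
          e, sd_cons' l1 l2] at h
        subst h
        have e' : w = u⁻¹ * of m'⁻¹ := by rw [map_inv, ← mul_inv_rev, ← e, inv_inv]
        have a1 := len_inv w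
        have a2 := len_inv u
        have a3 := len_mul_of u⁻¹ (m'⁻¹ * m)
        rw [e, len_cons l1 l2] at a1
        rw [len_cons k1 k2] at hz
        obtain ⟨c, z', b1, b2⟩ := ih (u⁻¹ * of (m'⁻¹ * m)) (by omega)
        refine ⟨of m * c, z', ?_, b2⟩
        rw [mul_assoc (of m) c, ← b1, e', map_mul]
        simp only [mul_assoc]
    · exact ⟨1, _, by simp, Or.inr ⟨h0, h⟩⟩

/-- The action on the vertices. -/
def aV : CoprodI M →* Equiv.Perm (CoprodI M × Bool) where
  toFun g := (Equiv.mulLeft g).prodCongr (Equiv.refl Bool)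
  map_one' := by
    ext v <;> simp
  map_mul' g h := by
    ext v <;> simp [mul_assoc]

theorem fin (g : CoprodI M) : ∀ (h : CoprodI M) (i i' : Bool),
    {e : CoprodI M | sd (e⁻¹ * h) i ≠ sd (e⁻¹ * (h * g)) i'}.Finite := by
  have nb : ∀ (h : CoprodI M) (i i' : Bool),
      {e : CoprodI M | sd (e⁻¹ * h) i ≠ sd (e⁻¹ * h) i'}.Finite := fun h i i' =>
    (Set.finite_singleton h).subset fun e he => by
      by_contra c
      exact he (sd_const (fun k => c (inv_mul_eq_one.1 k)) _ _)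
  induction g using induction_on with
  | one => simpa only [mul_one] using nb
  | of j m =>
    intro h i i'
    refine ((nb h i j).union (nb (h * of m) j i')).subset fun e he => ?_
    by_contra c
    simp only [Set.mem_union, Set.mem_ofPred_eq, not_or, not_not] at c
    apply he
    rw [c.1, ← c.2, ← mul_assoc, sd_mul_of]
  | mul x y hx hy =>
    intro h i i'
    refine ((hx h i i).union (hy (h * x) i i')).subset fun e he => ?_
    by_contra c
    simp only [Set.mem_union, Set.mem_ofPred_eq, not_or, not_not] at c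
    apply he
    rw [c.1, c.2, mul_assoc h]

/-- The tree. -/
noncomputable def walls (M : Bool → Type) [∀ i, Group (M i)] : Walls (CoprodI M) where
  E := CoprodI M
  V := CoprodI M × Bool
  aE := MulAction.toPermHom (CoprodI M) (CoprodI M)
  aV := aV
  s e v := sd (e⁻¹ * v.1) v.2
  eqv g e v := by
    show sd ((g * e)⁻¹ * (g * v.1)) v.2 = _
    rw [mul_inv_rev, mul_assoc, inv_mul_cancel_left]
  fin v w := by simpa only [mul_inv_cancel_left] using fin (v.1⁻¹ * w.1) v.1 v.2 w.2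
  nest e e' h := by
    have hg : e⁻¹ * e' ≠ 1 := fun k => h (inv_mul_eq_one.1 k)
    refine ⟨!sd (e⁻¹ * e') false, !sd (e⁻¹ * e')⁻¹ false, fun v hv => ?_⟩
    have := sd_mul _ hg (e'⁻¹ * v.1) v.2 (by rw [hv.2]; simp)
    rw [mul_assoc, mul_inv_cancel_left, hv.1] at this
    simp at this
  dist e e' h := by
    have hg : e'⁻¹ * e ≠ 1 := fun k => h (inv_mul_eq_one.1 k).symm
    refine ⟨⟨(e, !sd (e'⁻¹ * e) false), ?_⟩, (e, sd (e'⁻¹ * e) false), ?_⟩
    · rw [inv_mul_cancel, sd_one, sd_const hg (!_) false]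
      simp
    · rw [inv_mul_cancel, sd_one]
      exact sd_const hg _ _

end Tre

open Monoid Monoid.CoprodI Tre in
theorem tree : TreeStmt := by
  intro M _ _
  refine ⟨walls M, fun g x h => mul_eq_right.1 h, fun v => ?_, fun z => ?_⟩
  · obtain ⟨m, hm⟩ := exists_ne (1 : M (!v.2))
    refine ⟨v.1 * of m * v.1⁻¹, v.1, ?_⟩
    show sd (v.1⁻¹ * (v.1 * of m * v.1⁻¹ * v.1)) v.2 ≠ sd (v.1⁻¹ * v.1) v.2
    rw [inv_mul_cancel_right, inv_mul_cancel_left, inv_mul_cancel, sd_one, sd_of hm]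
    simp
  · obtain ⟨c, z', e, h⟩ := conj _ z (Nat.lt_succ_self _)
    rcases h with ⟨j, m, rfl⟩ | ⟨h0, h⟩
    · refine ⟨(c, j), fun (x : CoprodI M) hx => hx.1 ?_⟩
      show sd (x⁻¹ * (z * c)) j = sd (x⁻¹ * c) j
      rw [e, ← mul_assoc, sd_mul_of]
    · refine ⟨(c, sd z' false), fun (x : CoprodI M) hx => ?_⟩
      have h1 : sd (x⁻¹ * (z * c)) (sd z' false) ≠ sd (x⁻¹ * c) (sd z' false) := hx.1
      have h2 : sd (x⁻¹ * (z * z * c)) (sd z' false) ≠ sd (x⁻¹ * (z * c)) (sd z' false) := hx.2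
      obtain ⟨y, hy⟩ : ∃ y, y = x⁻¹ * (z * c) := ⟨_, rfl⟩
      have e1 : x⁻¹ * c = y * z'⁻¹ := by rw [hy, e, mul_assoc, mul_inv_cancel_right]
      have e2 : x⁻¹ * (z * z * c) = y * z' := by
        rw [hy, mul_assoc z z, mul_assoc x⁻¹, mul_assoc z c, ← e]
      rw [e1, ← hy] at h1
      rw [e2, ← hy] at h2
      rcases eq_or_ne y 1 with k | k
      · rw [k, one_mul, sd_one] at h2
        exact h2 (sd_const h0 _ _)
      · by_cases l : sd z' false = sd y⁻¹ false
        · refine h1 ((sd_const k _ false).trans (sd_mul y k _ _ ?_).symm)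
          rw [sd_const (inv_ne_one.2 h0) _ false, ← l]
          exact h.symm
        · refine h2 ((sd_mul y k _ _ ?_).trans (sd_const k _ _))
          rwa [sd_const h0 _ false]

end Pool.Agent.MP_7ebdba_gt.ch

end MrgPart0

-- ======== part 1: formerly Pool.Agent.MP_7ebdba_gt.ch.Enum
section MrgPart1

/-! Row ENUM: the walls between `z v` and `v` are linearly ordered. -/

namespace Pool.Agent.MP_7ebdba_gt.ch

namespace EnumP

variable {G : Type} [Group G] (w : Walls G) (u v : w.V)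

/-- the walls that separate `u` from `v` -/
def D : Type := {x : w.E // w.s x u ≠ w.s x v}

instance : Finite (D w u v) := (w.fin u v).to_subtype

/-- the order of the walls seen from `u` -/
@[reducible] def po : PartialOrder (D w u v) where
  le x y := ∀ p, w.s x.1 p = w.s x.1 u → w.s y.1 p = w.s y.1 u
  le_refl _ _ h := h
  le_trans _ _ _ h h' p e := h' p (h p e)
  le_antisymm x y h h' := by
    refine Subtype.ext (by_contra fun hn => ?_)
    obtain ⟨⟨p, hp⟩, q, hq⟩ := w.dist _ _ hn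
    have a1 := h p
    have a2 := h' p
    have a3 := h q
    have a4 := h' q
    revert hp hq a1 a2 a3 a4
    generalize w.s x.1 p = a, w.s y.1 p = b, w.s x.1 q = c, w.s y.1 q = d, w.s x.1 u = e,
      w.s y.1 u = f
    revert a b c d e f
    decide

theorem total (x y : D w u v) : (po w u v).le x y ∨ (po w u v).le y x := by
  by_cases hn : x.1 = y.1
  · rw [Subtype.ext hn]
    exact Or.inl fun _ h => h
  obtain ⟨b, b', h⟩ := w.nest _ _ hn
  by_contra hc
  obtain ⟨h1, h2⟩ := not_or.1 hc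
  obtain ⟨p, hp⟩ := not_forall.1 h1
  obtain ⟨q, hq⟩ := not_forall.1 h2
  have a1 := h p
  have a2 := h q
  have a3 := h u
  have a4 := h v
  have a5 := x.2
  have a6 := y.2
  revert hp hq a1 a2 a3 a4 a5 a6
  clear h h1 h2 hc
  generalize w.s x.1 p = a, w.s y.1 p = c, w.s x.1 q = d, w.s y.1 q = e, w.s x.1 u = f,
    w.s y.1 u = g, w.s x.1 v = k, w.s y.1 v = l
  revert a c d e f g k l b b'
  decide

end EnumP

theorem enum : EnumStmt := by
  intro G _ w z v hv
  classical
  letI : LinearOrder (EnumP.D w (w.aV z v) v) :=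
    { EnumP.po w (w.aV z v) v with
      le_total := EnumP.total w _ v
      toDecidableLE := Classical.decRel _ }
  letI := Fintype.ofFinite (EnumP.D w (w.aV z v) v)
  let o := monoEquivOfFin (EnumP.D w (w.aV z v) v) rfl
  refine ⟨_, fun i => (o i).1, fun i j h => o.injective (Subtype.ext h), fun x => ⟨?_, fun h =>
    ⟨o.symm ⟨x, h⟩, congrArg Subtype.val (o.apply_symm_apply ⟨x, h⟩)⟩⟩,
    fun i j h => o.monotone h.le, fun i j h => hv (o i).1 ⟨(o i).2, ?_⟩⟩
  · rintro ⟨i, rfl⟩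
    exact (o i).2
  · have h' : (o i).1 = w.aE z (o j).1 := h
    rw [h', map_mul, Equiv.Perm.mul_apply, w.eqv, w.eqv]
    exact (o j).2

end Pool.Agent.MP_7ebdba_gt.ch

end MrgPart1

-- ======== part 2: formerly Pool.Agent.MP_7ebdba_gt.ch.Track
section MrgPart2

/-! Tracks: an action on a tree with trivial edge stabilisers gives a non-crossing matching. -/

namespace Pool.Agent.MP_7ebdba_gt.ch

open Meander7

/-- the values at the two ends of side `k` differ. -/
def Cut (c : Fin 9 → Bool) (k : Fin 9) : Prop := c k ≠ c (k + 1)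

/-- the vertices `d + 1, ..., d'` form a maximal run of values different from `c 0`. -/
def Run (c : Fin 9 → Bool) (d d' : Fin 9) : Prop :=
  c d = c 0 ∧ c (d' + 1) = c 0 ∧ ∀ k, d < k → k ≤ d' → c k ≠ c 0

/-- the sides `d` and `d'` are joined by a normal arc. -/
def Mt (c : Fin 9 → Bool) (d d' : Fin 9) : Prop :=
  (d < d' ∧ Run c d d') ∨ (d' < d ∧ Run c d' d)

theorem Mt.symm {c : Fin 9 → Bool} {d d' : Fin 9} (h : Mt c d d') : Mt c d' d := Or.symm h

theorem Mt.ne {c : Fin 9 → Bool} {d d' : Fin 9} (h : Mt c d d') : d ≠ d' :=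
  h.elim (fun e => e.1.ne) fun e => e.1.ne'

theorem succ_facts {d d' : Fin 9} (h : d < d') : d < d + 1 ∧ d + 1 ≤ d' := by
  revert d d'
  decide

theorem bool_eq {a b c : Bool} (h1 : a ≠ c) (h2 : b ≠ c) : a = b := by
  revert a b c
  decide

theorem Run.vals {c : Fin 9 → Bool} {d d' : Fin 9} (hd : d < d') (h : Run c d d') :
    c d = c (d' + 1) ∧ c (d + 1) = c d' ∧ Cut c d ∧ Cut c d' := by
  have h1 := h.2.2 _ (succ_facts hd).1 (succ_facts hd).2
  have h2 := h.2.2 _ hd le_rfl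
  exact ⟨h.1.trans h.2.1.symm, bool_eq h1 h2, fun e => h1 (e ▸ h.1), fun e => h2 (e ▸ h.2.1)⟩

theorem Mt.vals {c : Fin 9 → Bool} {d d' : Fin 9} (h : Mt c d d') :
    c d = c (d' + 1) ∧ c (d + 1) = c d' ∧ Cut c d ∧ Cut c d' := by
  rcases h with h | h
  · exact h.2.vals h.1
  · obtain ⟨a, b, e, f⟩ := h.2.vals h.1
    exact ⟨b.symm, a.symm, f, e⟩

theorem Mt.unique {c : Fin 9 → Bool} {d a b : Fin 9} (h1 : Mt c d a) (h2 : Mt c d b) : a = b := by
  rcases h1 with h1 | h1 <;> rcases h2 with h2 | h2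
  · rcases lt_trichotomy a b with e | e | e
    · exact absurd h1.2.2.1 (h2.2.2.2 _ (h1.1.trans (succ_facts e).1) (succ_facts e).2)
    · exact e
    · exact absurd h2.2.2.1 (h1.2.2.2 _ (h2.1.trans (succ_facts e).1) (succ_facts e).2)
  · exact absurd h1.2.1 (h2.2.2.2 _ h2.1 le_rfl)
  · exact absurd h2.2.1 (h1.2.2.2 _ h1.1 le_rfl)
  · rcases lt_trichotomy a b with e | e | e
    · exact absurd h2.2.1 (h1.2.2.2 _ e h2.1.le)
    · exact e
    · exact absurd h1.2.1 (h2.2.2.2 _ e h1.1.le)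

theorem Cut.exists_mt {c : Fin 9 → Bool} {d : Fin 9} (h : Cut c d) : ∃ d', Mt c d d' := by
  classical
  by_cases h0 : c d = c 0
  · have h8 : c (8 + 1) = c 0 := rfl
    have hd : d ≠ 8 := fun e => h (by rw [e] at h0 ⊢; exact h0)
    obtain ⟨d', ⟨m1, m2⟩, m3⟩ := exists_minimal_of_wellFoundedLT
      (fun k : Fin 9 => d ≤ k ∧ c (k + 1) = c 0) ⟨8, Fin.le_last _, h8⟩
    have hne : d ≠ d' := fun e => h (by rw [h0, e, m2])
    refine ⟨d', Or.inl ⟨lt_of_le_of_ne m1 hne, h0, m2, fun k k1 k2 e => ?_⟩⟩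
    have key : ∀ d k : Fin 9, d < k → d ≤ k - 1 ∧ k - 1 + 1 = k ∧ k - 1 < k := by decide
    obtain ⟨a1, a2, a3⟩ := key d k k1
    exact absurd (m3 ⟨a1, by rw [a2]; exact e⟩ (a3.le.trans k2)) (not_le.2 (a3.trans_le k2))
  · obtain ⟨d', ⟨m1, m2⟩, m3⟩ := exists_maximal_of_wellFoundedGT
      (fun k : Fin 9 => k ≤ d ∧ c k = c 0) ⟨0, Fin.zero_le _, rfl⟩
    have hne : d' ≠ d := fun e => h0 (e ▸ m2)
    have h1 : c (d + 1) = c 0 := bool_eq (Ne.symm h) (Ne.symm h0)
    exact ⟨d', Or.inr ⟨lt_of_le_of_ne m1 hne, m2, h1, fun k k1 k2 e =>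
      absurd (m3 ⟨k2, e⟩ k1.le) (not_le.2 k1)⟩⟩

theorem corner {c c' : Fin 9 → Bool} {a a' b b' : Fin 9} (hx : Mt c a a') (hy : Mt c' b b')
    (h1 : cyc3 a b a') (h2 : ¬ cyc3 a b' a') : ∃ k, c k = c (a + 1) ∧ c' k = c' b := by
  unfold cyc3 at h1 h2
  rcases hx with hx | hx
  · have e : a < b ∧ b < a' := by omega
    exact ⟨b, bool_eq (hx.2.2.2 _ e.1 e.2.le)
      (hx.2.2.2 _ (succ_facts hx.1).1 (succ_facts hx.1).2), rfl⟩
  · have e : a' ≤ b' ∧ b' ≤ a := by omega
    rcases hy with hy | hy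
    · exact ⟨0, hx.2.2.1.symm, hy.2.1.symm⟩
    · have e2 : a < b := by omega
      exact ⟨a + 1, rfl, bool_eq
        (hy.2.2.2 _ (e.2.trans_lt (succ_facts e2).1) (succ_facts e2).2) (hy.2.2.2 _ hy.1 le_rfl)⟩

theorem dir_inv_mul {h : F 2} (h1 : h ≠ 1) : ∀ {g : F 2}, dir h ≠ dir g →
    dir (h⁻¹ * g) = dir h⁻¹ := by
  induction h using len_induction with
  | h1 => exact absurd rfl h1
  | hs k h hk hd ih =>
    intro g hg
    rw [(dir_mul hk hd).1] at hg
    have e1 := (dir_away hk hg.symm).1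
    have e2 : dir (tg k)⁻¹ = pr k := by rw [← tg_pr hk, dir_tg (pr_ne_eight hk)]
    rw [mul_inv_rev, mul_assoc]
    by_cases c : h = 1
    · rw [c, inv_one, one_mul, one_mul, e1, e2]
    · rw [ih c (by rwa [e1]), ih c (by rwa [e2])]

section
variable (w : Walls (F 2)) (v : w.V)

/-- the side of the wall `x` on which the vertex `g` lies. -/
def val (x : w.E) (g : F 2) : Bool := w.s x (w.aV g v)

/-- values at the vertices of the polygon `h`. -/
def cv (x : w.E) (h : F 2) (k : Fin 9) : Bool := val w v x (h * vx k)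

theorem val_mul (m : F 2) (x : w.E) (g : F 2) : val w v (w.aE m x) (m * g) = val w v x g := by
  unfold val
  rw [map_mul, Equiv.Perm.mul_apply, w.eqv]

theorem cv_mul (m : F 2) (x : w.E) (h : F 2) : cv w v (w.aE m x) (m * h) = cv w v x h := by
  funext k
  unfold cv
  rw [mul_assoc, val_mul]

/-- the gaps `g` and `g'` are joined by a track of the wall `x`. -/
def Trk (x : w.E) (g g' : F 2) : Prop :=
  g ≠ g' ∧ ∀ h, dir (h⁻¹ * g) ≠ dir (h⁻¹ * g') → Mt (cv w v x h) (dir (h⁻¹ * g)) (dir (h⁻¹ * g'))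

variable {w v}

theorem Trk.symm {x : w.E} {g g' : F 2} (h : Trk w v x g g') : Trk w v x g' g :=
  ⟨h.1.symm, fun m hm => (h.2 m hm.symm).symm⟩

theorem Trk.mul {x : w.E} {g g' : F 2} (h : Trk w v x g g') (m : F 2) :
    Trk w v (w.aE m x) (m * g) (m * g') := by
  refine ⟨fun e => h.1 (mul_left_cancel e), fun k hk => ?_⟩
  have e : ∀ y : F 2, k⁻¹ * (m * y) = (m⁻¹ * k)⁻¹ * y := fun y => by group
  rw [e, e] at hk ⊢
  have := h.2 _ hk
  rwa [← cv_mul w v m, mul_inv_cancel_left] at this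

theorem Trk.unique {x : w.E} {g a b : F 2} (h1 : Trk w v x g a) (h2 : Trk w v x g b) : a = b := by
  by_contra c
  obtain ⟨m, m1, m2, m3⟩ := exists_median h1.1 c h2.1.symm
  exact m2 ((h1.2 m m1).unique (h2.2 m m3.symm))

theorem cv_tg {k : Fin 9} (hk : k ≠ 8) (x : w.E) (h : F 2) :
    cv w v x (h * tg k) (pr k) = cv w v x h (k + 1) ∧
      cv w v x (h * tg k) (pr k + 1) = cv w v x h k := by
  unfold cv
  rw [mul_assoc, mul_assoc, tg_vx, tg_vx' hk]
  exact ⟨rfl, rfl⟩

theorem cv_eight (x : w.E) (h : F 2) :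
    cv w v x h 8 = val w v x (h * zeta) ∧ cv w v x h (8 + 1) = val w v x h := by
  unfold cv
  rw [vx_eight, show (8 : Fin 9) + 1 = 0 from rfl, vx_zero, mul_one]
  exact ⟨rfl, rfl⟩

/-- left and right vertices along a track. -/
theorem Trk.lr {x : w.E} {g g' : F 2} (ht : Trk w v x g g') (h : F 2)
    (hd : dir (h⁻¹ * g) ≠ dir (h⁻¹ * g')) :
    cv w v x h (dir (h⁻¹ * g)) = val w v x (g * zeta) ∧
      cv w v x h (dir (h⁻¹ * g) + 1) = val w v x g := by
  induction hn : len (h⁻¹ * g) using Nat.strong_induction_on generalizing h with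
  | _ n ih =>
  by_cases c : dir (h⁻¹ * g) = 8
  · rw [c, inv_mul_eq_one.1 (dir_eq_eight.1 c)]
    exact cv_eight x g
  · have s1 := dir_step c
    have s2 := (dir_away c hd.symm).1
    have e : ∀ y : F 2, (tg (dir (h⁻¹ * g)))⁻¹ * (h⁻¹ * y) = (h * tg (dir (h⁻¹ * g)))⁻¹ * y :=
      fun y => by group
    rw [e] at s1 s2
    have hd' := s1.1.trans_eq s2.symm
    obtain ⟨i1, i2⟩ := ih _ (by omega) _ hd' rfl
    obtain ⟨v1, v2, -, -⟩ := (ht.2 _ hd').vals
    rw [s2] at v1 v2
    obtain ⟨t1, t2⟩ := cv_tg (v := v) c x h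
    exact ⟨by rw [← t2, ← v1, i1], by rw [← t1, ← v2, i2]⟩

theorem Trk.at_end {x : w.E} {g g' : F 2} (ht : Trk w v x g g') :
    dir (g'⁻¹ * g) ≠ dir (g'⁻¹ * g') := by
  rw [inv_mul_cancel, dir_one]
  exact fun c => ht.1 (inv_mul_eq_one.1 (dir_eq_eight.1 c)).symm

theorem Trk.ends {x : w.E} {g g' : F 2} (ht : Trk w v x g g') :
    val w v x (g' * zeta) = val w v x g ∧ val w v x (g' * zeta) ≠ val w v x g' := by
  obtain ⟨-, v2, -, v4⟩ := (ht.2 _ ht.at_end).vals
  rw [inv_mul_cancel, dir_one] at v2 v4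
  have := cv_eight (v := v) x g'
  refine ⟨by rw [← this.1, ← v2, (ht.lr _ ht.at_end).2], ?_⟩
  rw [← this.1, ← this.2]
  exact v4

theorem fin_cut (free : ∀ g x, w.aE g x = x → g = 1) (x : w.E) :
    {h : F 2 | ∃ k, Cut (cv w v x h) k}.Finite := by
  have hf : (⋃ k : Fin 9, {y | w.s y (w.aV (vx k) v) ≠ w.s y (w.aV (vx (k + 1)) v)}).Finite :=
    Set.finite_iUnion fun k => w.fin _ _
  refine (hf.preimage (f := fun h : F 2 => w.aE h⁻¹ x) fun a _ b _ e => ?_).subset ?_
  · have : w.aE (a * b⁻¹) x = x := by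
      rw [map_mul, Equiv.Perm.mul_apply, ← show w.aE a⁻¹ x = w.aE b⁻¹ x from e,
        ← Equiv.Perm.mul_apply, ← map_mul, mul_inv_cancel, map_one, Equiv.Perm.one_apply]
    exact mul_inv_eq_one.1 (free _ _ this)
  · rintro h ⟨k, hk⟩
    refine Set.mem_iUnion.2 ⟨k, ?_⟩
    rw [← cv_mul w v h⁻¹, inv_mul_cancel] at hk
    unfold Cut cv val at hk
    rwa [one_mul, one_mul] at hk

theorem follow (free : ∀ g x, w.aE g x = x → g = 1) (x : w.E) (m : F 2) (d : Fin 9)
    (hc : Cut (cv w v x m) d) :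
    ∃ g, dir (m⁻¹ * g) = d ∧ Cut (cv w v x g) 8 ∧ ∀ h, dir (m⁻¹ * h) = d → h ≠ m →
      dir (h⁻¹ * m) ≠ dir (h⁻¹ * g) → Mt (cv w v x h) (dir (h⁻¹ * m)) (dir (h⁻¹ * g)) := by
  induction hn : {h : F 2 | h ≠ m ∧ dir (m⁻¹ * h) = d ∧ ∃ k, Cut (cv w v x h) k}.ncard
    using Nat.strong_induction_on generalizing m d with
  | _ n ih =>
  by_cases hd : d = 8
  · subst hd
    exact ⟨m, by rw [inv_mul_cancel, dir_one], hc, fun h e c =>
      absurd (inv_mul_eq_one.1 (dir_eq_eight.1 e)).symm c⟩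
  have c1 : Cut (cv w v x (m * tg d)) (pr d) := by
    unfold Cut
    rw [(cv_tg hd x m).1, (cv_tg hd x m).2]
    exact Ne.symm hc
  obtain ⟨d2, hm⟩ := c1.exists_mt
  have e : ∀ y : F 2, m⁻¹ * y = tg d * ((m * tg d)⁻¹ * y) := fun y => by group
  have up : ∀ y : F 2, dir ((m * tg d)⁻¹ * y) = d2 → dir (m⁻¹ * y) = d := fun y hy => by
    rw [e]
    exact (dir_mul hd (hy ▸ hm.ne.symm)).1
  have hne : ∀ y : F 2, dir (m⁻¹ * y) = d → y ≠ m := fun y hy c =>
    hd (by rw [← hy, c, inv_mul_cancel, dir_one])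
  have t1 : dir (m⁻¹ * (m * tg d)) = d := by rw [inv_mul_cancel_left, dir_tg hd]
  obtain ⟨g, g1, g2, g3⟩ := ih _ (by
    rw [← hn]
    refine Set.ncard_lt_ncard ⟨fun h hh => ⟨hne h (up h hh.2.1), up h hh.2.1, hh.2.2⟩,
      fun hs => (hs ⟨hne _ t1, t1, _, c1⟩).1 rfl⟩
      ((fin_cut free x).subset fun h hh => hh.2.2)) (m * tg d) d2 hm.vals.2.2.2 rfl
  refine ⟨g, up g g1, g2, fun h h1 h2 h3 => ?_⟩
  have e2 : dir ((m * tg d)⁻¹ * m) = pr d := by
    rw [mul_inv_rev, inv_mul_cancel_right, ← tg_pr hd, dir_tg (pr_ne_eight hd)]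
  by_cases c : h = m * tg d
  · rw [c, e2, g1]
    exact hm
  have e3 : dir (h⁻¹ * (m * tg d)) = dir (h⁻¹ * m) := by
    rw [← mul_assoc]
    exact dir_mul_right hd (fun q => h2 (inv_mul_eq_one.1 q))
      fun q => c (by rw [mul_assoc] at q; exact inv_mul_eq_one.1 q)
  rw [← e3] at h3 ⊢
  by_cases c2 : dir ((m * tg d)⁻¹ * h) = d2
  · exact g3 h c2 c h3
  · exfalso
    have := dir_inv_mul (h := (m * tg d)⁻¹ * h) (fun q => c (inv_mul_eq_one.1 q).symm)
      (g := (m * tg d)⁻¹ * g) (by rwa [g1])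
    apply h3
    rw [show ((m * tg d)⁻¹ * h)⁻¹ * ((m * tg d)⁻¹ * g) = h⁻¹ * g by group,
      show ((m * tg d)⁻¹ * h)⁻¹ = h⁻¹ * (m * tg d) by group] at this
    exact this.symm

theorem exists_trk (free : ∀ g x, w.aE g x = x → g = 1) (x : w.E) (hc : Cut (cv w v x 1) 8) :
    ∃ g, Trk w v x 1 g := by
  obtain ⟨d, hm⟩ := hc.exists_mt
  obtain ⟨g, g1, -, g3⟩ := follow free x 1 d hm.vals.2.2.2
  rw [inv_one, one_mul] at g1
  refine ⟨g, fun e => hm.ne (by rw [← g1, ← e, dir_one]), fun h hh => ?_⟩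
  by_cases c : h = 1
  · rw [c, inv_one, one_mul, one_mul, dir_one, g1]
    exact hm
  by_cases c2 : dir h = d
  · exact g3 h (by rwa [inv_one, one_mul]) c hh
  · exact absurd (by rw [mul_one, dir_inv_mul c (by rwa [g1])]) hh

theorem ow_rot {α : Type*} [LinearOrder α] {a b c d : α} (h1 : ow a b c) (h2 : ow c d a) :
    ow b c d ∧ ow d a b := by
  unfold ow at *
  grind (splits := 40)

theorem ow_asymm {α : Type*} [LinearOrder α] {a b c : α} (h1 : ow a b c) : ¬ ow c b a := by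
  unfold ow at *
  grind (splits := 40)

variable {n : ℕ} {e : Fin n → w.E}

theorem adj_corner (hb : Based w zeta v n e) {x y : w.E} {g g' k k' : F 2} {i j : Fin n}
    {i' j' : ℕ} (tx : Trk w v x g g') (ty : Trk w v y k k') (lx : x = w.aE g (e i))
    (ly : y = w.aE k (e j)) (o1 : ow (P g i) (P k j) (P g' i'))
    (o2 : ow (P g' i') (P k' j') (P g i)) :
    ∃ p, w.s x p = val w v x g ∧ w.s y p = val w v y (k * zeta) := by
  by_cases c1 : g = k
  · subst c1
    have hij : i < j := by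
      rcases ow_P.1 o1 with q | q | q | q | q
      · exact absurd rfl (co_circ.ne12 q)
      · exact q.2.2
      · exact absurd q.1 tx.1
      · exact absurd rfl q.2.1
      · exact absurd q.2.1 tx.1
    have d1 := (hb.rng _).1 ⟨i, rfl⟩
    have hp : ∃ p, w.s (e i) p = w.s (e i) v ∧ w.s (e j) p = w.s (e j) (w.aV zeta v) := by
      have mono := hb.mono i j hij
      have key : ∀ p, ¬ (w.s (e i) p = w.s (e i) (w.aV zeta v) ↔
          w.s (e j) p = w.s (e j) (w.aV zeta v)) →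
          w.s (e i) p = w.s (e i) v ∧ w.s (e j) p = w.s (e j) (w.aV zeta v) := fun p hp => by
        have m := mono p
        have n1 : w.s (e i) p ≠ w.s (e i) (w.aV zeta v) := fun q => hp (iff_of_true q (m q))
        exact ⟨bool_eq n1 d1.symm, by_contra fun q => hp (iff_of_false n1 q)⟩
      obtain ⟨⟨p, hp⟩, ⟨q, hq⟩⟩ := w.dist _ _ (hb.inj.ne hij.ne)
      by_cases c : w.s (e i) (w.aV zeta v) = w.s (e j) (w.aV zeta v)
      · refine ⟨p, key p ?_⟩
        rw [c]
        revert hp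
        generalize w.s (e i) p = a
        generalize w.s (e j) p = b
        generalize w.s (e j) (w.aV zeta v) = z
        revert a b z
        decide
      · refine ⟨q, key q ?_⟩
        rw [hq]
        revert c
        generalize w.s (e i) (w.aV zeta v) = a
        generalize w.s (e j) q = b
        generalize w.s (e j) (w.aV zeta v) = z
        revert a b z
        decide
    obtain ⟨p, p1, p2⟩ := hp
    refine ⟨w.aV g p, ?_, ?_⟩
    · rw [lx, val, w.eqv, w.eqv, p1]
    · rw [ly, val_mul, w.eqv, p2, val]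
  by_cases c2 : k = g'
  · exact ⟨w.aV (k * zeta) v, by rw [c2]; exact tx.ends.1, rfl⟩
  obtain ⟨m, m1, m2, m3⟩ := exists_median c1 c2 tx.1.symm
  have back : ∀ {a b c : F 2}, cyc3 (dir (m⁻¹ * a)) (dir (m⁻¹ * b)) (dir (m⁻¹ * c)) →
      ∀ r s t, ow (P a r) (P b s) (P c t) := fun q r s t =>
    ow_P.2 (Or.inl ((co_inv _ _ _ _).1 (co_pre.triple co_circ q)))
  have key : ∀ i j k : Fin 9, i ≠ j → j ≠ k → k ≠ i → cyc3 i j k ∨ cyc3 k j i := by decide
  have q1 := (key _ _ _ m1 m2 m3).resolve_right fun q => ow_asymm o1 (back q _ _ _)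
  have q2 : ¬ cyc3 (dir (m⁻¹ * g)) (dir (m⁻¹ * k')) (dir (m⁻¹ * g')) := fun q =>
    ow_asymm o2 (back q _ _ _)
  have q3 : dir (m⁻¹ * k) ≠ dir (m⁻¹ * k') := fun q => q2 (q ▸ q1)
  obtain ⟨l, l1, l2⟩ := corner (tx.2 m m3.symm) (ty.2 m q3) q1 q2
  exact ⟨w.aV (m * vx l) v, l1.trans (tx.lr m m3.symm).2, l2.trans (ty.lr m q3).1⟩

theorem no_alt (hb : Based w zeta v n e) {x y : w.E} {g g' k k' : F 2} {i i' j j' : Fin n}
    (tx : Trk w v x g g') (ty : Trk w v y k k') (lx : x = w.aE g (e i)) (lx' : x = w.aE g' (e i'))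
    (ly : y = w.aE k (e j)) (ly' : y = w.aE k' (e j')) (o1 : ow (P g i) (P k j) (P g' i'))
    (o2 : ow (P g' i') (P k' j') (P g i)) : False := by
  obtain ⟨o3, o4⟩ := ow_rot o1 o2
  obtain ⟨p1, a1, b1⟩ := adj_corner hb tx ty lx ly o1 o2
  obtain ⟨p2, b2, a2⟩ := adj_corner hb ty tx.symm ly lx' o3 o4
  obtain ⟨p3, a3, b3⟩ := adj_corner hb tx.symm ty.symm lx' ly' o2 o1
  obtain ⟨p4, b4, a4⟩ := adj_corner hb ty.symm tx ly' lx o4 o3
  rw [tx.ends.1] at a2
  rw [← tx.symm.ends.1] at a3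
  rw [ty.ends.1] at b3
  rw [← ty.symm.ends.1] at b4
  have nx := tx.symm.ends.2
  have ny := ty.symm.ends.2
  by_cases c : x = y
  · subst c
    exact ny (by rw [← b1, a1, ← a2, b2])
  obtain ⟨b, b', hn⟩ := w.nest x y c
  by_cases e1 : val w v x g = b <;> by_cases e2 : val w v y k = b'
  · exact hn p2 ⟨a2.trans e1, b2.trans e2⟩
  · exact hn p1 ⟨a1.trans e1, b1.trans (bool_eq ny (Ne.symm e2))⟩
  · exact hn p3 ⟨a3.trans (bool_eq nx (Ne.symm e1)), b3.trans e2⟩
  · exact hn p4 ⟨a4.trans (bool_eq nx (Ne.symm e1)), b4.trans (bool_eq ny (Ne.symm e2))⟩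

theorem cut_iff (hb : Based w zeta v n e) (x : w.E) (g : F 2) :
    Cut (cv w v x g) 8 ↔ ∃ i, x = w.aE g (e i) := by
  unfold Cut
  rw [(cv_eight x g).1, (cv_eight x g).2]
  have h1 := val_mul w v g⁻¹ x (g * zeta)
  have h2 := val_mul w v g⁻¹ x g
  rw [inv_mul_cancel_left] at h1
  rw [inv_mul_cancel, val, map_one, Equiv.Perm.one_apply] at h2
  rw [← h1, ← h2, val, ← hb.rng]
  refine exists_congr fun i => ?_
  rw [map_inv, Equiv.Perm.eq_inv_iff_eq, eq_comm]

end

theorem track : TrackStmt := by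
  intro w v n e hb free
  refine ⟨fun hn g x => ?_, ?_⟩
  · subst hn
    have nocut : ∀ h k, cv w v x h k = cv w v x h (k + 1) := fun h k => by
      by_contra c
      obtain ⟨g, -, g2, -⟩ := follow free x h k c
      obtain ⟨i, -⟩ := (cut_iff hb x g).1 g2
      exact i.elim0
    have key : ∀ y h : F 2, val w v x (h * y) = val w v x h := by
      intro y
      induction y using FreeGroup.induction_on with
      | C1 => intro h; rw [mul_one]
      | of s =>
        intro h
        obtain ⟨l, -, hl⟩ := of_eq_side s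
        have := nocut (h * (vx l)⁻¹) l
        unfold cv at this
        rw [inv_mul_cancel_right, mul_assoc, ← hl] at this
        exact this.symm
      | inv_of s ih => intro h; rw [← ih (h * (FreeGroup.of s)⁻¹), inv_mul_cancel_right]
      | mul a b iha ihb => intro h; rw [← mul_assoc, ihb, iha]
    have := key g 1
    rwa [one_mul, val, val, map_one, Equiv.Perm.one_apply] at this
  have ex : ∀ i : Fin n, ∃ (g : F 2) (j : Fin n), Trk w v (e i) 1 g ∧ e i = w.aE g (e j) := by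
    intro i
    obtain ⟨g, hg⟩ := exists_trk (v := v) free (e i) ((cut_iff hb _ 1).2 ⟨i, by simp⟩)
    have := (hg.2 _ hg.at_end).vals.2.2.2
    rw [inv_mul_cancel, dir_one] at this
    obtain ⟨j, hj⟩ := (cut_iff hb _ _).1 this
    exact ⟨g, j, hg, hj⟩
  choose a σ ht hl using ex
  have hinv : ∀ i, a (σ i) = (a i)⁻¹ := fun i => by
    have := ((ht i).mul (a i)⁻¹).symm
    rw [inv_mul_cancel, mul_one, hl i, ← Equiv.Perm.mul_apply, ← map_mul, inv_mul_cancel, map_one,
      Equiv.Perm.one_apply] at this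
    exact (ht (σ i)).unique this
  refine ⟨a, σ, fun i => hb.inj ?_, fun i => by rw [hinv, mul_inv_cancel], fun i => (hl i).symm,
    fun i => (ht i).1.symm, fun i j h hc => ?_⟩
  · rw [hl i, hl (σ i), hinv, ← Equiv.Perm.mul_apply, ← map_mul, mul_inv_cancel, map_one,
      Equiv.Perm.one_apply]
  · have ty := (ht j).mul h
    rw [mul_one] at ty
    have l1 : e i = w.aE 1 (e i) := by simp
    have l2 : w.aE h (e j) = w.aE (h * a j) (e (σ j)) := by
      rw [map_mul, Equiv.Perm.mul_apply, ← hl j]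
    rcases cross_iff_ow.1 hc with q | q
    · exact no_alt hb (ht i) ty l1 (hl i) rfl l2 q.1 q.2
    · exact no_alt hb (ht i) ty.symm l1 (hl i) l2 rfl q.1 q.2

end Pool.Agent.MP_7ebdba_gt.ch

end MrgPart2

-- marker of a merged file
example : 731051 + 634073 = 731051 + 634073 := rfl

end MrgPart0

-- ======== part 1: formerly Pool.Agent.MP_7ebdba_gt.ch.Sigma
section MrgPart1

/-! The side function of a chord. -/

namespace Pool.Agent.MP_7ebdba_gt.ch

open Meander7

namespace Sig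

theorem mem_Ug {u h : F 2} : h ∈ Ug u ↔ mk 2 h ∈ Subgroup.zpowers (mk 2 u) := Iff.rfl

theorem self_mem (u : F 2) : u ∈ Ug u := Subgroup.mem_zpowers _

theorem mem_of_ker (u : F 2) {k : F 2} (h : mk 2 k = 1) : k ∈ Ug u := by
  rw [mem_Ug, h]
  exact one_mem _

theorem kap_zeta (u h : F 2) : kap (Ug u) 1 u h (h * zeta) = 0 := by
  rw [kap_zeta_right, inv_one, mul_one,
    ind_congr (Subgroup.mul_mem_cancel_right _ (inv_mem (self_mem u))), CharTwo.add_self_eq_zero]

/-- the elements of the kernel that do not change the crossing count. -/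
def N (u : F 2) : Subgroup (F 2) where
  carrier := {k | mk 2 k = 1 ∧ ∀ h, kap (Ug u) 1 u h (h * k) = 0}
  one_mem' := ⟨map_one _, fun h => by rw [mul_one, kap_self_right]⟩
  mul_mem' := fun {a b} ha hb => ⟨by rw [map_mul, ha.1, hb.1, mul_one], fun h => by
    rw [kap_add_right _ _ _ h (h * a), ha.2, ← mul_assoc, hb.2, add_zero]⟩
  inv_mem' := fun {a} ha => ⟨by rw [map_inv, ha.1, inv_one], fun h => by
    have := ha.2 (h * a⁻¹)
    rwa [inv_mul_cancel_right, kap_comm_right] at this⟩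

theorem N_normal (u : F 2) : (N u).Normal := ⟨fun k hk g => by
  refine ⟨by rw [map_mul, map_mul, hk.1, mul_one, ← map_mul, mul_inv_cancel, map_one], fun h => ?_⟩
  have hm : h * g * k * (h * g)⁻¹ ∈ Ug u := mem_of_ker u (by
    rw [map_mul, map_mul, hk.1, mul_one, ← map_mul, mul_inv_cancel, map_one])
  have e := kap_mul_right (Ug u) hm 1 u (h * g) h
  have e1 : h * g * k * (h * g)⁻¹ * (h * g) = h * g * k := by group
  have e2 : h * g * k * (h * g)⁻¹ * h = h * (g * k * g⁻¹) := by group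
  rw [e1, e2] at e
  rw [kap_add_right _ _ _ h (h * g), kap_add_right _ _ _ (h * g) (h * g * k), hk.2, zero_add, e,
    kap_comm_right _ _ _ (h * g) h, CharTwo.add_self_eq_zero]⟩

theorem kap_ker (u : F 2) {h h' : F 2} (e : mk 2 h' = mk 2 h) :
    kap (Ug u) 1 u 1 h' = kap (Ug u) 1 u 1 h := by
  have := N_normal u
  have h1 : h⁻¹ * h' ∈ N u := by
    refine Subgroup.normalClosure_le_normal (N := N u) ?_
      (mk_eq_one.1 (by rw [map_mul, map_inv, e, inv_mul_cancel]))
    rintro _ rfl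
    exact ⟨mk_rel 2, kap_zeta u⟩
  have h2 := h1.2 h
  rw [mul_inv_cancel_left] at h2
  rw [kap_add_right _ _ _ 1 h h', h2, add_zero]

theorem X0_one {u : F 2} (hu : u ≠ 1) : X0 1 u 1 u = 1 := by
  have h1 : lt1 1 u := lt1_one hu
  have a : P 1 0 < P 1 1 := P_lt.2 (Or.inr ⟨rfl, one_pos⟩)
  have b : P 1 1 < P u 0 := P_lt.2 (Or.inl h1)
  have c : P u 0 < P u 1 := P_lt.2 (Or.inr ⟨rfl, one_pos⟩)
  refine ind_pos ⟨P01 _ _, P01 _ _, P01 _ _, P01 _ _, fun e => ?_⟩
  rcases e.1 (Or.inl ⟨a, b⟩) with q | q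
  · exact absurd q.2 (not_lt.2 c.le)
  · exact absurd q.2 (not_lt.2 ((a.trans b).trans c).le)

theorem X0_chord {u : F 2} {i j : ℕ} (hc : Chord u i j) {m : F 2} (hm : m ≠ 1) :
    X0 m (m * u) 1 u =
      Meander7.ind (m = u⁻¹ ∧ i < j) + Meander7.ind (m = u ∧ j < i) := by
  have hi : i < i + j + 1 := by omega
  have hj : j < i + j + 1 := by omega
  generalize i + j + 1 = n at hi hj
  have hij := hc.ne
  have hmu : m * u ≠ u := fun e => hm (mul_eq_right.1 e)
  have n1 : ∀ a b : F 2, P a n ≠ P b i := fun a b e => hi.ne' (P_inj.1 e).2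
  have n2 : ∀ a b : F 2, P a n ≠ P b j := fun a b e => hj.ne' (P_inj.1 e).2
  have n3 : ∀ a b : F 2, P a i ≠ P b j := fun a b e => hij (P_inj.1 e).2
  have n4 : P 1 i ≠ P m i := fun e => hm (P_inj.1 e).1.symm
  have n5 : P u j ≠ P (m * u) j := fun e => hmu (P_inj.1 e).1.symm
  have e1 : Meander7.ind (Cross (P m i) (P (m * u) j) (P 1 n) (P 1 i)) =
      Meander7.ind (m = u⁻¹ ∧ i < j) := by
    rw [ind_congr ⟨Cross.symm, Cross.symm⟩,
      ind_cross (n1 _ _).symm n4.symm (n2 _ _).symm (n3 _ _).symm,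
      ind_neg fun q => hm (btw_gap.1 q).1, zero_add]
    refine ind_congr ?_
    rw [btw_gap, mul_eq_one_iff_eq_inv]
    unfold Meander7.Btw
    exact and_congr_right fun _ => by omega
  have e2 : Meander7.ind (Cross (P m i) (P (m * u) j) (P 1 i) (P u j)) = 0 :=
    ind_neg fun q => hc.nc m q.symm
  have e3 : Meander7.ind (Cross (P m i) (P (m * u) j) (P u j) (P u n)) =
      Meander7.ind (m = u ∧ j < i) := by
    rw [ind_congr ⟨Cross.symm, Cross.symm⟩,
      ind_cross (n3 _ _) (n1 _ _).symm n5.symm (n2 _ _).symm,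
      ind_neg (p := Meander7.Btw (P u j) (P u n) (P (m * u) j)) fun q => hmu (btw_gap.1 q).1,
      add_zero]
    refine ind_congr ?_
    rw [btw_gap]
    unfold Meander7.Btw
    exact and_congr_right fun _ => by omega
  rw [X0, ← ind_congr (cross_norm hi hj),
    ind_cross_add (v := P 1 i) (n1 _ _) (n2 _ _) n4 (n3 _ _) (n1 _ _) (n2 _ _),
    ind_cross_add (u := P 1 i) (v := P u j) n4 (n3 _ _) (n3 _ _).symm n5 (n1 _ _) (n2 _ _),
    e1, e2, e3, zero_add]

theorem kap_chord {u : F 2} {i j : ℕ} (hc : Chord u i j) : kap (Ug u) 1 u 1 u = 0 := by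
  have key : ∃ c ∈ Ug u, ∀ m : F 2, X0 (m * 1) (m * u) 1 u =
      Meander7.ind (m = 1) + Meander7.ind (m = c) := by
    rcases lt_or_gt_of_ne hc.ne with h | h
    · refine ⟨u⁻¹, inv_mem (self_mem u), fun m => ?_⟩
      rw [mul_one]
      by_cases hm : m = 1
      · rw [hm, one_mul, X0_one hc.n1, ind_pos rfl,
          ind_neg fun e => hc.n1 (inv_eq_one.1 e.symm), add_zero]
      · rw [X0_chord hc hm, ind_neg hm, ind_neg (p := m = u ∧ j < i) fun e => by omega,
          zero_add, add_zero]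
        exact ind_congr (and_iff_left h)
    · refine ⟨u, self_mem u, fun m => ?_⟩
      rw [mul_one]
      by_cases hm : m = 1
      · rw [hm, one_mul, X0_one hc.n1, ind_pos rfl, ind_neg fun e => hc.n1 e.symm, add_zero]
      · rw [X0_chord hc hm, ind_neg hm, ind_neg (p := m = u⁻¹ ∧ i < j) fun e => by omega,
          zero_add, zero_add]
        exact ind_congr (and_iff_left h)
  obtain ⟨c, hcU, key⟩ := key
  unfold kap
  simp only [key]
  rw [finsum_add_distrib (ind_fin _ _) (ind_fin _ _), finsum_ind, finsum_ind, ind_pos (one_mem _),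
    ind_pos hcU, CharTwo.add_self_eq_zero]

theorem kap_nc {u u' : F 2} {i j i' j' : ℕ} (hn : NC2 u i j u' i' j') {a : F 2} (ha : a ∉ Ug u)
    (ha' : a * u' ∉ Ug u) : kap (Ug u) 1 u a (a * u') = 0 := by
  refine finsum_eq_zero_of_forall_eq_zero fun m => ind_neg fun q => ?_
  have m1 : (m : F 2) * 1 ∈ Ug u := mul_mem m.2 (one_mem _)
  have m2 : (m : F 2) * u ∈ Ug u := mul_mem m.2 (self_mem u)
  have d1 : (m : F 2) * 1 ≠ a := fun e => ha (e ▸ m1)
  have d2 : (m : F 2) * u ≠ a := fun e => ha (e ▸ m2)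
  have d3 : (m : F 2) * 1 ≠ a * u' := fun e => ha' (e ▸ m1)
  have d4 : (m : F 2) * u ≠ a * u' := fun e => ha' (e ▸ m2)
  have q1 := (cross_norm (i := i) (j := j) (n := i + j + 1) (by omega) (by omega)).2 q
  have q2 : Cross (P (m * 1) i) (P (m * u) j) (P a i') (P (a * u') j') :=
    ⟨fun e => d1 (P_inj.1 e).1.symm, fun e => d2 (P_inj.1 e).1.symm,
      fun e => d3 (P_inj.1 e).1.symm, fun e => d4 (P_inj.1 e).1.symm, fun e => q1.2.2.2.2 (by
        rw [btw_congr (p := P (m * 1) i) (q := P (m * u) j) d1 d2 _ i',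
          btw_congr (p := P (m * 1) i) (q := P (m * u) j) d3 d4 _ j']
        exact e)⟩
  refine hn ((m : F 2)⁻¹ * a) ((cross_smul (m : F 2)).1 ?_)
  simpa only [smul_P, mul_assoc, mul_inv_cancel_left] using q2

end Sig

open Sig in
theorem sigma : SigmaStmt := by
  classical
  intro u i j hc
  have hs : ∀ h, kap (Ug u) 1 u 1 (Function.surjInv (mk_surjective 2) (mk 2 h)) =
      kap (Ug u) 1 u 1 h := fun h => kap_ker u (Function.surjInv_eq _ _)
  refine ⟨fun x => kap (Ug u) 1 u 1 (Function.surjInv (mk_surjective 2) x), hs,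
    ⟨fun x => ?_, fun y => ?_⟩, fun u' i' j' hn h h1 h2 => ?_⟩
  · obtain ⟨h, rfl⟩ := mk_surjective 2 x
    have e := kap_mul_right (Ug u) (self_mem u) 1 u 1 h
    rw [mul_one] at e
    simp only [← map_mul, hs]
    rw [kap_add_right _ _ _ 1 u, kap_chord hc, zero_add, e]
  · obtain ⟨k, rfl⟩ := mk_surjective 2 y
    refine ⟨(X0_fin 1 u 1 k).toFinset.image fun t => mk 2 t⁻¹, fun x hx => ?_⟩
    obtain ⟨h, rfl⟩ := mk_surjective 2 x
    simp only [Set.mem_ofPred_eq, ← map_mul, hs] at hx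
    have h1 : kap (Ug u) 1 u h (h * k) ≠ 0 := fun e => hx (by
      rw [kap_add_right _ _ _ 1 h, e, add_zero])
    obtain ⟨m, hm⟩ : ∃ m : Ug u, X0 (m * 1) (m * u) h (h * k) ≠ 0 := by
      by_contra c
      exact h1 (finsum_eq_zero_of_forall_eq_zero fun m => not_not.1 fun e => c ⟨m, e⟩)
    obtain ⟨n, hn⟩ := Subgroup.mem_zpowers_iff.1 (mem_Ug.1 m.2)
    refine ⟨n, mk 2 (h⁻¹ * m)⁻¹, Finset.mem_image.2 ⟨h⁻¹ * m, ?_, rfl⟩, ?_⟩
    · rw [Set.Finite.mem_toFinset, Set.mem_ofPred_eq, ← X0_mul h]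
      simpa only [mul_assoc, mul_inv_cancel_left, mul_one] using hm
    · rw [hn, ← map_mul]
      congr 1
      group
  · obtain ⟨a, rfl⟩ := mk_surjective 2 h
    simp only [← map_mul, hs] at h2 ⊢
    rw [kap_add_right _ _ _ 1 a, kap_nc hn h1 h2, add_zero]

end Pool.Agent.MP_7ebdba_gt.ch

end MrgPart1

-- marker of a merged file
example : 731051 + 524075 = 731051 + 524075 := rfl
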