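import Mathlib.Combinatorics.Matroid.Basic
import Mathlib.Algebra.Ring.IsFormallyReal
import Mathlib.Analysis.SpecialFunctions.Complex.Analytic
import Mathlib.Analysis.CStarAlgebra.Classes
import Mathlib.Analysis.RCLike.Sqrt
import Mathlib.Geometry.Manifold.Sheaf.Basic
import Pool.Agent.MP_7ebdba_gt.hb.Tube
import Pool.Agent.MP_7ebdba_gt.ss.Core
import Pool.Agent.MP_e1dc65_gt.Top
import Pool.Agent.MP_7ebdba_gt.ch.Sigma
import Pool.Agent.MP_7ebdba_gt.ch.Pinch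
import Pool.Agent.MP_7ebdba_gt.ch.Pd
import Pool.Agent.MP_7ebdba_gt.ch.Nt
import Pool.Agent.MP_7ebdba_gt.ch.Asm

-- ======== part 0: formerly Pool.Agent.MP_7ebdba_gt.sm.g.Tr
section MrgPart0

-- ======== part 0: formerly Pool.Agent.MP_7ebdba_gt.sm.Top
section MrgPart0

/-! Smooth form: the interface between the geometry and the group theory. -/

open Set

namespace Pool.Agent.MP_7ebdba_gt.sm

open MP_e1dc65_gt

/-- the core -/
def core (X : Fin 3 → Set S4) : Set S4 := {x | ∀ i, x ∈ X i}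

/-- the holonomy of the words in a family of loops -/
def ev {Y K α : Type} [TopologicalSpace Y] [Group K] {x : Y} (μ : ∀ x y : Y, Path x y → K)
    (L : α → Path x x) : FreeGroup α →* K := FreeGroup.lift fun a => μ x x (L a)

/-- eight loops in the core satisfy the surface relation; a word that dies in a suitable flat bundle
on a wall lies in `T i` -/
def Mark (X : Fin 3 → Set S4) (T : Tri 4) : Prop :=
  ∃ (x : S4) (L : Fin 4 × Bool → Path x x), (∀ a, In (L a) (core X)) ∧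
    (∀ (K : Type) [Group K] (μ : ∀ x y : S4, Path x y → K), Hol (core X) μ → ev μ L (rel 4) = 1) ∧
    ∀ i, ∃ (j : Fin 3) (K : Type) (_ : Group K) (ρ : ∀ x y : S4, Path x y → K),
      Hol (X j ∩ X (j + 1)) ρ ∧ ∀ w, ev ρ L w = 1 → mk 4 w ∈ T i

/-- a map to a free product with kernel in all three subgroups has its image in a conjugate of one
factor -/
def NoPinch (T : Tri 4) : Prop :=
  ∀ (M : Bool → Type) [∀ i, Group (M i)] (η : S 4 →* Monoid.CoprodI M), (∀ i, η.ker ≤ T i) →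
    ∃ (b : Bool) (w : Monoid.CoprodI M), ∀ g, ∃ m : M b, η g = w * Monoid.CoprodI.of m * w⁻¹

/-- block NEG -/
def NegStmt : Prop :=
  ∀ X T, Mark X T → NoPinch T → (∃ i g h, g * h * g⁻¹ * h⁻¹ ∉ T i) → ¬ Standard X

/-- row NP -/
def NpStmt : Prop :=
  ∀ r : S 2 →* F2, (¬ ch.Chain r → NoPinch (TT r)) ∧ ∃ i g h, g * h * g⁻¹ * h⁻¹ ∉ TT r i

/-- blocks MODEL, GLUE, HOL, ALG -/
def PosStmt : Prop :=
  ∃ X r, IsTrisection X 4 ![0, 2, 2] ∧ Mark X (TT r) ∧ ¬ ch.Chain r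

theorem smooth_of (h1 : NegStmt) (h2 : NpStmt) (h3 : PosStmt) : SmoothStmt := by
  obtain ⟨X, r, a, b, c⟩ := h3
  exact ⟨X, a, h1 X _ b ((h2 r).1 c) (h2 r).2⟩

end Pool.Agent.MP_7ebdba_gt.sm

end MrgPart0

-- ======== part 1: formerly Pool.Agent.MP_7ebdba_gt.sm.g.Ld
section MrgPart1

/-! Local diffeomorphisms of the round sphere and the transfer of Morse data. -/

open scoped ContDiff Topology
open Set Filter

noncomputable section

namespace Pool.Agent.MP_7ebdba_gt.sm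

/-- `e` is a local diffeomorphism of the sphere at `x`. -/
def LD (e : S4 → S4) (x : S4) : Prop :=
  ∃ f g : E 5 → E 5, ContDiffAt ℝ ∞ f x ∧ ContDiffAt ℝ ∞ g (e x) ∧
    (∀ᶠ y in 𝓝 x, (e y : E 5) = f y ∧ g (e y) = y) ∧ 𝓝 (e x) ≤ map e (𝓝 x)

theorem norm_coe (x : S4) : ‖(x : E 5)‖ = 1 := by simp

/-- radial projection to the sphere. -/
def rad (x₀ : S4) (v : E 5) : S4 := by
  classical
  exact if h : v = 0 then x₀ else ⟨‖v‖⁻¹ • v, by
    have := norm_ne_zero_iff.2 h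
    simp [norm_smul, this]⟩

theorem rad_coe (x₀ : S4) {v : E 5} (h : v ≠ 0) : (rad x₀ v : E 5) = ‖v‖⁻¹ • v := by
  simp [rad, h]

theorem coe_ne (x : S4) : (x : E 5) ≠ 0 := by
  intro h
  have := norm_coe x
  rw [h, norm_zero] at this
  exact zero_ne_one this

theorem rad_self (x₀ x : S4) : rad x₀ x = x := by
  apply Subtype.ext
  rw [rad_coe _ (coe_ne x), norm_coe, inv_one, one_smul]

theorem nz_cd (x : S4) : ContDiffAt ℝ ∞ (fun v : E 5 => ‖v‖⁻¹ • v) x :=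
  ((contDiffAt_norm ℝ (coe_ne x)).inv (by rw [norm_coe]; exact one_ne_zero)).smul contDiffAt_id

theorem rad_ev (x₀ x : S4) : ∀ᶠ v in 𝓝 (x : E 5), (rad x₀ v : E 5) = ‖v‖⁻¹ • v :=
  (eventually_ne_nhds (coe_ne x)).mono fun _ h => rad_coe x₀ h

theorem rad_tend (x₀ x : S4) : Tendsto (rad x₀) (𝓝 (x : E 5)) (𝓝 x) := by
  rw [tendsto_subtype_rng]
  have h := (nz_cd x).continuousAt.tendsto
  simp only [norm_coe, inv_one, one_smul] at h
  exact h.congr' ((rad_ev x₀ x).mono fun _ h => h.symm)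

theorem nz_fderiv (x : S4) {v : E 5} (hv : inner ℝ (x : E 5) v = 0) :
    fderiv ℝ (fun v : E 5 => ‖v‖⁻¹ • v) x v = v := by
  have h1 : DifferentiableAt ℝ (fun v : E 5 => ‖v‖) x :=
    (contDiffAt_norm ℝ (n := 1) (coe_ne x)).differentiableAt one_ne_zero
  have h0 : ‖(x : E 5)‖ ≠ 0 := by rw [norm_coe]; exact one_ne_zero
  have h2 : fderiv ℝ (fun v : E 5 => ‖v‖) x v = 0 := by
    have a := (h1.hasFDerivAt.pow 2).unique (hasStrictFDerivAt_norm_sq (x : E 5)).hasFDerivAt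
    have b := congrArg (fun L => L v) a
    simpa [norm_coe, hv] using b
  have h3 := ((hasDerivAt_inv h0).comp_hasFDerivAt _ h1.hasFDerivAt).smul
    (hasFDerivAt_id (x : E 5))
  have h4 := congrArg (fun L => L v) h3.fderiv
  simp only [add_apply, smul_apply,
    ContinuousLinearMap.smulRight_apply, h2] at h4
  refine Eq.trans ?_ (h4.trans ?_)
  · rfl
  · simp

/-- two smooth maps that agree on the sphere near `x` have the same tangential derivatives. -/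
theorem tan_congr {F : Type} [NormedAddCommGroup F] [NormedSpace ℝ F] {k k' : E 5 → F} {x : S4}
    (hk : DifferentiableAt ℝ k x) (hk' : DifferentiableAt ℝ k' x)
    (h : ∀ᶠ y : S4 in 𝓝 x, k y = k' y) {v : E 5} (hv : inner ℝ (x : E 5) v = 0) :
    fderiv ℝ k x v = fderiv ℝ k' x v := by
  have hn := (nz_cd x).differentiableAt (by simp)
  have e0 : ‖(x : E 5)‖⁻¹ • (x : E 5) = x := by simp
  have key : ∀ {k : E 5 → F}, DifferentiableAt ℝ k x →
      fderiv ℝ (k ∘ fun v : E 5 => ‖v‖⁻¹ • v) x v = fderiv ℝ k x v := by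
    intro k hk
    rw [fderiv_comp _ (by rw [e0]; exact hk) hn, ContinuousLinearMap.comp_apply, nz_fderiv x hv, e0]
  rw [← key hk, ← key hk']
  have : (k ∘ fun v : E 5 => ‖v‖⁻¹ • v) =ᶠ[𝓝 (x : E 5)] k' ∘ fun v : E 5 => ‖v‖⁻¹ • v := by
    filter_upwards [rad_ev x x, (rad_tend x x).eventually h] with v h1 h2
    simp only [Function.comp, ← h1, h2]
  rw [this.fderiv_eq]

theorem cd1 {F G : Type} [NormedAddCommGroup F] [NormedSpace ℝ F] [NormedAddCommGroup G]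
    [NormedSpace ℝ G] {f : F → G} {x : F} (h : ContDiffAt ℝ ∞ f x) : DifferentiableAt ℝ f x :=
  h.differentiableAt (by simp)

theorem val_tend (x : S4) : Tendsto (Subtype.val : S4 → E 5) (𝓝 x) (𝓝 (x : E 5)) :=
  continuous_subtype_val.continuousAt

namespace LD
variable {e e' : S4 → S4} {x : S4}

theorem tend (h : LD e x) : Tendsto e (𝓝 x) (𝓝 (e x)) := by
  obtain ⟨f, g, hf, -, h1, -⟩ := h
  rw [tendsto_subtype_rng, h1.self_of_nhds.1]
  exact (hf.continuousAt.tendsto.comp (val_tend x)).congr' (h1.mono fun _ h => h.1.symm)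

theorem congr (h : LD e x) (he : e' =ᶠ[𝓝 x] e) : LD e' x := by
  obtain ⟨f, g, hf, hg, h1, h2⟩ := h
  have e0 : e' x = e x := he.self_of_nhds
  refine ⟨f, g, hf, e0 ▸ hg, ?_, ?_⟩
  · filter_upwards [h1, he] with y a b
    rwa [b]
  · rwa [e0, map_congr he]

theorem id (x : S4) : LD (fun y => y) x :=
  ⟨fun y => y, fun y => y, contDiffAt_id, contDiffAt_id, Eventually.of_forall fun _ => ⟨rfl, rfl⟩,
    by simp⟩

theorem comp (h' : LD e' (e x)) (h : LD e x) : LD (fun y => e' (e y)) x := by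
  have ht := h.tend
  obtain ⟨f, g, hf, hg, h1, h2⟩ := h
  obtain ⟨f', g', hf', hg', h1', h2'⟩ := h'
  refine ⟨f' ∘ f, g ∘ g', ContDiffAt.comp _ (h1.self_of_nhds.1 ▸ hf') hf,
    ContDiffAt.comp _ (by rw [h1'.self_of_nhds.2]; exact hg) hg', ?_, ?_⟩
  · filter_upwards [h1, ht.eventually h1'] with y a b
    exact ⟨by rw [b.1, a.1]; rfl, by simp only [Function.comp, b.2, a.2]⟩
  · exact h2'.trans ((map_mono h2).trans (by rw [map_map]; rfl))

/-- the usual way to produce a local diffeomorphism: smooth formulas for the map and for a local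
inverse. -/
theorem of_inv {d : S4 → S4} {f g : E 5 → E 5} (hf : ContDiffAt ℝ ∞ f x)
    (hg : ContDiffAt ℝ ∞ g (e x)) (h1 : ∀ᶠ y in 𝓝 x, (e y : E 5) = f y ∧ d (e y) = y)
    (h2 : ∀ᶠ y in 𝓝 (e x), (d y : E 5) = g y ∧ e (d y) = y) : LD e x := by
  have ht : Tendsto e (𝓝 x) (𝓝 (e x)) := by
    rw [tendsto_subtype_rng, h1.self_of_nhds.1]
    exact (hf.continuousAt.tendsto.comp (val_tend x)).congr' (h1.mono fun _ h => h.1.symm)
  have ht' : Tendsto d (𝓝 (e x)) (𝓝 x) := by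
    rw [tendsto_subtype_rng]
    have a := (hg.continuousAt.tendsto.comp (val_tend (e x))).congr' (h2.mono fun _ h => h.1.symm)
    rwa [← h2.self_of_nhds.1, h1.self_of_nhds.2] at a
  refine ⟨f, g, hf, hg, ?_, ?_⟩
  · filter_upwards [h1, ht.eventually h2] with y a b
    exact ⟨a.1, by rw [← b.1, a.2]⟩
  · intro s hs
    filter_upwards [ht'.eventually hs, h2] with y a b
    have : e (d y) ∈ s := a
    rwa [b.2] at this

theorem symm {d : S4 → S4} (h : LD e x) (hd : ∀ᶠ y in 𝓝 x, d (e y) = y) : LD d (e x) := by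
  have ht := h.tend
  obtain ⟨f, g, hf, hg, h1, h2⟩ := h
  have e0 := hd.self_of_nhds
  refine ⟨g, f, hg, by rw [e0]; exact hf, ?_, ?_⟩
  · apply h2
    rw [mem_map]
    filter_upwards [h1, hd] with y a b
    exact ⟨by rw [b, a.2], by rw [b, a.1]⟩
  · rw [e0]
    intro s hs
    filter_upwards [ht.eventually hs, hd] with y a b
    have : d (e y) ∈ s := a
    rwa [b] at this

/-- the differential: a bijection of the tangent spaces that is compatible with functions. -/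
theorem push (h : LD e x) {v : E 5} (hv : inner ℝ (x : E 5) v = 0) :
    ∃ v', inner ℝ (e x : E 5) v' = 0 ∧ ∀ k k' : E 5 → ℝ, ContDiffAt ℝ ∞ k x →
      ContDiffAt ℝ ∞ k' (e x) → (∀ᶠ y in 𝓝 x, k' (e y) = k y) →
      fderiv ℝ k' (e x) v' = fderiv ℝ k x v := by
  obtain ⟨f, g, hf, -, h1, -⟩ := h
  have e0 := h1.self_of_nhds.1
  have key : ∀ k k' : E 5 → ℝ, ContDiffAt ℝ ∞ k x → ContDiffAt ℝ ∞ k' (e x) →
      (∀ᶠ y in 𝓝 x, k' (e y) = k y) → fderiv ℝ k' (e x) (fderiv ℝ f x v) = fderiv ℝ k x v := by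
    intro k k' hk hk' hh
    rw [e0] at hk' ⊢
    rw [← ContinuousLinearMap.comp_apply, ← fderiv_comp _ (cd1 hk') (cd1 hf)]
    refine tan_congr ((cd1 hk').comp _ (cd1 hf)) (cd1 hk) ?_ hv
    filter_upwards [h1, hh] with y a b
    rw [← b, a.1]
    rfl
  refine ⟨_, ?_, key⟩
  have := key (fun _ => 1) (fun y => ‖y‖ ^ 2) contDiffAt_const (contDiff_norm_sq ℝ).contDiffAt
    (Eventually.of_forall fun y => by simp)
  rw [(hasStrictFDerivAt_norm_sq _).hasFDerivAt.fderiv] at this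
  simpa using this

theorem crit (h : LD e x) {n i : ℕ} {es es' : List (E 5 → ℝ)} {k k' : E 5 → ℝ}
    (hc : Crit n es k i x) (hk : ∀ᶠ y in 𝓝 x, k' (e y) = k y)
    (he : ∀ᶠ y : S4 in 𝓝 x, (∀ c ∈ es, c y = 0) → ∀ c ∈ es', c (e y) = 0) :
    Crit n es' k' i (e x) := by
  obtain ⟨f, g, hf, hg, h1, -⟩ := h
  obtain ⟨φ, c, hφ, h0, hi, hs, hc, hn, ho⟩ := hc
  have ht : Tendsto (fun y => rad x (φ y)) (𝓝 0) (𝓝 x) :=
    (rad_tend x x).comp (h0 ▸ hφ.continuousAt.tendsto)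
  have hr : ∀ᶠ y in 𝓝 0, (rad x (φ y) : E 5) = φ y := hs.mono fun y a => by
    have : φ y = (⟨φ y, by simpa using a.1⟩ : S4) := rfl
    rw [this, rad_self]
  have hfφ : ContDiffAt ℝ ∞ (f ∘ φ) 0 := ContDiffAt.comp _ (by rw [h0]; exact hf) hφ
  have e0 : (f ∘ φ) 0 = e x := by rw [h1.self_of_nhds.1, ← h0]; rfl
  refine ⟨f ∘ φ, c, hfφ, e0, ?_, ?_, hc, hn, ?_⟩
  · have a : g ∘ f ∘ φ =ᶠ[𝓝 0] φ := by
      filter_upwards [ht.eventually h1, hr] with y a b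
      simp only [Function.comp]
      rw [← b, ← a.1, a.2]
    have b := a.fderiv_eq (𝕜 := ℝ)
    rw [fderiv_comp _ (by rw [e0]; exact cd1 hg) (cd1 hfφ)] at b
    rw [← b] at hi
    exact Function.Injective.of_comp hi
  · filter_upwards [ht.eventually h1, ht.eventually he, hr, hs] with y a b c d
    simp only [Function.comp]
    rw [← c, ← a.1]
    exact ⟨norm_coe _, b (by rw [c]; exact d.2)⟩
  · refine ho.congr' ?_ EventuallyEq.rfl
    filter_upwards [ht.eventually h1, ht.eventually hk, hr] with y a b c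
    simp only [Function.comp]
    rw [hk.self_of_nhds, ← c, ← a.1, b]

end LD

end Pool.Agent.MP_7ebdba_gt.sm

end
end MrgPart1

-- ======== part 2: formerly Pool.Agent.MP_7ebdba_gt.sm.g.Tr
section MrgPart2

/-! Regluing a trisection of the sphere along two embeddings. -/

open scoped ContDiff Topology
open Set Filter

noncomputable section

namespace Pool.Agent.MP_7ebdba_gt.sm

/-- the Morse data of `Handlebody`. -/
def Morse (n : ℕ) (es cs : List (E 5 → ℝ)) (g : ℕ) (k : E 5 → ℝ) (C0 C1 : Finset S4) : Prop :=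
  Sm k ∧ C1.card + 1 = C0.card + g ∧
    (∀ x ∈ C0, x ∈ Piece es [] ∧ (∀ c ∈ cs, c x < 0) ∧ Crit n es k 0 x) ∧
    (∀ x ∈ C1, x ∈ Piece es [] ∧ (∀ c ∈ cs, c x < 0) ∧ Crit n es k 1 x) ∧
    ∀ x ∈ Piece es cs, x ∉ C0 → x ∉ C1 → ∃ v, Tangent es x v ∧ 0 < fderiv ℝ k x v ∧
      ∀ c ∈ cs, c x = 0 → 0 < fderiv ℝ c x v

theorem handlebody_iff {n g : ℕ} {es cs : List (E 5 → ℝ)} : Handlebody n es cs g ↔
    IsConnected (Piece es cs) ∧ ∃ k C0 C1, Morse n es cs g k C0 C1 := Iff.rfl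

/-- two open sets that cover the sphere, embedded so that the images cover the sphere and meet
exactly along the images of the overlap. -/
structure Glue (W V : Set S4) (e1 e2 : S4 → S4) : Prop where
  oW : IsOpen W
  oV : IsOpen V
  cov : ∀ x, x ∈ W ∨ x ∈ V
  l1 : ∀ x ∈ W, LD e1 x
  l2 : ∀ x ∈ V, LD e2 x
  i1 : InjOn e1 W
  i2 : InjOn e2 V
  sur : ∀ y, (∃ x ∈ W, e1 x = y) ∨ ∃ x ∈ V, e2 x = y
  ov : ∀ x ∈ W, ∀ x' ∈ V, e1 x = e2 x' → x ∈ V ∧ x' ∈ W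
  ov1 : ∀ x ∈ W, x ∈ V → ∃ x' ∈ V, e1 x = e2 x'

/-- the function takes the same values at points that are glued. -/
def Compat (W V : Set S4) (e1 e2 : S4 → S4) (φ : E 5 → ℝ) : Prop :=
  ∀ x ∈ W, ∀ x' ∈ V, e1 x = e2 x' → φ x = φ x'

/-- `φ'` is the function on the reglued sphere that corresponds to `φ`. -/
structure Rel (W V : Set S4) (e1 e2 : S4 → S4) (φ φ' : E 5 → ℝ) : Prop where
  s : Sm φ
  s' : Sm φ'
  r1 : ∀ x ∈ W, φ' (e1 x) = φ x
  r2 : ∀ x ∈ V, φ' (e2 x) = φ x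

/-- the form of connectedness that survives regluing. -/
def Conn (W V P : Set S4) : Prop :=
  IsConnected (P ∩ V) ∧ ∀ x ∈ P ∩ W, ∃ S ⊆ P ∩ W, IsPreconnected S ∧ x ∈ S ∧ (S ∩ V).Nonempty

theorem Rel.neg {W V : Set S4} {e1 e2 : S4 → S4} {φ φ' : E 5 → ℝ} (h : Rel W V e1 e2 φ φ') :
    Rel W V e1 e2 (-φ) (-φ') :=
  ⟨fun x => (h.s x).neg, fun x => (h.s' x).neg, fun x hx => by simp [h.r1 x hx],
    fun x hx => by simp [h.r2 x hx]⟩

/-- one chart of a gluing. -/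
structure Rel1 (U : Set S4) (e : S4 → S4) (φ φ' : E 5 → ℝ) : Prop where
  s : Sm φ
  s' : Sm φ'
  r : ∀ x ∈ U, φ' (e x) = φ x

theorem f2_left {α : Type} {R : α → α → Prop} {l l' : List α} (h : List.Forall₂ R l l') :
    ∀ a ∈ l, ∃ b ∈ l', R a b := by
  induction h with
  | nil => simp
  | cons h _ ih =>
    intro c hc
    rcases List.mem_cons.1 hc with rfl | hc
    · exact ⟨_, List.mem_cons_self, h⟩
    · obtain ⟨b, hb, r⟩ := ih c hc
      exact ⟨b, List.mem_cons_of_mem _ hb, r⟩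

theorem f2_right {α : Type} {R : α → α → Prop} {l l' : List α} (h : List.Forall₂ R l l') :
    ∀ b ∈ l', ∃ a ∈ l, R a b := f2_left (R := flip R) h.flip

section One
variable {U : Set S4} {e : S4 → S4} {es es' cs cs' : List (E 5 → ℝ)} {x : S4}

theorem all_iff (h : List.Forall₂ (Rel1 U e) es es') (hx : x ∈ U) (p : ℝ → Prop) :
    (∀ c ∈ es', p (c (e x))) ↔ ∀ c ∈ es, p (c x) := by
  constructor
  · intro a c hc
    obtain ⟨b, hb, r⟩ := f2_left h c hc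
    exact r.r x hx ▸ a b hb
  · intro a c hc
    obtain ⟨b, hb, r⟩ := f2_right h c hc
    exact (r.r x hx).symm ▸ a b hb

theorem piece_iff (h : List.Forall₂ (Rel1 U e) es es') (h' : List.Forall₂ (Rel1 U e) cs cs')
    (hx : x ∈ U) : e x ∈ Piece es' cs' ↔ x ∈ Piece es cs :=
  and_congr (all_iff h hx (· = 0)) (all_iff h' hx (· ≤ 0))

theorem push1 (hU : IsOpen U) (hx : x ∈ U) (hl : LD e x) (h : List.Forall₂ (Rel1 U e) es es')
    {v : E 5} (hv : Tangent es x v) : ∃ v', Tangent es' (e x) v' ∧ ∀ k k', Rel1 U e k k' →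
      fderiv ℝ k' (e x) v' = fderiv ℝ k x v := by
  obtain ⟨v', h1, h2⟩ := hl.push hv.1
  have key : ∀ k k', Rel1 U e k k' → fderiv ℝ k' (e x) v' = fderiv ℝ k x v := fun k k' r =>
    h2 k k' (r.s _) (r.s' _) (Filter.Eventually.mono (hU.mem_nhds hx) r.r)
  refine ⟨v', ⟨h1, fun c hc => ?_⟩, key⟩
  obtain ⟨b, hb, r⟩ := f2_right h c hc
  rw [key _ _ r, hv.2 b hb]

theorem crit1 (hU : IsOpen U) (hx : x ∈ U) (hl : LD e x) (h : List.Forall₂ (Rel1 U e) es es')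
    (h' : List.Forall₂ (Rel1 U e) cs cs') {k k' : E 5 → ℝ} (hk : Rel1 U e k k') {n i : ℕ}
    (hc : x ∈ Piece es [] ∧ (∀ c ∈ cs, c x < 0) ∧ Crit n es k i x) :
    e x ∈ Piece es' [] ∧ (∀ c ∈ cs', c (e x) < 0) ∧ Crit n es' k' i (e x) :=
  ⟨(piece_iff h .nil hx).2 hc.1, (all_iff h' hx (· < 0)).2 hc.2.1,
    hl.crit hc.2.2 (Filter.Eventually.mono (hU.mem_nhds hx) hk.r)
      (Filter.Eventually.mono (hU.mem_nhds hx) fun _ hy => (all_iff h hy (· = 0)).2)⟩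

theorem out1 (hU : IsOpen U) (hx : x ∈ U) (hl : LD e x) (h : List.Forall₂ (Rel1 U e) es es')
    (h' : List.Forall₂ (Rel1 U e) cs cs') {k k' : E 5 → ℝ} (hk : Rel1 U e k k')
    (hc : ∃ v, Tangent es x v ∧ 0 < fderiv ℝ k x v ∧ ∀ c ∈ cs, c x = 0 → 0 < fderiv ℝ c x v) :
    ∃ v, Tangent es' (e x) v ∧ 0 < fderiv ℝ k' (e x) v ∧
      ∀ c ∈ cs', c (e x) = 0 → 0 < fderiv ℝ c (e x) v := by
  obtain ⟨v, h1, h2, h3⟩ := hc
  obtain ⟨v', a, b⟩ := push1 hU hx hl h h1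
  refine ⟨v', a, by rwa [b _ _ hk], fun c hc h0 => ?_⟩
  obtain ⟨d, hd, r⟩ := f2_right h' c hc
  rw [b _ _ r]
  exact h3 d hd (r.r x hx ▸ h0)

end One

namespace Glue
variable {W V : Set S4} {e1 e2 : S4 → S4} {es es' cs cs' : List (E 5 → ℝ)}

theorem exists_rel (h : Glue W V e1 e2) {φ : E 5 → ℝ} (hs : Sm φ) (hc : Compat W V e1 e2 φ) :
    ∃ φ', Rel W V e1 e2 φ φ' := by
  have ex : ∀ y, ∃ r : ℝ, (∀ x ∈ W, e1 x = y → r = φ x) ∧ ∀ x ∈ V, e2 x = y → r = φ x := by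
    intro y
    rcases h.sur y with ⟨x, hx, rfl⟩ | ⟨x, hx, rfl⟩
    · exact ⟨φ x, fun x' hx' e => by rw [h.i1 hx' hx e], fun x' hx' e => hc x hx x' hx' e.symm⟩
    · exact ⟨φ x, fun x' hx' e => (hc x' hx' x hx e).symm, fun x' hx' e => by rw [h.i2 hx' hx e]⟩
  choose ψ h1 h2 using ex
  let x₀ : S4 := ⟨EuclideanSpace.single 0 1, by simp⟩
  have key : ∀ (U : Set S4) (e : S4 → S4), IsOpen U → (∀ x ∈ U, ψ (e x) = φ x) → ∀ x ∈ U,
      LD e x → ContDiffAt ℝ ∞ (fun v => ψ (rad x₀ v)) (e x) := by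
    intro U e hU hr x hx ⟨f, g, _, hg, a, b⟩
    have c : ∀ᶠ y in 𝓝 (e x), ψ y = φ (g y) := by
      apply b
      rw [mem_map]
      filter_upwards [a, hU.mem_nhds hx] with y a1 a2
      change ψ (e y) = φ (g (e y))
      rw [a1.2, hr y a2]
    have e0 : ‖(e x : E 5)‖⁻¹ • (e x : E 5) = e x := by simp
    have d : ContDiffAt ℝ ∞ (φ ∘ g ∘ fun v : E 5 => ‖v‖⁻¹ • v) (e x) := by
      refine ContDiffAt.comp _ ?_ (ContDiffAt.comp _ (by rw [e0]; exact hg) (nz_cd _))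
      simp only [Function.comp, e0, a.self_of_nhds.2]
      exact hs x
    refine d.congr_of_eventuallyEq ?_
    filter_upwards [(rad_tend x₀ _).eventually c, rad_ev x₀ (e x)] with v a1 a2
    simp only [Function.comp, a1, a2]
  refine ⟨fun v => ψ (rad x₀ v), hs, fun y => ?_, fun x hx => ?_, fun x hx => ?_⟩
  · rcases h.sur y with ⟨x, hx, rfl⟩ | ⟨x, hx, rfl⟩
    · exact key W e1 h.oW (fun x hx => h1 _ x hx rfl) x hx (h.l1 x hx)
    · exact key V e2 h.oV (fun x hx => h2 _ x hx rfl) x hx (h.l2 x hx)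
  · rw [rad_self, h1 _ x hx rfl]
  · rw [rad_self, h2 _ x hx rfl]

theorem f1 (h : List.Forall₂ (Rel W V e1 e2) es es') : List.Forall₂ (Rel1 W e1) es es' :=
  h.imp fun _ _ r => ⟨r.s, r.s', r.r1⟩

theorem f2 (h : List.Forall₂ (Rel W V e1 e2) es es') : List.Forall₂ (Rel1 V e2) es es' :=
  h.imp fun _ _ r => ⟨r.s, r.s', r.r2⟩

theorem conn (h : Glue W V e1 e2) {P P' : Set S4} (h1 : ∀ x ∈ W, e1 x ∈ P' ↔ x ∈ P)
    (h2 : ∀ x ∈ V, e2 x ∈ P' ↔ x ∈ P) (hc : Conn W V P) : IsConnected P' := by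
  have c2 : IsConnected (e2 '' (P ∩ V)) :=
    hc.1.image _ fun x hx => (h.l2 x hx.2).tend.mono_left nhdsWithin_le_nhds
  obtain ⟨y₀, hy₀⟩ := c2.nonempty
  have s2 : e2 '' (P ∩ V) ⊆ P' := by
    rintro _ ⟨x, hx, rfl⟩
    exact (h2 x hx.2).2 hx.1
  refine ⟨⟨y₀, s2 hy₀⟩, isPreconnected_of_forall y₀ fun y hy => ?_⟩
  rcases h.sur y with ⟨x, hx, rfl⟩ | ⟨x, hx, rfl⟩
  · obtain ⟨S, hS, c1, hxS, x1, hx1, hx1V⟩ := hc.2 x ⟨(h1 x hx).1 hy, hx⟩
    obtain ⟨x', hx', ee⟩ := h.ov1 x1 (hS hx1).2 hx1V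
    have s1 : e1 '' S ⊆ P' := by
      rintro _ ⟨x, hx, rfl⟩
      exact (h1 x (hS hx).2).2 (hS hx).1
    refine ⟨e1 '' S ∪ e2 '' (P ∩ V), union_subset s1 s2, Or.inr hy₀, Or.inl ⟨x, hxS, rfl⟩, ?_⟩
    refine IsPreconnected.union (e1 x1) ⟨x1, hx1, rfl⟩ ⟨x', ⟨(h2 x' hx').1 ?_, hx'⟩, ee.symm⟩
      (c1.image _ fun x hx => (h.l1 x (hS hx).2).tend.mono_left nhdsWithin_le_nhds)
      c2.isPreconnected
    exact ee ▸ s1 ⟨x1, hx1, rfl⟩
  · exact ⟨_, s2, hy₀, ⟨x, ⟨(h2 x hx).1 hy, hx⟩, rfl⟩, c2.isPreconnected⟩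

theorem hb (h : Glue W V e1 e2) (hes : List.Forall₂ (Rel W V e1 e2) es es')
    (hcs : List.Forall₂ (Rel W V e1 e2) cs cs') {n g : ℕ} {k : E 5 → ℝ} {C0 C1 : Finset S4}
    (hk : Compat W V e1 e2 k) (hm : Morse n es cs g k C0 C1)
    (hC : ∀ x ∈ W, x ∈ V → x ∉ C0 ∧ x ∉ C1) (hc : Conn W V (Piece es cs)) :
    Handlebody n es' cs' g := by
  classical
  obtain ⟨m1, m2, m3, m4, m5⟩ := hm
  obtain ⟨k', r⟩ := h.exists_rel m1 hk
  have r1 : Rel1 W e1 k k' := ⟨r.s, r.s', r.r1⟩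
  have r2 : Rel1 V e2 k k' := ⟨r.s, r.s', r.r2⟩
  let e : S4 → S4 := fun x => if x ∈ V then e2 x else e1 x
  have inj : Function.Injective e := by
    intro x y hxy
    by_cases hx : x ∈ V <;> by_cases hy : y ∈ V <;> simp only [e, hx, hy, if_true, if_false] at hxy
    · exact h.i2 hx hy hxy
    · exact absurd (h.ov y ((h.cov y).resolve_right hy) x hx hxy.symm).1 hy
    · exact absurd (h.ov x ((h.cov x).resolve_right hx) y hy hxy).1 hx
    · exact h.i1 ((h.cov x).resolve_right hx) ((h.cov y).resolve_right hy) hxy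
  have cr : ∀ (C : Finset S4) i,
      (∀ x ∈ C, x ∈ Piece es [] ∧ (∀ c ∈ cs, c x < 0) ∧ Crit n es k i x) → ∀ x ∈ C.image e,
      x ∈ Piece es' [] ∧ (∀ c ∈ cs', c x < 0) ∧ Crit n es' k' i x := by
    intro C i hh y hy
    obtain ⟨x, hx, rfl⟩ := Finset.mem_image.1 hy
    by_cases hV : x ∈ V <;> simp only [e, hV, if_true, if_false]
    · exact crit1 h.oV hV (h.l2 x hV) (f2 hes) (f2 hcs) r2 (hh x hx)
    · have hW := (h.cov x).resolve_right hV
      exact crit1 h.oW hW (h.l1 x hW) (f1 hes) (f1 hcs) r1 (hh x hx)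
  refine ⟨h.conn (fun x hx => piece_iff (f1 hes) (f1 hcs) hx)
    (fun x hx => piece_iff (f2 hes) (f2 hcs) hx) hc, k', C0.image e, C1.image e, r.s', ?_,
    cr C0 0 m3, cr C1 1 m4, fun y hy n0 n1 => ?_⟩
  · rwa [Finset.card_image_of_injective _ inj, Finset.card_image_of_injective _ inj]
  rcases h.sur y with ⟨x, hx, rfl⟩ | ⟨x, hx, rfl⟩
  · refine out1 h.oW hx (h.l1 x hx) (f1 hes) (f1 hcs) r1
      (m5 x ((piece_iff (f1 hes) (f1 hcs) hx).1 hy) (fun a => ?_) fun a => ?_)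
    · have hV : x ∉ V := fun b => (hC x hx b).1 a
      exact n0 (Finset.mem_image.2 ⟨x, a, if_neg hV⟩)
    · have hV : x ∉ V := fun b => (hC x hx b).2 a
      exact n1 (Finset.mem_image.2 ⟨x, a, if_neg hV⟩)
  · exact out1 h.oV hx (h.l2 x hx) (f2 hes) (f2 hcs) r2
      (m5 x ((piece_iff (f2 hes) (f2 hcs) hx).1 hy)
        (fun a => n0 (Finset.mem_image.2 ⟨x, a, if_pos hx⟩))
        fun a => n1 (Finset.mem_image.2 ⟨x, a, if_pos hx⟩))

/-- transfer of a transversality clause. -/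
theorem trans (h : Glue W V e1 e2) (hes : List.Forall₂ (Rel W V e1 e2) es es') {φ φ' : E 5 → ℝ}
    (r : Rel W V e1 e2 φ φ') {p p' : S4 → Prop} (h1 : ∀ x ∈ W, p' (e1 x) → p x)
    (h2 : ∀ x ∈ V, p' (e2 x) → p x) (ht : ∀ x, p x → ∃ v, Tangent es x v ∧ fderiv ℝ φ x v ≠ 0)
    (y : S4) (hy : p' y) : ∃ v, Tangent es' y v ∧ fderiv ℝ φ' y v ≠ 0 := by
  rcases h.sur y with ⟨x, hx, rfl⟩ | ⟨x, hx, rfl⟩
  · obtain ⟨v, a, b⟩ := ht x (h1 x hx hy)
    obtain ⟨v', c, d⟩ := push1 h.oW hx (h.l1 x hx) (f1 hes) a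
    exact ⟨v', c, by rwa [d _ _ ⟨r.s, r.s', r.r1⟩]⟩
  · obtain ⟨v, a, b⟩ := ht x (h2 x hx hy)
    obtain ⟨v', c, d⟩ := push1 h.oV hx (h.l2 x hx) (f2 hes) a
    exact ⟨v', c, by rwa [d _ _ ⟨r.s, r.s', r.r2⟩]⟩

/-- a piece that stays away from `W` needs no compatibility. -/
theorem hb_far (h : Glue W V e1 e2) (hes : List.Forall₂ (Rel W V e1 e2) es es')
    (hcs : List.Forall₂ (Rel W V e1 e2) cs cs') {n g : ℕ} (hb : Handlebody n es cs g)
    (hd : Disjoint (Piece es cs) (closure W)) : Handlebody n es' cs' g := by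
  obtain ⟨hc, k, C0, C1, m1, m2, m3, m4, m5⟩ := hb
  have ct : ∀ c : E 5 → ℝ, Sm c → Continuous fun x : S4 => c x := fun c hc =>
    continuous_iff_continuousAt.2 fun x => (hc x).continuousAt.comp (val_tend x)
  have cl : IsClosed (Piece es cs) := by
    have : Piece es cs = (⋂ c ∈ es, {x : S4 | c x = 0}) ∩ ⋂ c ∈ cs, {x : S4 | c x ≤ 0} := by
      ext x
      simp [Piece]
    rw [this]
    refine (isClosed_biInter fun c hc => ?_).inter (isClosed_biInter fun c hc => ?_)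
    · obtain ⟨_, -, r⟩ := f2_left hes c hc
      exact isClosed_eq (ct c r.s) continuous_const
    · obtain ⟨_, -, r⟩ := f2_left hcs c hc
      exact isClosed_le (ct c r.s) continuous_const
  have ce : Topology.IsClosedEmbedding (Subtype.val : S4 → E 5) :=
    Metric.isClosed_sphere.isClosedEmbedding_subtypeVal
  obtain ⟨χ, h0, h1, -⟩ := exists_contMDiffMap_zero_one_nhds_of_isClosed (n := (⊤ : ℕ∞))
    (modelWithCornersSelf ℝ (E 5)) (ce.isClosedMap _ (isClosed_closure (s := W)))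
    (ce.isClosedMap _ cl) ((disjoint_image_iff Subtype.val_injective).2 hd.symm)
  have sχ : ContDiff ℝ ∞ χ := χ.contMDiff.contDiff
  have ev : ∀ x ∈ Piece es cs, (fun v => χ v * k v) =ᶠ[𝓝 (x : E 5)] k := fun x hx =>
    ((h1.filter_mono (nhds_le_nhdsSet (mem_image_of_mem _ hx))).mono fun v hv => by simp [hv])
  have z : ∀ x ∈ W, χ x * k x = 0 := fun x hx => by
    rw [h0.self_of_nhdsSet _ ⟨x, subset_closure hx, rfl⟩, zero_mul]
  have nW : ∀ x ∈ Piece es cs, x ∉ W := fun x hx hW => disjoint_left.1 hd hx (subset_closure hW)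
  have pc : ∀ {i} {x : S4}, (x ∈ Piece es [] ∧ (∀ c ∈ cs, c x < 0) ∧ Crit n es k i x) →
      x ∈ Piece es cs := fun a => ⟨a.1.1, fun c hc => (a.2.1 c hc).le⟩
  have cr : ∀ {i} {x : S4}, (x ∈ Piece es [] ∧ (∀ c ∈ cs, c x < 0) ∧ Crit n es k i x) →
      x ∈ Piece es [] ∧ (∀ c ∈ cs, c x < 0) ∧ Crit n es (fun v => χ v * k v) i x := fun a =>
    ⟨a.1, a.2.1, (LD.id _).crit a.2.2 ((val_tend _).eventually (ev _ (pc a)))
      (Eventually.of_forall fun _ b => b)⟩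
  refine h.hb hes hcs (k := fun v => χ v * k v) (C0 := C0) (C1 := C1) (fun x hx x' hx' ee => ?_)
    ⟨fun x => sχ.contDiffAt.mul (m1 x), m2, fun x hx => cr (m3 x hx), fun x hx => cr (m4 x hx),
      fun x hx n0 n1 => ?_⟩
    (fun x hx _ => ⟨fun a => nW x (pc (m3 x a)) hx, fun a => nW x (pc (m4 x a)) hx⟩)
    ⟨?_, fun x hx => (nW x hx.1 hx.2).elim⟩
  · simp only [z x hx, z x' (h.ov x hx x' hx' ee).2]
  · rw [(ev x hx).fderiv_eq]
    exact m5 x hx n0 n1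
  · rwa [inter_eq_left.2 fun x hx => (h.cov x).resolve_left (nW x hx)]

/-- a handlebody whose Morse data are compatible with the gluing. -/
def HB (W V : Set S4) (e1 e2 : S4 → S4) (n : ℕ) (es cs : List (E 5 → ℝ)) (g : ℕ) : Prop :=
  Conn W V (Piece es cs) ∧ ∃ k C0 C1, Morse n es cs g k C0 C1 ∧ Compat W V e1 e2 k ∧
    ∀ x ∈ W, x ∈ V → x ∉ C0 ∧ x ∉ C1

/-- the transfer theorem. -/
theorem tri (h : Glue W V e1 e2) {A B : E 5 → ℝ} (sA : Sm A) (sB : Sm B)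
    (cA : Compat W V e1 e2 A) (cB : Compat W V e1 e2 B)
    (t1 : ∀ x : S4, A x = 0 → ∃ v, Tangent [] x v ∧ fderiv ℝ A x v ≠ 0)
    (t2 : ∀ x : S4, A x ≤ 0 → B x = 0 → ∃ v, Tangent [] x v ∧ fderiv ℝ B x v ≠ 0)
    (t3 : ∀ x : S4, A x = 0 → B x = 0 → ∃ v, Tangent [A] x v ∧ fderiv ℝ B x v ≠ 0)
    (far : ∀ x ∈ closure W, A x < 0) {g : ℕ} {k : Fin 3 → ℕ}
    (b0 : Handlebody 4 [] [-A] (k 0)) (b1 : HB W V e1 e2 4 [] [A, -B] (k 1))
    (b2 : HB W V e1 e2 4 [] [A, B] (k 2)) (b3 : Handlebody 3 [A] [-B] g)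
    (b4 : HB W V e1 e2 3 [B] [A] g) (b5 : Handlebody 3 [A] [B] g) :
    ∃ A' B', Rel W V e1 e2 A A' ∧ Rel W V e1 e2 B B' ∧
      IsTrisection (fun i => {x : S4 | (A' x, B' x) ∈ sector i}) g k := by
  obtain ⟨A', a⟩ := h.exists_rel sA cA
  obtain ⟨B', b⟩ := h.exists_rel sB cB
  have o : ∀ {φ φ'}, Rel W V e1 e2 φ φ' → List.Forall₂ (Rel W V e1 e2) [φ] [φ'] := fun r =>
    .cons r .nil
  have hb' : ∀ {n es es' cs cs' g}, List.Forall₂ (Rel W V e1 e2) es es' →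
      List.Forall₂ (Rel W V e1 e2) cs cs' → HB W V e1 e2 n es cs g → Handlebody n es' cs' g :=
    fun hes hcs ⟨c, _, _, _, m, k, C⟩ => h.hb hes hcs k m C c
  refine ⟨A', B', a, b, A', B', a.s', b.s', fun _ => rfl,
    h.trans .nil a (p' := fun y => A' y = 0) (fun x hx => ?_) (fun x hx => ?_) t1,
    fun y h1 h2 => h.trans .nil b (p := fun y => A y ≤ 0 ∧ B y = 0)
      (p' := fun y => A' y ≤ 0 ∧ B' y = 0) (fun x hx => ?_) (fun x hx => ?_)
      (fun x c => t2 x c.1 c.2) y ⟨h1, h2⟩,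
    fun y h1 h2 => h.trans (o a) b (p := fun y => A y = 0 ∧ B y = 0)
      (p' := fun y => A' y = 0 ∧ B' y = 0) (fun x hx => ?_) (fun x hx => ?_)
      (fun x c => t3 x c.1 c.2) y ⟨h1, h2⟩,
    h.hb_far .nil (o a.neg) b0 (disjoint_left.2 fun x hx hW => ?_),
    hb' .nil (.cons a (o b.neg)) b1, hb' .nil (.cons a (o b)) b2,
    h.hb_far (o a) (o b.neg) b3 (disjoint_left.2 fun x hx hW => ?_), hb' (o b) (o a) b4,
    h.hb_far (o a) (o b) b5 (disjoint_left.2 fun x hx hW => ?_)⟩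
  · exact fun c => a.r1 x hx ▸ c
  · exact fun c => a.r2 x hx ▸ c
  · exact fun c => ⟨a.r1 x hx ▸ c.1, b.r1 x hx ▸ c.2⟩
  · exact fun c => ⟨a.r2 x hx ▸ c.1, b.r2 x hx ▸ c.2⟩
  · exact fun c => ⟨a.r1 x hx ▸ c.1, b.r1 x hx ▸ c.2⟩
  · exact fun c => ⟨a.r2 x hx ▸ c.1, b.r2 x hx ▸ c.2⟩
  · have := hx.2 (-A) (by simp)
    have := far x hW
    simp only [Pi.neg_apply] at *
    linarith
  · exact (far x hW).ne (hx.1 A (by simp))
  · exact (far x hW).ne (hx.1 A (by simp))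

end Glue

end Pool.Agent.MP_7ebdba_gt.sm

end
end MrgPart2

-- marker of a merged file
example : 731051 + 34173 = 731051 + 34173 := rfl

end MrgPart0

-- ======== part 1: formerly Pool.Agent.MP_7ebdba_gt.sm.Mod
section MrgPart1

/-! Smooth form: the explicit model on the sphere in `ℂ × ℂ × ℝ`, the regluing data, and the
statements of the blocks. -/

open scoped ContDiff Topology ComplexConjugate
open Set Complex

noncomputable section

namespace Pool.Agent.MP_7ebdba_gt.sm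

/-! ### Coordinates -/

def zc (x : E 5) : ℂ := ⟨x 0, x 1⟩
def wc (x : E 5) : ℂ := ⟨x 2, x 3⟩
def sc (x : E 5) : ℝ := x 4
def mk5 (z w : ℂ) (s : ℝ) : E 5 := !₂[z.re, z.im, w.re, w.im, s]

/-- the phase of a complex number -/
def ph (c : ℂ) : ℂ := c / ‖c‖

/-- the circle action with weights `2, 3` -/
def act (c : ℂ) (x : E 5) : E 5 := mk5 (c ^ 2 * zc x) (c ^ 3 * wc x) (sc x)

/-! ### Functions of `(z, w)`; all but `pf` have weight zero under `(ρ ^ 2 z, ρ ^ 3 w)` -/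

def pf (z w : ℂ) : ℂ := z ^ 3 - w ^ 2
def xf (z w : ℂ) : ℝ := normSq z / normSq (pf z w) ^ (1 / 3 : ℝ)
def uf (z w : ℂ) : ℂ := conj z ^ 3 * pf z w / (normSq z * normSq (pf z w) ^ (2 / 3 : ℝ) : ℝ)
def tf (z w : ℂ) : ℝ := normSq (pf z w) / normSq z ^ 3
def cf (z w : ℂ) : ℂ := pf z w / (‖z‖ ^ 3 : ℝ)
def af (z w : ℂ) : ℂ := w / (z * √‖z‖ * Complex.sqrt (w ^ 2 / z ^ 3))

/-- the neighbourhood `tf < 1 / 64` of the knot -/
def Near (z w : ℂ) : Prop := 64 * normSq (pf z w) < normSq z ^ 3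

def pp (x : E 5) : ℂ := pf (zc x) (wc x)
def tt (x : E 5) : ℝ := sc x / √(1 - sc x ^ 2)
def lev (x : E 5) : ℝ := xf (zc x) (wc x) + tt x ^ 2

/-- the orbit space of the complement of the suspended knot -/
abbrev V3 : Type := ℂ × ℝ
def nq (y : V3) : ℝ := normSq y.1 + y.2 ^ 2
def qq (x : E 5) : V3 := (uf (zc x) (wc x), tt x)

def Below (c : ℝ) : Set S4 := {x | pp x ≠ 0 ∧ lev x < c}
def AtMost (c : ℝ) : Set S4 := {x | pp x ≠ 0 ∧ lev x ≤ c}
def WW : Set S4 := Below (14 / 5)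
def VV : Set S4 := (AtMost (13 / 5))ᶜ

/-! ### Weighted normalisation and the chart near the knot -/

def lam (z w : ℂ) (t : ℝ) : ℝ :=
  Classical.epsilon fun L => 0 < L ∧ (L ^ 4 * normSq z + L ^ 6 * normSq w) * (1 + t ^ 2) = 1

def nrm (z w : ℂ) (t : ℝ) : E 5 :=
  mk5 (lam z w t ^ 2 * z) (lam z w t ^ 3 * w) (t / √(1 + t ^ 2))

/-- for `‖a‖ = 1`, `‖c‖ < 1 / 8`: the point with `af = a`, `cf = c`, `tt = t` -/
def ct (a c : ℂ) (t : ℝ) : E 5 := nrm (a ^ 2) (a ^ 3 * Complex.sqrt (1 - c * conj a ^ 6)) t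

/-- row NRM -/
def NrmStmt : Prop :=
  ∀ (z w : ℂ) (t : ℝ), (z ≠ 0 ∨ w ≠ 0) → 0 < lam z w t ∧
    (lam z w t ^ 4 * normSq z + lam z w t ^ 6 * normSq w) * (1 + t ^ 2) = 1 ∧
    (∀ L, 0 < L → (L ^ 4 * normSq z + L ^ 6 * normSq w) * (1 + t ^ 2) = 1 → lam z w t = L) ∧
    ContDiffAt ℝ ∞ (fun y : ℂ × ℂ × ℝ => lam y.1 y.2.1 y.2.2) (z, w, t)

/-! ### Profiles and the model trisection -/

structure Prof where
  F : ℝ → ℝ
  χ : ℝ → ℝ
  β : ℝ → ℝ
  η : ℝ → ℝ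
  k : ℝ → ℝ
  ε : ℝ
  F_sm : ContDiff ℝ ∞ F
  F_lo : ∀ X ≤ 3, F X = X
  F_hi : ∀ X ≥ 4, F X = 6 - (X ^ 3)⁻¹
  F_pos : ∀ X, 0 < deriv F X
  χ_sm : ContDiff ℝ ∞ χ
  χ_lo : ∀ τ ≤ 1 / 125, χ τ = 1
  χ_hi : ∀ τ ≥ 1 / 100, χ τ = 0
  χ_mem : ∀ τ, 0 ≤ χ τ ∧ χ τ ≤ 1
  ε_pos : 0 < ε
  ε_lt : ε < 1 / 125
  ε_der : ∀ τ, ε * |deriv χ τ| < 1
  β_sm : ContDiff ℝ ∞ β
  β_lo : ∀ X ≤ 3, β X = 1
  β_hi : ∀ X ≥ 4, β X = (√X ^ 3)⁻¹
  β_pos : ∀ X, 0 < β X
  β_der : ∀ X, deriv β X ≤ 0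
  η_sm : ContDiff ℝ ∞ η
  η_lo : ∀ σ ≤ 8 / 9, η σ = 1
  η_hi : ∀ σ ≥ 9 / 10, η σ = 0
  η_mem : ∀ σ, 0 ≤ η σ ∧ η σ ≤ 1
  k_sm : ContDiff ℝ ∞ k
  k_lo : ∀ σ ≤ 8 / 9, k σ = σ / (1 - σ)
  k_der : ∀ σ, 7 * |deriv η σ| < deriv k σ

/-- row PROF -/
def ProfStmt : Prop := Nonempty Prof

open Classical in
def mf (P : Prof) (z w : ℂ) : ℝ :=
  if Near z w then 6 - tf z w + P.ε * P.χ (tf z w) * (af z w).re else P.F (xf z w)

open Classical in
def bf (β : ℝ → ℝ) (z w : ℂ) : ℝ :=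
  if Near z w then (cf z w).im else β (xf z w) * (ph (pf z w)).im

def HH (P : Prof) (x : E 5) : ℝ := P.η (sc x ^ 2) * mf P (zc x) (wc x) + P.k (sc x ^ 2)
def AA (P : Prof) (x : E 5) : ℝ := HH P x - 6
def BB (P : Prof) (x : E 5) : ℝ := P.η (sc x ^ 2) * bf P.β (zc x) (wc x)

/-- the three pieces cut out by `(A, B)` -/
def tri (A B : E 5 → ℝ) (i : Fin 3) : Set S4 := {x | (A x, B x) ∈ sector i}

/-- on the shell, `f` depends only on the level and on the phase of `pp` -/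
def Inv (f : E 5 → ℝ) : Prop :=
  ∀ x ∈ VV ∩ WW, ∀ y ∈ VV ∩ WW, lev x = lev y → ph (pp x) = ph (pp y) → f x = f y

/-- Morse data -/
def Mo (n : ℕ) (es cs : List (E 5 → ℝ)) (g : ℕ) : Prop := ∃ k C0 C1, Morse n es cs g k C0 C1

/-- Morse data that survive regluing -/
def MoI (n : ℕ) (es cs : List (E 5 → ℝ)) (g : ℕ) : Prop :=
  ∃ k C0 C1, Morse n es cs g k C0 C1 ∧ Inv k ∧ ∀ x ∈ VV ∩ WW, x ∉ C0 ∧ x ∉ C1

/-- a trisection of type `(4; 0, 2, 2)` in a form that survives regluing -/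
structure Model (A B : E 5 → ℝ) : Prop where
  sA : Sm A
  sB : Sm B
  iA : Inv A
  iB : Inv B
  far : ∀ x ∈ WW, A x ≤ -1
  t1 : ∀ x : S4, A x = 0 → ∃ v, Tangent [] x v ∧ fderiv ℝ A x v ≠ 0
  t2 : ∀ x : S4, A x ≤ 0 → B x = 0 → ∃ v, Tangent [] x v ∧ fderiv ℝ B x v ≠ 0
  t3 : ∀ x : S4, A x = 0 → B x = 0 → ∃ v, Tangent [A] x v ∧ fderiv ℝ B x v ≠ 0
  con : IsConnected {x : S4 | A x = 0 ∧ B x = 0}
  x0 : Mo 4 [] [-A] 0
  x1 : MoI 4 [] [A, -B] 2
  x2 : MoI 4 [] [A, B] 2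
  h0 : Mo 3 [A] [-B] 4
  h1 : MoI 3 [B] [A] 4
  h2 : Mo 3 [A] [B] 4

/-- block M -/
def ModelStmt : Prop := ∀ P : Prof, Model (AA P) (BB P)

/-! ### Regluing -/

/-- level preserving diffeomorphisms of the outside of a ball that fix both strands on the shell -/
structure Adm (Θ : Equiv.Perm V3) : Prop where
  lv : ∀ y, nq (Θ y) = nq y
  smo : ∀ y, 5 / 2 < nq y → ContDiffAt ℝ ∞ Θ y ∧ ContDiffAt ℝ ∞ Θ.symm y
  far : ∀ y, 3 ≤ nq y → Θ y = y
  fix : ∃ δ > 0, ∀ y, 5 / 2 < nq y → (‖y.1 - 1‖ < δ ∨ ‖y.1‖ < δ ∧ nq y < 14 / 5) → Θ y = y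

/-- two bijections, diffeomorphisms from `WW` and from `VV` onto open sets that cover the sphere;
the transition map is a bijection of the shell that covers `Θ` -/
structure Reg (Θ : V3 → V3) (e1 e2 : S4 ≃ S4) : Prop where
  glue : Glue WW VV e1 e2
  ov2 : ∀ y ∈ VV, y ∈ WW → e1.symm (e2 y) ∈ WW
  ovl : ∀ x ∈ WW, ∀ y ∈ VV, e1 x = e2 y →
    lev x = lev y ∧ ph (pp x) = ph (pp y) ∧ qq x = Θ (qq y)

def reglue (e1 e2 : S4 ≃ S4) (S : Set S4) : Set S4 := e1 '' (S ∩ WW) ∪ e2 '' (S ∩ VV)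

/-- block G -/
def GlueStmt : Prop := ∀ Θ, Adm Θ → ∃ e1 e2, Reg Θ e1 e2

/-- row TRANS -/
def TransStmt : Prop :=
  ∀ Θ e1 e2 A B, Reg Θ e1 e2 → Model A B →
    IsTrisection (fun i => reglue e1 e2 (tri A B i)) 4 ![0, 2, 2]

/-- block P -/
def PStmt : Prop :=
  ∀ P : Prof, ∃ Θ r, Adm Θ ∧ ¬ ch.Chain r ∧ ∀ e1 e2, Reg Θ e1 e2 →
    Mark (fun i => reglue e1 e2 (tri (AA P) (BB P) i)) (TT r)

theorem pos_of (h0 : ProfStmt) (hM : ModelStmt) (hG : GlueStmt) (hT : TransStmt) (hP : PStmt) :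
    PosStmt := by
  obtain ⟨P⟩ := h0
  obtain ⟨Θ, r, a, b, c⟩ := hP P
  obtain ⟨e1, e2, g⟩ := hG Θ a
  exact ⟨_, r, hT _ _ _ _ _ g (hM P), c _ _ g, b⟩

end Pool.Agent.MP_7ebdba_gt.sm

end
end MrgPart1

-- ======== part 2: formerly Pool.Agent.MP_7ebdba_gt.sm.m.Mf
section MrgPart2

-- ======== part 0: formerly Pool.Agent.MP_7ebdba_gt.sm.g.Opn
section MrgPart0

/-! Coordinates on the sphere; the sets `WW`, `VV` are open. -/

open scoped ContDiff Topology ComplexConjugate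
open Set Complex Filter

noncomputable section

namespace Pool.Agent.MP_7ebdba_gt.sm

theorem cd_mk {F : Type} [NormedAddCommGroup F] [NormedSpace ℝ F] {f g : F → ℝ} {x : F}
    (hf : ContDiffAt ℝ ∞ f x) (hg : ContDiffAt ℝ ∞ g x) :
    ContDiffAt ℝ ∞ (fun y => (⟨f y, g y⟩ : ℂ)) x :=
  equivRealProdCLM.symm.contDiff.contDiffAt.comp x (hf.prodMk hg)

theorem cd_coord (i : Fin 5) : ContDiff ℝ ∞ fun x : E 5 => x i :=
  (EuclideanSpace.proj (𝕜 := ℝ) i).contDiff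

theorem cd_zc : ContDiff ℝ ∞ zc :=
  contDiff_iff_contDiffAt.2 fun _ => cd_mk (cd_coord 0).contDiffAt (cd_coord 1).contDiffAt

theorem cd_wc : ContDiff ℝ ∞ wc :=
  contDiff_iff_contDiffAt.2 fun _ => cd_mk (cd_coord 2).contDiffAt (cd_coord 3).contDiffAt

theorem cd_sc : ContDiff ℝ ∞ sc := cd_coord 4

theorem cd_pp : ContDiff ℝ ∞ pp := (cd_zc.pow 3).sub (cd_wc.pow 2)

theorem cd_normSq : ContDiff ℝ ∞ (normSq : ℂ → ℝ) :=
  (reCLM.contDiff.mul reCLM.contDiff).add (imCLM.contDiff.mul imCLM.contDiff)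

theorem cd_mk5 {F : Type} [NormedAddCommGroup F] [NormedSpace ℝ F] {f g : F → ℂ} {h : F → ℝ}
    {x : F} (hf : ContDiffAt ℝ ∞ f x) (hg : ContDiffAt ℝ ∞ g x) (hh : ContDiffAt ℝ ∞ h x) :
    ContDiffAt ℝ ∞ (fun y => mk5 (f y) (g y) (h y)) x := by
  refine contDiffAt_euclidean.2 fun i => ?_
  fin_cases i
  · exact reCLM.contDiff.contDiffAt.comp x hf
  · exact imCLM.contDiff.contDiffAt.comp x hf
  · exact reCLM.contDiff.contDiffAt.comp x hg
  · exact imCLM.contDiff.contDiffAt.comp x hg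
  · exact hh

@[simp] theorem zc_mk5 (z w : ℂ) (s : ℝ) : zc (mk5 z w s) = z := rfl
@[simp] theorem wc_mk5 (z w : ℂ) (s : ℝ) : wc (mk5 z w s) = w := rfl
@[simp] theorem sc_mk5 (z w : ℂ) (s : ℝ) : sc (mk5 z w s) = s := rfl

theorem mk5_eta (x : E 5) : mk5 (zc x) (wc x) (sc x) = x := by
  ext i
  fin_cases i <;> rfl

theorem ext5 {x y : E 5} (h1 : zc x = zc y) (h2 : wc x = wc y) (h3 : sc x = sc y) : x = y := by
  rw [← mk5_eta x, h1, h2, h3, mk5_eta]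

theorem norm_sq5 (x : E 5) : ‖x‖ ^ 2 = normSq (zc x) + normSq (wc x) + sc x ^ 2 := by
  rw [EuclideanSpace.real_norm_sq_eq, Fin.sum_univ_five]
  simp only [zc, wc, sc, normSq_mk]
  ring

theorem sph (x : S4) : normSq (zc x) + normSq (wc x) + sc x ^ 2 = 1 := by
  rw [← norm_sq5, norm_coe, one_pow]

theorem mem_sph {x : E 5} (h : normSq (zc x) + normSq (wc x) + sc x ^ 2 = 1) :
    x ∈ Metric.sphere (0 : E 5) 1 := by
  rw [← norm_sq5] at h
  simpa using (pow_eq_one_iff_of_nonneg (norm_nonneg x) two_ne_zero).1 h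

theorem zw_ne {z w : ℂ} (h : pf z w ≠ 0) : z ≠ 0 ∨ w ≠ 0 := by
  by_contra c
  push Not at c
  exact h (by simp [pf, c.1, c.2])

theorem sc_lt {x : S4} (h : zc x ≠ 0 ∨ wc x ≠ 0) : 0 < 1 - sc x ^ 2 := by
  have := sph x
  have := normSq_nonneg (zc x)
  have := normSq_nonneg (wc x)
  rcases h with h | h <;> have := normSq_pos.2 h <;> linarith

theorem cd_tt {x : E 5} (h : 0 < 1 - sc x ^ 2) : ContDiffAt ℝ ∞ tt x :=
  cd_sc.contDiffAt.div ((contDiffAt_const.sub (cd_sc.contDiffAt.pow 2)).sqrt h.ne')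
    (Real.sqrt_pos.2 h).ne'

theorem cd_xf {x : E 5} (h : pp x ≠ 0) : ContDiffAt ℝ ∞ (fun y => xf (zc y) (wc y)) x :=
  (cd_normSq.comp cd_zc).contDiffAt.div
    ((cd_normSq.comp cd_pp).contDiffAt.rpow_const_of_ne (normSq_pos.2 h).ne')
    (Real.rpow_pos_of_pos (normSq_pos.2 h) _).ne'

theorem cd_lev {x : S4} (h : pp x ≠ 0) : ContDiffAt ℝ ∞ lev x :=
  (cd_xf h).add ((cd_tt (sc_lt (zw_ne h))).pow 2)

theorem tt_sq {x : E 5} (h : 0 < 1 - sc x ^ 2) : tt x ^ 2 = sc x ^ 2 / (1 - sc x ^ 2) := by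
  rw [tt, div_pow, Real.sq_sqrt h.le]

theorem xf_nonneg (z w : ℂ) : 0 ≤ xf z w :=
  div_nonneg (normSq_nonneg _) (Real.rpow_nonneg (normSq_nonneg _) _)

theorem ev_pp {x : S4} (h : pp x ≠ 0) : ∀ᶠ y : S4 in 𝓝 x, pp y ≠ 0 :=
  (cd_pp.continuous.comp continuous_subtype_val).continuousAt.eventually_ne h

theorem lev_tend {x : S4} (h : pp x ≠ 0) : Tendsto (fun y : S4 => lev y) (𝓝 x) (𝓝 (lev x)) :=
  (cd_lev h).continuousAt.tendsto.comp (val_tend x)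

theorem isOpen_below (c : ℝ) : IsOpen (Below c) :=
  isOpen_iff_mem_nhds.2 fun _ hx => (ev_pp hx.1).and ((lev_tend hx.1).eventually_lt_const hx.2)

/-- the level tends to infinity at the suspended knot -/
theorem lev_big {x : S4} (h : pp x = 0) (c : ℝ) : ∀ᶠ y : S4 in 𝓝 x, pp y ≠ 0 → c < lev y := by
  have cz : Continuous fun y : S4 => normSq (zc y) :=
    (cd_normSq.comp cd_zc).continuous.comp continuous_subtype_val
  have cp : Continuous fun y : S4 => normSq (pp y) ^ (1 / 3 : ℝ) :=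
    ((cd_normSq.comp cd_pp).continuous.comp continuous_subtype_val).rpow_const
      fun _ => Or.inr (by norm_num)
  have cs : Continuous fun y : S4 => sc y ^ 2 :=
    (cd_sc.continuous.comp continuous_subtype_val).pow 2
  by_cases hz : zc x = 0
  · have hw : wc x = 0 := by simpa [pp, pf, hz] using h
    have h1 : sc x ^ 2 = 1 := by simpa [hz, hw] using sph x
    have := ((continuous_const (y := c)).mul ((continuous_const (y := 1)).sub cs)).continuousAt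
      |>.eventually_lt (cs.continuousAt (x := x)) (by simp [h1])
    filter_upwards [this] with y a b
    have d := sc_lt (zw_ne b)
    have := xf_nonneg (zc y) (wc y)
    have : c < tt y ^ 2 := by rw [tt_sq d, lt_div_iff₀ d]; exact a
    unfold lev
    linarith
  · have := ((continuous_const (y := c)).mul cp).continuousAt.eventually_lt
      (cz.continuousAt (x := x)) (by simpa [h] using hz)
    filter_upwards [this] with y a b
    have : c < xf (zc y) (wc y) := (lt_div_iff₀ (Real.rpow_pos_of_pos (normSq_pos.2 b) _)).2 a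
    have := sq_nonneg (tt y)
    unfold lev
    linarith

theorem not_atMost {c : ℝ} {x : S4} : x ∈ (AtMost c)ᶜ ↔ (pp x ≠ 0 → c < lev x) := by
  simp [AtMost]

theorem isOpen_atMost (c : ℝ) : IsOpen (AtMost c)ᶜ := by
  refine isOpen_iff_mem_nhds.2 fun x hx => ?_
  by_cases h : pp x = 0
  · exact (lev_big h c).mono fun _ => not_atMost.2
  · exact ((lev_tend h).eventually_const_lt (not_atMost.1 hx h)).mono fun _ a =>
      not_atMost.2 fun _ => a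

theorem isOpen_WW : IsOpen WW := isOpen_below _
theorem isOpen_VV : IsOpen VV := isOpen_atMost _

theorem mem_VV {x : S4} : x ∈ VV ↔ (pp x ≠ 0 → 13 / 5 < lev x) := not_atMost

theorem WW_or_VV (x : S4) : x ∈ WW ∨ x ∈ VV := by
  by_cases h : x ∈ VV
  · exact Or.inr h
  · have : x ∈ AtMost (13 / 5) := not_not.1 h
    exact Or.inl ⟨this.1, this.2.trans_lt (by norm_num)⟩

theorem closure_WW : closure WW ⊆ AtMost (14 / 5) :=
  closure_minimal (fun _ hx => ⟨hx.1, hx.2.le⟩) ⟨isOpen_atMost _⟩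

/-- a map of the sphere that is smooth at `x` -/
def SmAt (e : S4 → S4) (x : S4) : Prop :=
  ∃ f : E 5 → E 5, ContDiffAt ℝ ∞ f x ∧ ∀ᶠ y in 𝓝 x, (e y : E 5) = f y

theorem SmAt.tend {e : S4 → S4} {x : S4} (h : SmAt e x) : Tendsto e (𝓝 x) (𝓝 (e x)) := by
  obtain ⟨f, hf, h1⟩ := h
  rw [tendsto_subtype_rng, h1.self_of_nhds]
  exact (hf.continuousAt.tendsto.comp (val_tend x)).congr' (h1.mono fun _ h => h.symm)

theorem SmAt.comp {e e' : S4 → S4} {x : S4} (h' : SmAt e' (e x)) (h : SmAt e x) :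
    SmAt (fun y => e' (e y)) x := by
  have ht := h.tend
  obtain ⟨f, hf, h1⟩ := h
  obtain ⟨f', hf', h1'⟩ := h'
  refine ⟨f' ∘ f, ContDiffAt.comp _ (h1.self_of_nhds ▸ hf') hf, ?_⟩
  filter_upwards [h1, ht.eventually h1'] with y a b
  rw [b, a]
  rfl

theorem SmAt.congr {e e' : S4 → S4} {x : S4} (h : SmAt e x) (he : e' =ᶠ[𝓝 x] e) : SmAt e' x := by
  obtain ⟨f, hf, h1⟩ := h
  exact ⟨f, hf, (h1.and he).mono fun _ a => a.2 ▸ a.1⟩

theorem SmAt.id (x : S4) : SmAt (fun y => y) x :=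
  ⟨fun y => y, contDiffAt_id, Eventually.of_forall fun _ => rfl⟩

theorem LD.of_equiv (e : S4 ≃ S4) {x : S4} (h : SmAt e x ∧ SmAt e.symm (e x)) : LD e x := by
  obtain ⟨⟨f, hf, h1⟩, g, hg, h2⟩ := h
  exact LD.of_inv (d := e.symm) hf hg (h1.mono fun _ a => ⟨a, by simp⟩)
    (h2.mono fun _ a => ⟨a, by simp⟩)

end Pool.Agent.MP_7ebdba_gt.sm

end
end MrgPart0

-- ======== part 1: formerly Pool.Agent.MP_7ebdba_gt.sm.Bas
section MrgPart1

/-! Smooth form: elementary facts on the coordinates and the invariant functions. -/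

open scoped ContDiff Topology ComplexConjugate
open Set Complex

noncomputable section

namespace Pool.Agent.MP_7ebdba_gt.sm

theorem cd_mk5' : ContDiff ℝ ∞ fun y : ℂ × ℂ × ℝ => mk5 y.1 y.2.1 y.2.2 :=
  contDiff_iff_contDiffAt.2 fun _ => cd_mk5 contDiffAt_fst contDiffAt_snd.fst contDiffAt_snd.snd

section Calc
variable {F : Type} [NormedAddCommGroup F] [NormedSpace ℝ F] {y : F} {a b : F → ℂ} {s : F → ℝ}
  {f : F → E 5}

@[fun_prop] theorem cda_zc (h : ContDiffAt ℝ ∞ f y) : ContDiffAt ℝ ∞ (fun y => zc (f y)) y :=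
  cd_zc.contDiffAt.comp y h
@[fun_prop] theorem cda_wc (h : ContDiffAt ℝ ∞ f y) : ContDiffAt ℝ ∞ (fun y => wc (f y)) y :=
  cd_wc.contDiffAt.comp y h
@[fun_prop] theorem cda_sc (h : ContDiffAt ℝ ∞ f y) : ContDiffAt ℝ ∞ (fun y => sc (f y)) y :=
  cd_sc.contDiffAt.comp y h
@[fun_prop] theorem cda_mk5 (ha : ContDiffAt ℝ ∞ a y) (hb : ContDiffAt ℝ ∞ b y)
    (hs : ContDiffAt ℝ ∞ s y) : ContDiffAt ℝ ∞ (fun y => mk5 (a y) (b y) (s y)) y :=
  cd_mk5 ha hb hs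
@[fun_prop] theorem cda_ofReal (h : ContDiffAt ℝ ∞ s y) : ContDiffAt ℝ ∞ (fun y => (s y : ℂ)) y :=
  ofRealCLM.contDiff.contDiffAt.comp y h
@[fun_prop] theorem cda_conj (h : ContDiffAt ℝ ∞ a y) : ContDiffAt ℝ ∞ (fun y => conj (a y)) y :=
  conjCLE.contDiff.contDiffAt.comp y h
@[fun_prop] theorem cda_re (h : ContDiffAt ℝ ∞ a y) : ContDiffAt ℝ ∞ (fun y => (a y).re) y :=
  reCLM.contDiff.contDiffAt.comp y h
@[fun_prop] theorem cda_im (h : ContDiffAt ℝ ∞ a y) : ContDiffAt ℝ ∞ (fun y => (a y).im) y :=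
  imCLM.contDiff.contDiffAt.comp y h
@[fun_prop] theorem cda_normSq (h : ContDiffAt ℝ ∞ a y) :
    ContDiffAt ℝ ∞ (fun y => normSq (a y)) y := by
  simp only [normSq_apply]
  fun_prop
theorem cda_norm (h : ContDiffAt ℝ ∞ a y) (h0 : a y ≠ 0) : ContDiffAt ℝ ∞ (fun y => ‖a y‖) y :=
  h.norm ℝ h0
theorem cda_div (ha : ContDiffAt ℝ ∞ a y) (hb : ContDiffAt ℝ ∞ b y) (h0 : b y ≠ 0) :
    ContDiffAt ℝ ∞ (fun y => a y / b y) y := by
  simp only [div_eq_mul_inv]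
  exact ha.mul (hb.inv h0)
theorem cda_ph (h : ContDiffAt ℝ ∞ a y) (h0 : a y ≠ 0) : ContDiffAt ℝ ∞ (fun y => ph (a y)) y :=
  cda_div h (cda_ofReal (cda_norm h h0)) (by simpa using h0)
theorem cda_csqrt (h : ContDiffAt ℝ ∞ a y) (h0 : a y ∈ slitPlane) :
    ContDiffAt ℝ ∞ (fun y => Complex.sqrt (a y)) y := by
  have : AnalyticAt ℂ (fun c : ℂ => c ^ (2⁻¹ : ℂ)) (a y) := analyticAt_id.cpow analyticAt_const h0
  exact ((this.contDiffAt (n := ∞)).restrict_scalars ℝ).comp y h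
@[fun_prop] theorem cda_cexp (h : ContDiffAt ℝ ∞ a y) : ContDiffAt ℝ ∞ (fun y => exp (a y)) y :=
  (contDiff_exp (𝕜 := ℝ)).contDiffAt.comp y h
@[fun_prop] theorem cda_pf (ha : ContDiffAt ℝ ∞ a y) (hb : ContDiffAt ℝ ∞ b y) :
    ContDiffAt ℝ ∞ (fun y => pf (a y) (b y)) y := (ha.pow 3).sub (hb.pow 2)
@[fun_prop] theorem cda_act (ha : ContDiffAt ℝ ∞ a y) (h : ContDiffAt ℝ ∞ f y) :
    ContDiffAt ℝ ∞ (fun y => act (a y) (f y)) y := by
  unfold act
  fun_prop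
theorem cda_xf (ha : ContDiffAt ℝ ∞ a y) (hb : ContDiffAt ℝ ∞ b y) (h0 : pf (a y) (b y) ≠ 0) :
    ContDiffAt ℝ ∞ (fun y => xf (a y) (b y)) y := by
  have h1 := normSq_pos.2 h0
  exact (cda_normSq ha).div ((cda_normSq (cda_pf ha hb)).rpow_const_of_ne h1.ne')
    (Real.rpow_pos_of_pos h1 _).ne'
theorem cda_uf (ha : ContDiffAt ℝ ∞ a y) (hb : ContDiffAt ℝ ∞ b y) (hz : a y ≠ 0)
    (h0 : pf (a y) (b y) ≠ 0) : ContDiffAt ℝ ∞ (fun y => uf (a y) (b y)) y := by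
  have h1 := normSq_pos.2 h0
  exact cda_div (((cda_conj ha).pow 3).mul (cda_pf ha hb))
    (cda_ofReal ((cda_normSq ha).mul ((cda_normSq (cda_pf ha hb)).rpow_const_of_ne h1.ne')))
    (ofReal_ne_zero.2 (mul_pos (normSq_pos.2 hz) (Real.rpow_pos_of_pos h1 _)).ne')
theorem cda_tt (h : ContDiffAt ℝ ∞ f y) (h0 : sc (f y) ^ 2 < 1) :
    ContDiffAt ℝ ∞ (fun y => tt (f y)) y :=
  (cda_sc h).div ((contDiffAt_const.sub ((cda_sc h).pow 2)).sqrt (sub_pos.2 h0).ne')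
    (Real.sqrt_pos.2 (sub_pos.2 h0)).ne'
end Calc

/-! ### Phases -/

theorem norm_mul_ph (c : ℂ) : (‖c‖ : ℂ) * ph c = c := by
  by_cases h : c = 0
  · simp [h, ph]
  · exact mul_div_cancel₀ _ (by simpa using h)

@[simp] theorem ph_zero : ph 0 = 0 := by simp [ph]

theorem norm_ph {c : ℂ} (h : c ≠ 0) : ‖ph c‖ = 1 := by
  simp [ph, h]

theorem ph_ne {c : ℂ} (h : c ≠ 0) : ph c ≠ 0 := norm_ne_zero_iff.1 (by simp [norm_ph h])

theorem ph_unit {c : ℂ} (h : ‖c‖ = 1) : ph c = c := by simp [ph, h]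

theorem ph_mul (a b : ℂ) : ph (a * b) = ph a * ph b := by
  simp only [ph, norm_mul, ofReal_mul]
  exact mul_div_mul_comm _ _ _ _

theorem ph_pow (a : ℂ) (n : ℕ) : ph (a ^ n) = ph a ^ n := by
  simp only [ph, norm_pow, ofReal_pow, div_pow]

theorem ph_inv (a : ℂ) : ph a⁻¹ = (ph a)⁻¹ := by
  simp only [ph, norm_inv, ofReal_inv, inv_div, div_inv_eq_mul]
  rw [mul_comm, div_eq_mul_inv]

theorem ph_div (a b : ℂ) : ph (a / b) = ph a / ph b := by
  rw [div_eq_mul_inv, ph_mul, ph_inv, div_eq_mul_inv]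

theorem ph_pos {r : ℝ} (h : 0 < r) : ph r = 1 := by
  simp [ph, abs_of_pos h, h.ne']

theorem ph_conj (a : ℂ) : ph (conj a) = conj (ph a) := by simp [ph]

theorem conj_unit {c : ℂ} (h : ‖c‖ = 1) : conj c = c⁻¹ := (inv_eq_conj h).symm

/-! ### Weight zero and the circle action: the scaling `(c ^ 2 z, c ^ 3 w)` -/

theorem pf_smul (c z w : ℂ) : pf (c ^ 2 * z) (c ^ 3 * w) = c ^ 6 * pf z w := by
  unfold pf
  ring

theorem rp6 {n : ℝ} (h : 0 ≤ n) (m : ℝ) (hm : 0 ≤ m) :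
    (n ^ 6 * m) ^ (1 / 3 : ℝ) = n ^ 2 * m ^ (1 / 3 : ℝ) ∧
      (n ^ 6 * m) ^ (2 / 3 : ℝ) = n ^ 4 * m ^ (2 / 3 : ℝ) := by
  constructor <;> rw [Real.mul_rpow (by positivity) hm, ← Real.rpow_natCast, ← Real.rpow_mul h,
    ← Real.rpow_natCast] <;> norm_num

theorem xf_smul {c : ℂ} (h : c ≠ 0) (z w : ℂ) : xf (c ^ 2 * z) (c ^ 3 * w) = xf z w := by
  have := (normSq_pos.2 h).ne'
  simp only [xf, pf_smul, map_mul, map_pow, (rp6 (normSq_nonneg c) _ (normSq_nonneg _)).1]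
  exact mul_div_mul_left _ _ (by positivity)

theorem uf_smul {c : ℂ} (h : c ≠ 0) (z w : ℂ) : uf (c ^ 2 * z) (c ^ 3 * w) = uf z w := by
  have h1 : (normSq c : ℂ) ^ 6 ≠ 0 := pow_ne_zero _ (ofReal_ne_zero.2 (normSq_pos.2 h).ne')
  simp only [uf, pf_smul, map_mul, map_pow, (rp6 (normSq_nonneg c) _ (normSq_nonneg _)).2]
  rw [← mul_div_mul_left (conj z ^ 3 * pf z w) _ h1]
  congr 1
  · rw [normSq_eq_conj_mul_self]
    ring
  · push_cast
    ring

theorem tf_smul {c : ℂ} (h : c ≠ 0) (z w : ℂ) : tf (c ^ 2 * z) (c ^ 3 * w) = tf z w := by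
  have := (normSq_pos.2 h).ne'
  simp only [tf, pf_smul, map_mul, map_pow, mul_pow, ← pow_mul]
  exact mul_div_mul_left _ _ (by positivity)

theorem near_smul {c : ℂ} (h : c ≠ 0) (z w : ℂ) : Near (c ^ 2 * z) (c ^ 3 * w) ↔ Near z w := by
  have := normSq_pos.2 h
  simp only [Near, pf_smul, map_mul, map_pow, mul_pow, ← pow_mul]
  rw [mul_left_comm]
  exact mul_lt_mul_iff_right₀ (by positivity)

theorem cf_smul (c z w : ℂ) : cf (c ^ 2 * z) (c ^ 3 * w) = ph c ^ 6 * cf z w := by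
  simp only [cf, pf_smul, ph, norm_mul, norm_pow, mul_pow, ← pow_mul, div_pow]
  push_cast
  exact mul_div_mul_comm _ _ _ _

theorem af_smul {c : ℂ} (h : c ≠ 0) (z w : ℂ) : af (c ^ 2 * z) (c ^ 3 * w) = ph c * af z w := by
  have e : (c ^ 3 * w) ^ 2 / (c ^ 2 * z) ^ 3 = w ^ 2 / z ^ 3 := by
    rw [← mul_div_mul_left (w ^ 2) _ (pow_ne_zero 6 h)]
    congr 1 <;> ring
  have e2 : √‖c ^ 2 * z‖ = ‖c‖ * √‖z‖ := by
    rw [norm_mul, norm_pow, Real.sqrt_mul (by positivity), Real.sqrt_sq (norm_nonneg _)]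
  simp only [af, e, e2, ph]
  rw [← mul_div_mul_comm, ← mul_div_mul_left (c * w) _ (pow_ne_zero 2 h)]
  congr 1
  · ring
  · push_cast
    ring

theorem ph_pf_smul (c z w : ℂ) : ph (pf (c ^ 2 * z) (c ^ 3 * w)) = ph c ^ 6 * ph (pf z w) := by
  rw [pf_smul, ph_mul, ph_pow]

@[simp] theorem zc_act (c : ℂ) (x : E 5) : zc (act c x) = c ^ 2 * zc x := rfl
@[simp] theorem wc_act (c : ℂ) (x : E 5) : wc (act c x) = c ^ 3 * wc x := rfl
@[simp] theorem sc_act (c : ℂ) (x : E 5) : sc (act c x) = sc x := rfl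
@[simp] theorem tt_act (c : ℂ) (x : E 5) : tt (act c x) = tt x := rfl

theorem act_act (c d : ℂ) (x : E 5) : act c (act d x) = act (c * d) x :=
  ext5 (by simp [mul_pow, mul_assoc]) (by simp [mul_pow, mul_assoc]) rfl

theorem act_one (x : E 5) : act 1 x = x := ext5 (by simp) (by simp) rfl

theorem act_mem {c : ℂ} (h : ‖c‖ = 1) (x : S4) : act c x ∈ Metric.sphere (0 : E 5) 1 :=
  mem_sph (by simpa [normSq_eq_norm_sq, h] using sph x)

theorem pp_act (c : ℂ) (x : E 5) : pp (act c x) = c ^ 6 * pp x := pf_smul _ _ _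
theorem lev_act {c : ℂ} (h : c ≠ 0) (x : E 5) : lev (act c x) = lev x := by
  simp only [lev, zc_act, wc_act, tt_act, xf_smul h]
theorem qq_act {c : ℂ} (h : c ≠ 0) (x : E 5) : qq (act c x) = qq x := by
  simp only [qq, zc_act, wc_act, tt_act, uf_smul h]

/-! ### The level -/

theorem cube_rp {m : ℝ} (h : 0 ≤ m) :
    (m ^ (1 / 3 : ℝ)) ^ 3 = m ∧ m ^ (2 / 3 : ℝ) = (m ^ (1 / 3 : ℝ)) ^ 2 := by
  constructor <;> rw [← Real.rpow_natCast, ← Real.rpow_mul h] <;> norm_num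

theorem xf_cube (z w : ℂ) : xf z w ^ 3 = (tf z w)⁻¹ := by
  rw [xf, tf, div_pow, (cube_rp (normSq_nonneg _)).1, inv_div]

theorem normSq_uf (z w : ℂ) : normSq (uf z w) = xf z w := by
  obtain ⟨h1, h2⟩ := cube_rp (normSq_nonneg (pf z w))
  simp only [uf, xf, map_div₀, map_mul, map_pow, normSq_conj, normSq_ofReal, h2]
  generalize normSq (pf z w) ^ (1 / 3 : ℝ) = n at *
  rw [← h1]
  by_cases hn : n = 0
  · simp [hn]
  by_cases hz : normSq z = 0
  · simp [hz]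
  field_simp

theorem nq_qq (x : E 5) : nq (qq x) = lev x := by simp only [nq, qq, lev, normSq_uf]

theorem near_iff {z w : ℂ} (h : pf z w ≠ 0) : Near z w ↔ 4 < xf z w := by
  have h1 := normSq_pos.2 h
  rw [← pow_lt_pow_iff_left₀ (n := 3) (by norm_num) (xf_nonneg z w) (by norm_num), xf_cube, tf,
    inv_div, lt_div_iff₀ h1, Near]
  norm_num

theorem sc_lt1 {x : S4} (h : zc x ≠ 0 ∨ wc x ≠ 0) : sc x ^ 2 < 1 := sub_pos.1 (sc_lt h)

theorem sc_lt' {x : S4} (h : pp x ≠ 0) : sc x ^ 2 < 1 := sc_lt1 (zw_ne h)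

theorem closed_atMost (c : ℝ) : IsClosed (AtMost c) := ⟨isOpen_atMost c⟩

theorem mem_VV' {x : S4} : x ∈ VV ↔ pp x = 0 ∨ 13 / 5 < lev x := by
  rw [mem_VV]
  tauto

theorem mem_shell {x : S4} : x ∈ VV ∩ WW ↔ pp x ≠ 0 ∧ 13 / 5 < lev x ∧ lev x < 14 / 5 :=
  ⟨fun h => ⟨h.2.1, mem_VV.1 h.1 h.2.1, h.2.2⟩,
    fun h => ⟨mem_VV.2 fun _ => h.2.1, h.1, h.2.2⟩⟩

/-- `uf` is continuous off the knot, also on the axis `z = 0` -/
theorem ca_uf {z w : ℂ} (h : pf z w ≠ 0) : ContinuousAt (fun y : ℂ × ℂ => uf y.1 y.2) (z, w) := by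
  by_cases hz : z = 0
  · subst hz
    have h1 := (cda_xf (y := ((0 : ℂ), w)) contDiffAt_fst contDiffAt_snd h).continuousAt.sqrt
    have e : uf 0 w = 0 := by simp [uf]
    rw [ContinuousAt, e, tendsto_zero_iff_norm_tendsto_zero]
    simpa only [ContinuousAt, ← normSq_uf, ← norm_def, e, norm_zero] using h1
  · exact (cda_uf (y := (z, w)) (a := Prod.fst) (b := Prod.snd) contDiffAt_fst contDiffAt_snd hz
      h).continuousAt

theorem ca_qq {x : S4} (h : pp x ≠ 0) : ContinuousAt (fun y : S4 => qq y) x :=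
  ((ca_uf h).comp (f := fun y : S4 => (zc y, wc y))
    ((cd_zc.prodMk cd_wc).continuous.comp continuous_subtype_val).continuousAt).prodMk
    ((cda_tt contDiffAt_id (sc_lt' h)).continuousAt.comp continuous_subtype_val.continuousAt)

/-! ### Admissible maps, reglued sets -/

theorem Adm.one : Adm 1 :=
  ⟨fun _ => rfl, fun _ _ => ⟨contDiffAt_id, contDiffAt_id⟩, fun _ _ => rfl, 1, one_pos,
    fun _ _ _ => rfl⟩

theorem Adm.lv' {Θ : Equiv.Perm V3} (h : Adm Θ) (y : V3) : nq (Θ.symm y) = nq y := by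
  rw [← h.lv, Equiv.apply_symm_apply]

theorem Adm.inv {Θ : Equiv.Perm V3} (h : Adm Θ) : Adm Θ⁻¹ := by
  obtain ⟨δ, h0, h1⟩ := h.fix
  exact ⟨h.lv', fun y hy => (h.smo y hy).symm, fun y hy => Θ.symm_apply_eq.2 (h.far y hy).symm,
    δ, h0, fun y a b => Θ.symm_apply_eq.2 (h1 y a b).symm⟩

theorem Adm.mul {Θ Φ : Equiv.Perm V3} (h : Adm Θ) (h' : Adm Φ) : Adm (Θ * Φ) := by
  obtain ⟨δ, h0, h1⟩ := h.fix
  obtain ⟨δ', h0', h1'⟩ := h'.fix
  refine ⟨fun y => (h.lv _).trans (h'.lv y), fun y hy => ⟨?_, ?_⟩, fun y hy => ?_, min δ δ',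
    lt_min h0 h0', fun y a b => ?_⟩
  · exact (h.smo _ (by rwa [h'.lv])).1.comp y (h'.smo y hy).1
  · exact (h'.smo _ (by rwa [h.lv'])).2.comp y (h.smo y hy).2
  · rw [Equiv.Perm.mul_apply, h'.far y hy, h.far y hy]
  · simp only [lt_min_iff] at b
    rw [Equiv.Perm.mul_apply, h1' y a (by tauto), h1 y a (by tauto)]

theorem Adm.pow {Θ : Equiv.Perm V3} (h : Adm Θ) (n : ℕ) : Adm (Θ ^ n) := by
  induction n with
  | zero => exact Adm.one
  | succ n ih => exact pow_succ Θ n ▸ ih.mul h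

namespace Reg
variable {Θ : V3 → V3} {e1 e2 : S4 ≃ S4}

theorem compat (h : Reg Θ e1 e2) {f : E 5 → ℝ} (hf : Inv f) : Compat WW VV e1 e2 f :=
  fun x hx y hy e => hf x ⟨(h.glue.ov x hx y hy e).1, hx⟩ y ⟨hy, (h.glue.ov x hx y hy e).2⟩
    (h.ovl x hx y hy e).1 (h.ovl x hx y hy e).2.1

theorem mem1 {S : Set S4} (hS : ∀ x ∈ WW, ∀ y ∈ VV, e1 x = e2 y → (x ∈ S ↔ y ∈ S)) {x : S4}
    (hx : x ∈ WW) : e1 x ∈ reglue e1 e2 S ↔ x ∈ S := by
  refine ⟨?_, fun a => Or.inl ⟨x, ⟨a, hx⟩, rfl⟩⟩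
  rintro (⟨y, a, b⟩ | ⟨y, a, b⟩)
  · exact e1.injective b ▸ a.1
  · exact (hS x hx y a.2 b.symm).2 a.1

theorem mem2 {S : Set S4} (hS : ∀ x ∈ WW, ∀ y ∈ VV, e1 x = e2 y → (x ∈ S ↔ y ∈ S)) {y : S4}
    (hy : y ∈ VV) : e2 y ∈ reglue e1 e2 S ↔ y ∈ S := by
  refine ⟨?_, fun a => Or.inr ⟨y, ⟨a, hy⟩, rfl⟩⟩
  rintro (⟨x, a, b⟩ | ⟨x, a, b⟩)
  · exact (hS x a.2 y hy b).1 a.1
  · exact e2.injective b ▸ a.1

theorem tri_iff (h : Reg Θ e1 e2) {A B : E 5 → ℝ} (hA : Inv A) (hB : Inv B) (i : Fin 3) :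
    ∀ x ∈ WW, ∀ y ∈ VV, e1 x = e2 y → (x ∈ tri A B i ↔ y ∈ tri A B i) := fun x hx y hy e => by
  simp only [tri, mem_ofPred_eq, h.compat hA x hx y hy e, h.compat hB x hx y hy e]

end Reg

end Pool.Agent.MP_7ebdba_gt.sm

end
end MrgPart1

-- ======== part 2: formerly Pool.Agent.MP_7ebdba_gt.sm.m.Mf
section MrgPart2

/-! Elementary facts on `Near`, `af`, `mf`, `bf`, `HH`. -/

open scoped ContDiff Topology ComplexConjugate
open Set Filter Complex

noncomputable section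

namespace Pool.Agent.MP_7ebdba_gt.sm.mf

variable {z w : ℂ}

theorem csq (u : ℂ) : Complex.sqrt u ^ 2 = u := cpow_ofNat_inv_pow u 2

theorem near_z (h : Near z w) : z ≠ 0 := by
  rintro rfl
  have := normSq_nonneg (pf 0 w)
  simp only [Near, map_zero] at h
  linarith

theorem near_iff_tf (hz : z ≠ 0) : Near z w ↔ tf z w < 1 / 64 := by
  rw [tf, div_lt_iff₀ (pow_pos (normSq_pos.2 hz) 3), Near]
  constructor <;> intro h <;> linarith

theorem near_tf (h : Near z w) : tf z w < 1 / 64 := (near_iff_tf (near_z h)).1 h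

theorem tf_nonneg (z w : ℂ) : 0 ≤ tf z w :=
  div_nonneg (normSq_nonneg _) (pow_nonneg (normSq_nonneg _) _)

theorem ratio (hz : z ≠ 0) : w ^ 2 / z ^ 3 = 1 - pf z w / z ^ 3 := by
  unfold pf; field_simp; ring

theorem norm_ratio (z w : ℂ) : ‖pf z w / z ^ 3‖ ^ 2 = tf z w := by
  rw [← normSq_eq_norm_sq, map_div₀, map_pow, tf]

theorem slit_of_lt {v : ℂ} (h : ‖v‖ < 1) : 1 - v ∈ slitPlane := by
  simpa [sub_eq_add_neg] using mem_slitPlane_of_norm_lt_one (z := -v) (by simpa using h)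

theorem near_slit (h : Near z w) : w ^ 2 / z ^ 3 ∈ slitPlane := by
  rw [ratio (near_z h)]
  refine slit_of_lt ?_
  have := norm_ratio z w
  nlinarith [near_tf h, norm_nonneg (pf z w / z ^ 3)]

theorem near_w (h : Near z w) : w ≠ 0 := fun a => by simpa [a] using near_slit h

theorem near_sqrt (h : Near z w) : Complex.sqrt (w ^ 2 / z ^ 3) ≠ 0 := fun a =>
  slitPlane_ne_zero (near_slit h) (by rw [← csq (w ^ 2 / z ^ 3), a]; simp)

theorem sqrt_norm_ne (hz : z ≠ 0) : ((√‖z‖ : ℝ) : ℂ) ≠ 0 :=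
  ofReal_ne_zero.2 (Real.sqrt_pos.2 (norm_pos_iff.2 hz)).ne'

/-- the square root of `z` selected by `w` -/
theorem root (h : Near z w) : (√‖z‖ * af z w) ^ 2 = z ∧
    (√‖z‖ * af z w) ^ 3 * Complex.sqrt (w ^ 2 / z ^ 3) = w := by
  have h1 := near_z h
  have h2 := near_sqrt h
  have h3 := sqrt_norm_ne h1
  have h4 := near_w h
  have e : √‖z‖ * af z w = w / (z * Complex.sqrt (w ^ 2 / z ^ 3)) := by unfold af; field_simp
  have e2 : (√‖z‖ * af z w) ^ 2 = z := by rw [e, div_pow, mul_pow, csq]; field_simp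
  refine ⟨e2, ?_⟩
  rw [pow_succ, e2, e]; field_simp

theorem norm_af (h : Near z w) : ‖af z w‖ = 1 := by
  have := congrArg norm (root h).1
  rw [norm_pow, norm_mul, mul_pow, norm_real, Real.norm_eq_abs, sq_abs,
    Real.sq_sqrt (norm_nonneg _)] at this
  exact (pow_eq_one_iff_of_nonneg (norm_nonneg _) two_ne_zero).1
    (mul_left_cancel₀ (norm_ne_zero_iff.2 (near_z h)) (by rw [this, mul_one]))

theorem af_re (h : Near z w) : |(af z w).re| ≤ 1 := norm_af h ▸ abs_re_le_norm _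

theorem normSq_cf (z w : ℂ) : normSq (cf z w) = tf z w := by
  rw [cf, tf, map_div₀, normSq_ofReal, normSq_eq_norm_sq z]; ring

theorem isOpen_near : IsOpen {y : ℂ × ℂ | Near y.1 y.2} :=
  isOpen_lt (by unfold pf; fun_prop) (by fun_prop)

theorem far_pf (h : ¬Near z w) (h0 : z ≠ 0 ∨ w ≠ 0) : pf z w ≠ 0 := fun a => by
  have hz : z = 0 := by
    by_contra b
    exact h (by simpa [Near, a] using pow_pos (normSq_pos.2 b) 3)
  simp [pf, hz] at a h0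
  exact h0 a

theorem far_xf (h : ¬Near z w) : xf z w ≤ 4 := by
  by_cases h0 : pf z w = 0
  · simp [xf, h0]
  · exact not_lt.1 fun a => h ((near_iff h0).2 a)

variable (P : Prof)

theorem F_mono : StrictMono P.F := strictMono_of_deriv_pos P.F_pos

theorem mf_near (h : Near z w) : mf P z w = 6 - tf z w + P.ε * P.χ (tf z w) * (af z w).re :=
  if_pos h

theorem mf_far (h : ¬Near z w) : mf P z w = P.F (xf z w) := if_neg h

theorem bf_near (β : ℝ → ℝ) (h : Near z w) : bf β z w = (cf z w).im := if_pos h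

theorem bf_far (β : ℝ → ℝ) (h : ¬Near z w) : bf β z w = β (xf z w) * (ph (pf z w)).im := if_neg h

/-- away from the support of `χ` the function `mf` is a function of `xf` -/
theorem mf_eq_F (h : normSq z ^ 3 ≤ 100 * normSq (pf z w)) : mf P z w = P.F (xf z w) := by
  by_cases hn : Near z w
  · have h1 := pow_pos (normSq_pos.2 (near_z hn)) 3
    have h0 : pf z w ≠ 0 := fun a => by simp only [a, map_zero] at h; linarith
    rw [mf_near P hn, P.χ_hi _ (by rw [tf, ge_iff_le, le_div_iff₀ h1]; linarith),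
      P.F_hi _ ((near_iff h0).1 hn).le, xf_cube]
    simp
  · exact mf_far P hn

theorem bf_eq {β : ℝ → ℝ} (hβ : ∀ X ≥ 4, β X = (√X ^ 3)⁻¹) (h : pf z w ≠ 0) :
    bf β z w = β (xf z w) * (ph (pf z w)).im := by
  by_cases hn : Near z w
  · have h1 := norm_pos_iff.2 (near_z hn)
    have h2 := norm_pos_iff.2 h
    have e : √(xf z w) ^ 3 = ‖z‖ ^ 3 / ‖pf z w‖ := by
      refine (pow_left_inj₀ (by positivity) (by positivity) two_ne_zero).1 ?_
      rw [← pow_mul, mul_comm, pow_mul, Real.sq_sqrt (xf_nonneg _ _), xf_cube, tf, inv_div,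
        normSq_eq_norm_sq, normSq_eq_norm_sq]
      ring
    rw [bf_near β hn, hβ _ ((near_iff h).1 hn).le, e, cf, ph, div_ofReal_im, div_ofReal_im]
    field_simp
  · exact bf_far β hn

theorem mf_far_mem (h : ¬Near z w) : 0 ≤ mf P z w ∧ mf P z w ≤ 6 - 1 / 64 := by
  rw [mf_far P h]
  have a := (F_mono P).monotone (xf_nonneg z w)
  have b := (F_mono P).monotone (far_xf h)
  rw [P.F_lo 0 (by norm_num)] at a
  rw [P.F_hi 4 le_rfl] at b
  exact ⟨a, by linarith⟩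

theorem eps_abs (h : Near z w) : |P.ε * P.χ (tf z w) * (af z w).re| ≤ P.ε := by
  rw [abs_mul, abs_mul, abs_of_pos P.ε_pos, abs_of_nonneg (P.χ_mem _).1, mul_assoc]
  exact mul_le_of_le_one_right P.ε_pos.le (mul_le_one₀ (P.χ_mem _).2 (abs_nonneg _) (af_re h))

theorem mf_mem (z w : ℂ) : 0 ≤ mf P z w ∧ mf P z w ≤ 7 := by
  by_cases h : Near z w
  · have := abs_le.1 (eps_abs P h)
    rw [mf_near P h]
    constructor <;> linarith [near_tf h, tf_nonneg z w, P.ε_lt]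
  · exact ⟨(mf_far_mem P h).1, by linarith [(mf_far_mem P h).2]⟩

theorem mf_smul {c : ℂ} (h : ph c = 1) (z w : ℂ) : mf P (c ^ 2 * z) (c ^ 3 * w) = mf P z w := by
  have h0 : c ≠ 0 := fun a => by simp [a] at h
  simp only [mf, tf_smul h0, af_smul h0, xf_smul h0, h, one_mul]
  rw [near_smul h0]

theorem bf_smul (β : ℝ → ℝ) {c : ℂ} (h : ph c = 1) (z w : ℂ) :
    bf β (c ^ 2 * z) (c ^ 3 * w) = bf β z w := by
  have h0 : c ≠ 0 := fun a => by simp [a] at h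
  simp only [bf, cf_smul, ph_pf_smul, xf_smul h0, h, one_pow, one_mul]
  rw [near_smul h0]

theorem bf_zero_iff {β : ℝ → ℝ} (hβ : ∀ X ≤ 4, 0 < β X) : bf β z w = 0 ↔ (pf z w).im = 0 := by
  by_cases h : Near z w
  · rw [bf_near β h, cf, div_ofReal_im, div_eq_zero_iff]
    simp [near_z h]
  · rw [bf_far β h, ph, div_ofReal_im, mul_eq_zero, div_eq_zero_iff, norm_eq_zero]
    exact ⟨fun a => (a.resolve_left (hβ _ (far_xf h)).ne').elim id fun b => by simp [b],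
      fun a => Or.inr (Or.inl a)⟩

theorem height_mono {m : ℝ} (hm : |m| ≤ 7) : StrictMono fun σ => P.η σ * m + P.k σ := by
  have d := P.η_sm.differentiable (by simp)
  have d' := P.k_sm.differentiable (by simp)
  refine strictMono_of_deriv_pos fun σ => ?_
  rw [(((d σ).hasDerivAt.mul_const m).fun_add (d' σ).hasDerivAt).deriv]
  have h1 := P.k_der σ
  have h2 := neg_abs_le (deriv P.η σ * m)
  rw [abs_mul] at h2
  nlinarith [abs_nonneg (deriv P.η σ)]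

theorem HH_hi {x : E 5} (h : 8 / 9 ≤ sc x ^ 2) : 8 ≤ HH P x := by
  have a := mf_mem P (zc x) (wc x)
  have := (height_mono P (m := mf P (zc x) (wc x)) (abs_le.2 ⟨by linarith, a.2⟩)).monotone h
  simp only [P.η_lo _ le_rfl, P.k_lo _ le_rfl] at this
  unfold HH
  linarith

theorem HH_lo {x : E 5} (h : sc x ^ 2 ≤ 8 / 9) : HH P x = mf P (zc x) (wc x) + tt x ^ 2 := by
  rw [HH, P.η_lo _ h, P.k_lo _ h, one_mul, tt_sq (by linarith)]

theorem lo_of_AA {x : E 5} (h : AA P x ≤ 0) : sc x ^ 2 < 8 / 9 :=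
  not_le.1 fun a => by have := HH_hi P a; unfold AA at h; linarith

theorem lo_iff {x : E 5} (h : 0 < 1 - sc x ^ 2) : sc x ^ 2 ≤ 8 / 9 ↔ tt x ^ 2 ≤ 8 := by
  rw [tt_sq h, div_le_iff₀ h]
  constructor <;> intro a <;> linarith

end Pool.Agent.MP_7ebdba_gt.sm.mf

end
end MrgPart2

-- marker of a merged file
example : 731051 + 366787 = 731051 + 366787 := rfl

end MrgPart2

-- ======== part 3: formerly Pool.Agent.MP_7ebdba_gt.ch.Main
section MrgPart3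

/-! The topological half of Part I. -/

namespace Pool.Agent.MP_7ebdba_gt.ch

theorem chain : ChainStmt := asm tree pinch enum track sigma pd nt alt

/-- Part I follows once no chain exists for one slope. -/
theorem partI_of_no_chain
    (h : ∃ θ ∈ slopeGrp, ¬ Chain (r0.comp (θ⁻¹ : MulAut (S 2)).toMonoidHom)) : PartI := by
  obtain ⟨θ, hθ, hn⟩ := h
  exact ⟨θ, hθ, fun T j hi => hn (chain _ T j hi)⟩

end Pool.Agent.MP_7ebdba_gt.ch

end MrgPart3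

-- marker of a merged file
example : 731051 + 384715 = 731051 + 384715 := rfl
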