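import Pool.Agent.MP_7ebdba_gt.ch.Spec

/-! A stabilisation pinches to a free product; alternating words are nontrivial. -/

namespace Pool.Agent.MP_7ebdba_gt.ch

open Monoid

/-- Surface groups of positive genus are nontrivial. -/
theorem nontrivial_S (g : ℕ) : Nontrivial (S (g + 1)) := by
  let f : F (g + 1) →* Multiplicative ℤ := FreeGroup.lift fun _ => Multiplicative.ofAdd 1
  have hf : f (rel (g + 1)) = 1 := by
    unfold rel
    rw [map_list_prod]
    apply List.prod_eq_one
    intro x hx
    obtain ⟨y, hy, rfl⟩ := List.mem_map.1 hx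
    obtain ⟨i, rfl⟩ := List.mem_ofFn.1 hy
    simp [f]
  refine ⟨mk (g + 1) (FreeGroup.of (0, false)), 1, fun h => ?_⟩
  have h2 := congrArg (desc f hf) h
  rw [desc_mk, map_one] at h2
  simp [f] at h2

/-- The two factors: genus three and genus one. -/
abbrev pinchM (b : Bool) : Type := S (cond b 0 2 + 1)

/-- The inclusion of the last handle. -/
def lastH : F 1 →* F 4 := FreeGroup.map fun p => (3, p.2)

theorem rel4_split : rel 4 = incl 3 (rel 3) * lastH (rel 1) := by decide +kernel

/-- The pinch map at the level of the free group. -/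
def pinchF : F 4 →* CoprodI pinchM :=
  FreeGroup.lift fun x =>
    if h : x.1.val < 3 then
      CoprodI.of (M := pinchM) (i := false) (mk 3 (FreeGroup.of (⟨x.1.val, h⟩, x.2)))
    else CoprodI.of (M := pinchM) (i := true) (mk 1 (FreeGroup.of (0, x.2)))

theorem pinchF_incl (w : F 3) :
    pinchF (incl 3 w) = CoprodI.of (M := pinchM) (i := false) (mk 3 w) := by
  have : pinchF.comp (incl 3) = (CoprodI.of (M := pinchM) (i := false)).comp (mk 3) := by
    refine FreeGroup.ext_hom _ _ ?_
    rintro ⟨i, c⟩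
    simp only [MonoidHom.comp_apply, incl, FreeGroup.map.of, pinchF, FreeGroup.lift_apply_of]
    rw [dif_pos (show (Fin.castSucc i).val < 3 from i.2)]
    rfl
  exact DFunLike.congr_fun this w

theorem pinchF_last (w : F 1) :
    pinchF (lastH w) = CoprodI.of (M := pinchM) (i := true) (mk 1 w) := by
  have : pinchF.comp lastH = (CoprodI.of (M := pinchM) (i := true)).comp (mk 1) := by
    refine FreeGroup.ext_hom _ _ ?_
    rintro ⟨i, c⟩
    simp only [MonoidHom.comp_apply, lastH, FreeGroup.map.of, pinchF, FreeGroup.lift_apply_of]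
    rw [dif_neg (by decide), Subsingleton.elim i 0]
  exact DFunLike.congr_fun this w

/-- The pinch map. -/
def pinchP : S 4 →* CoprodI pinchM :=
  desc pinchF (by
    rw [rel4_split, map_mul, pinchF_incl, pinchF_last, mk_rel, mk_rel]
    exact (congrArg₂ (· * ·) (map_one _) (map_one _)).trans (mul_one 1))

theorem pinchP_surjective : Function.Surjective pinchP := by
  intro x
  induction x using CoprodI.induction_on with
  | one => exact ⟨1, map_one _⟩
  | of b m =>
    cases b
    · obtain ⟨w, rfl⟩ := mk_surjective 3 m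
      exact ⟨mk 4 (incl 3 w), pinchF_incl w⟩
    · obtain ⟨w, rfl⟩ := mk_surjective 1 m
      exact ⟨mk 4 (lastH w), pinchF_last w⟩
  | mul x y hx hy =>
    obtain ⟨a, rfl⟩ := hx
    obtain ⟨b, rfl⟩ := hy
    exact ⟨a * b, map_mul _ _ _⟩

/-- A normal subgroup that contains the separating curve contains the kernel of the pinch map. -/
theorem pinchP_ker (K : Subgroup (S 4)) [K.Normal] (h : mk 4 (incl 3 (rel 3)) ∈ K) :
    pinchP.ker ≤ K := by
  have h' : mk 4 (lastH (rel 1)) ∈ K := by
    have e : mk 4 (incl 3 (rel 3)) * mk 4 (lastH (rel 1)) = 1 := by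
      rw [← map_mul, ← rel4_split, mk_rel]
    rw [eq_inv_of_mul_eq_one_right e]
    exact K.inv_mem h
  let q0 : S 3 →* S 4 ⧸ K := desc ((QuotientGroup.mk' K).comp ((mk 4).comp (incl 3)))
    ((QuotientGroup.eq_one_iff _).2 h)
  let q1 : S 1 →* S 4 ⧸ K := desc ((QuotientGroup.mk' K).comp ((mk 4).comp lastH))
    ((QuotientGroup.eq_one_iff _).2 h')
  let q : CoprodI pinchM →* S 4 ⧸ K :=
    CoprodI.lift fun b => Bool.rec (motive := fun b => pinchM b →* S 4 ⧸ K) q0 q1 b
  have key : q.comp pinchP = QuotientGroup.mk' K := by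
    refine hom_ext ?_
    rintro ⟨i, c⟩
    by_cases hi : i.val < 3
    · have e : (FreeGroup.of (i, c) : F 4) = incl 3 (FreeGroup.of (⟨i.val, hi⟩, c)) := rfl
      rw [e, MonoidHom.comp_apply, pinchP, desc_mk, pinchF_incl, CoprodI.lift_of]
      rfl
    · obtain rfl : i = 3 := Fin.ext (by have := i.2; change i.val = 3; omega)
      have e : (FreeGroup.of ((3 : Fin 4), c) : F 4) = lastH (FreeGroup.of (0, c)) := rfl
      rw [e, MonoidHom.comp_apply, pinchP, desc_mk, pinchF_last, CoprodI.lift_of]
      rfl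
  intro x hx
  have h2 := DFunLike.congr_fun key x
  rw [MonoidHom.comp_apply, MonoidHom.mem_ker.1 hx, map_one] at h2
  exact (QuotientGroup.eq_one_iff _).1 h2.symm

theorem pinch : PinchStmt := by
  rintro T' j T ⟨θ, σ, hθ⟩
  refine ⟨pinchM, inferInstance, fun b => nontrivial_S _, pinchP.comp θ.symm.toMonoidHom,
    pinchP_surjective.comp θ.symm.surjective, fun k x hx => ?_⟩
  obtain ⟨i, rfl⟩ := σ.surjective k
  rw [← hθ]
  refine ⟨θ.symm x, ?_, θ.apply_symm_apply x⟩
  have hn : (stab T' j i).Normal := Subgroup.normalClosure_normal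
  refine pinchP_ker (stab T' j i) (Subgroup.subset_normalClosure (Or.inl ?_)) hx
  refine ⟨rel 3, ?_, rfl⟩
  change mk 3 (rel 3) ∈ T' i
  rw [mk_rel]
  exact (T' i).one_mem

theorem alt : AltStmt := by
  classical
  intro l hl h
  let f : Coprod F2 F2 →* CoprodI fun _ : Bool => F2 :=
    Coprod.lift (CoprodI.of (M := fun _ : Bool => F2) (i := false))
      (CoprodI.of (M := fun _ : Bool => F2) (i := true))
  have key : ∀ l : List (F2 × F2), (∀ p ∈ l, p.1 ≠ 1 ∧ p.2 ≠ 1) →
      ∃ w : CoprodI.Word fun _ : Bool => F2, w.fstIdx ≠ some true ∧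
        w.toList.length = 2 * l.length ∧
        w.prod = f (l.map fun p => (Coprod.inl p.1 * Coprod.inr p.2 : Coprod F2 F2)).prod := by
    intro l
    induction l with
    | nil => exact fun _ => ⟨CoprodI.Word.empty, by simp [CoprodI.Word.fstIdx], rfl, by simp⟩
    | cons p l ih =>
      intro h
      obtain ⟨w, h1, h2, h3⟩ := ih fun q hq => h q (List.mem_cons_of_mem _ hq)
      obtain ⟨a1, a2⟩ := h p List.mem_cons_self
      refine ⟨CoprodI.Word.cons (i := false) p.1 (CoprodI.Word.cons (i := true) p.2 w h1 a2)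
        (by simp) a1, by simp, ?_, ?_⟩
      · simp only [CoprodI.Word.cons_toList, List.length_cons, h2]
        omega
      · rw [CoprodI.Word.prod_cons, CoprodI.Word.prod_cons, h3, List.map_cons, List.prod_cons,
          map_mul, map_mul, mul_assoc]
        rfl
  obtain ⟨w, -, h2, h3⟩ := key l h
  intro e
  rw [e, map_one] at h3
  have hw : w = CoprodI.Word.empty :=
    (CoprodI.Word.equiv (M := fun _ : Bool => F2)).symm.injective h3
  rw [hw] at h2
  exact hl (List.length_eq_zero_iff.1 (by simpa using h2.symm))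

end Pool.Agent.MP_7ebdba_gt.ch
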